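import Mathlib

/-!
Averages over random signs, for the twisted Hilbert space construction.
-/

open Finset

namespace Pool.Agent.Helper95

/-- The real sign of a boolean. -/
def sg (b : Bool) : ℝ := if b then 1 else -1

@[simp] lemma sg_not (b : Bool) : sg (!b) = - sg b := by
  cases b <;> simp [sg]

@[simp] lemma sg_mul_self (b : Bool) : sg b * sg b = 1 := by
  cases b <;> simp [sg]

@[simp] lemma sg_sq (b : Bool) : sg b ^ 2 = 1 := by
  rw [pow_two, sg_mul_self]

lemma sg_abs (b : Bool) : |sg b| = 1 := by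
  cases b <;> simp [sg]

section Avg

variable {ι : Type*} [Fintype ι] [DecidableEq ι]

/-- Average over all sign patterns. -/
noncomputable def avg (f : (ι → Bool) → ℝ) : ℝ := (∑ e, f e) / 2 ^ (Fintype.card ι)

lemma two_pow_pos' : (0 : ℝ) < 2 ^ (Fintype.card ι) := by positivity

lemma avg_add (f g : (ι → Bool) → ℝ) : avg (fun e => f e + g e) = avg f + avg g := by
  simp [avg, Finset.sum_add_distrib, add_div]

lemma avg_sub (f g : (ι → Bool) → ℝ) : avg (fun e => f e - g e) = avg f - avg g := by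
  simp [avg, Finset.sum_sub_distrib, sub_div]

lemma avg_neg (f : (ι → Bool) → ℝ) : avg (fun e => - f e) = - avg f := by
  simp [avg, Finset.sum_neg_distrib, neg_div]

lemma avg_mul_left (c : ℝ) (f : (ι → Bool) → ℝ) : avg (fun e => c * f e) = c * avg f := by
  simp [avg, ← Finset.mul_sum, mul_div_assoc]

lemma avg_mul_right (c : ℝ) (f : (ι → Bool) → ℝ) : avg (fun e => f e * c) = avg f * c := by
  simp only [mul_comm _ c, avg_mul_left]

lemma avg_div (c : ℝ) (f : (ι → Bool) → ℝ) : avg (fun e => f e / c) = avg f / c := by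
  simp only [div_eq_mul_inv, avg_mul_right]

lemma avg_mono {f g : (ι → Bool) → ℝ} (h : ∀ e, f e ≤ g e) : avg f ≤ avg g := by
  unfold avg
  exact div_le_div_of_nonneg_right (Finset.sum_le_sum fun e _ => h e) (two_pow_pos').le

lemma avg_nonneg {f : (ι → Bool) → ℝ} (h : ∀ e, 0 ≤ f e) : 0 ≤ avg f := by
  unfold avg
  exact div_nonneg (Finset.sum_nonneg fun e _ => h e) (two_pow_pos').le

lemma avg_const (c : ℝ) : avg (fun _ : ι → Bool => c) = c := by
  have h : (2 : ℝ) ^ (Fintype.card ι) ≠ 0 := two_pow_pos'.ne'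
  simp [avg, Finset.sum_const]

lemma avg_sum {κ : Type*} (s : Finset κ) (f : κ → (ι → Bool) → ℝ) :
    avg (fun e => ∑ k ∈ s, f k e) = ∑ k ∈ s, avg (f k) := by
  unfold avg
  rw [Finset.sum_comm, Finset.sum_div]

/-- flipping one coordinate -/
def flipAt (i : ι) (e : ι → Bool) : ι → Bool := Function.update e i (!(e i))

lemma flipAt_invol (i : ι) : Function.Involutive (flipAt i : (ι → Bool) → (ι → Bool)) := by
  intro e
  unfold flipAt
  ext j
  by_cases h : j = i
  · subst h; simp
  · simp [h]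

lemma flipAt_same (i : ι) (e : ι → Bool) : flipAt i e i = !(e i) := by
  simp [flipAt]

lemma flipAt_ne {i j : ι} (h : j ≠ i) (e : ι → Bool) : flipAt i e j = e j := by
  simp [flipAt, h]

lemma sum_flip (i : ι) (f : (ι → Bool) → ℝ) : ∑ e, f (flipAt i e) = ∑ e, f e :=
  Equiv.sum_comp (flipAt_invol i).toPerm f

lemma avg_flip (i : ι) (f : (ι → Bool) → ℝ) : avg (fun e => f (flipAt i e)) = avg f := by
  unfold avg
  rw [sum_flip]

lemma avg_eq_zero_of_flip (i : ι) (f : (ι → Bool) → ℝ) (h : ∀ e, f (flipAt i e) = - f e) :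
    avg f = 0 := by
  have h1 := avg_flip i f
  have h2 : avg (fun e => f (flipAt i e)) = - avg f := by
    rw [← avg_neg]; congr 1; ext e; exact h e
  linarith

lemma avg_sg_mul_sg (i j : ι) : avg (fun e => sg (e i) * sg (e j)) = if i = j then 1 else 0 := by
  by_cases h : i = j
  · subst h; simp [avg_const]
  · rw [if_neg h]
    apply avg_eq_zero_of_flip i
    intro e
    rw [flipAt_same, flipAt_ne (Ne.symm h), sg_not]; ring

/-- quadratic forms: the average is the trace. -/
lemma avg_quad (Z : ι → ι → ℝ) :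
    avg (fun e => ∑ i, ∑ j, sg (e i) * sg (e j) * Z i j) = ∑ i, Z i i := by
  rw [avg_sum]
  apply Finset.sum_congr rfl
  intro i _
  rw [avg_sum]
  have : ∀ j, avg (fun e => sg (e i) * sg (e j) * Z i j) = if i = j then Z i j else 0 := by
    intro j
    rw [avg_mul_right, avg_sg_mul_sg]
    split_ifs <;> simp
  simp [this]

/-- second moment of vector valued sign sums -/
lemma avg_norm_sq {H : Type*} [NormedAddCommGroup H] [InnerProductSpace ℝ H] (v : ι → H) :
    avg (fun e => ‖∑ i, sg (e i) • v i‖ ^ 2) = ∑ i, ‖v i‖ ^ 2 := by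
  have h1 : ∀ e : ι → Bool, ‖∑ i, sg (e i) • v i‖ ^ 2
      = ∑ i, ∑ j, sg (e i) * sg (e j) * (inner ℝ (v i) (v j)) := by
    intro e
    rw [← real_inner_self_eq_norm_sq, sum_inner]
    apply Finset.sum_congr rfl
    intro i _
    rw [inner_sum]
    apply Finset.sum_congr rfl
    intro j _
    rw [real_inner_smul_left, real_inner_smul_right]; ring
  simp only [h1]
  rw [avg_quad (fun i j => inner ℝ (v i) (v j))]
  simp

/-- second moment, scalar version -/
lemma avg_sq (a : ι → ℝ) : avg (fun e => (∑ i, sg (e i) * a i) ^ 2) = ∑ i, a i ^ 2 := by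
  have h := avg_norm_sq (H := ℝ) a
  simpa [smul_eq_mul, Real.norm_eq_abs, sq_abs] using h

/-- fourth moment of a sign sum -/
lemma avg_pow_four_aux (a : ι → ℝ) (s : Finset ι) :
    avg (fun e => (∑ i ∈ s, sg (e i) * a i) ^ 2) = ∑ i ∈ s, a i ^ 2 ∧
    avg (fun e => (∑ i ∈ s, sg (e i) * a i) ^ 4) ≤ 3 * (∑ i ∈ s, a i ^ 2) ^ 2 := by
  induction s using Finset.induction_on with
  | empty => simp [avg_const]
  | insert j s hj ih =>
    obtain ⟨ih2, ih4⟩ := ih
    set X : (ι → Bool) → ℝ := fun e => ∑ i ∈ s, sg (e i) * a i with hX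
    have hXflip : ∀ e, X (flipAt j e) = X e := by
      intro e
      simp only [hX]
      apply Finset.sum_congr rfl
      intro i hi
      have : i ≠ j := fun h => hj (h ▸ hi)
      rw [flipAt_ne this]
    have hsum : ∀ e : ι → Bool, ∑ i ∈ insert j s, sg (e i) * a i = sg (e j) * a j + X e := by
      intro e; rw [Finset.sum_insert hj]
    have hodd : ∀ k : ℕ, avg (fun e => X e ^ k * sg (e j)) = 0 := by
      intro k
      apply avg_eq_zero_of_flip j
      intro e
      rw [hXflip, flipAt_same, sg_not]; ring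
    have e2 : avg (fun e => (∑ i ∈ insert j s, sg (e i) * a i) ^ 2)
        = ∑ i ∈ insert j s, a i ^ 2 := by
      have : (fun e : ι → Bool => (∑ i ∈ insert j s, sg (e i) * a i) ^ 2)
          = fun e => (a j ^ 2 + (2 * a j) * (X e ^ 1 * sg (e j))) + X e ^ 2 := by
        ext e
        rw [hsum]
        have := sg_sq (e j)
        linear_combination (a j ^ 2) * this
      rw [this, avg_add, avg_add, avg_const, avg_mul_left, hodd, ih2, Finset.sum_insert hj]
      ring
    refine ⟨e2, ?_⟩
    have : (fun e : ι → Bool => (∑ i ∈ insert j s, sg (e i) * a i) ^ 4)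
        = fun e => (((a j ^ 4 + (4 * a j) * (X e ^ 3 * sg (e j)))
            + (6 * a j ^ 2) * X e ^ 2) + (4 * a j ^ 3) * (X e ^ 1 * sg (e j))) + X e ^ 4 := by
      ext e
      rw [hsum]
      have h2 := sg_sq (e j)
      have h3 : sg (e j) ^ 3 = sg (e j) := by rw [pow_succ, h2, one_mul]
      have h4 : sg (e j) ^ 4 = 1 := by
        have : sg (e j) ^ 4 = (sg (e j) ^ 2) ^ 2 := by ring
        rw [this, h2, one_pow]
      linear_combination (a j ^ 4) * h4 + (4 * a j ^ 3 * X e) * h3 + (6 * a j ^ 2 * X e ^ 2) * h2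
    rw [this, avg_add, avg_add, avg_add, avg_add, avg_const, avg_mul_left, avg_mul_left,
      avg_mul_left, hodd, hodd, ih2, Finset.sum_insert hj]
    have hS : 0 ≤ ∑ i ∈ s, a i ^ 2 := Finset.sum_nonneg fun i _ => sq_nonneg _
    nlinarith [sq_nonneg (a j ^ 2), sq_nonneg (a j), mul_nonneg (sq_nonneg (a j)) hS]

lemma avg_pow_four (a : ι → ℝ) :
    avg (fun e => (∑ i, sg (e i) * a i) ^ 4) ≤ 3 * (∑ i, a i ^ 2) ^ 2 :=
  (avg_pow_four_aux a Finset.univ).2

end Avg

end Pool.Agent.Helper95
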