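import Mathlib
import Pool.Agent.Helper95.Rad

/-!
Truncated Kalton-Peck maps with small slope: zero-linearity and basic estimates.
-/

open Finset

namespace Pool.Agent.Helper95

lemma mul_abs_log_le {v : ℝ} (hv : 0 < v) : v * |Real.log v| ≤ 1 + v ^ 2 := by
  rcases le_total 0 (Real.log v) with h | h
  · rw [abs_of_nonneg h]
    have := Real.log_le_sub_one_of_pos hv
    nlinarith
  · rw [abs_of_nonpos h]
    have h1 := Real.log_le_sub_one_of_pos (inv_pos.mpr hv)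
    rw [Real.log_inv] at h1
    have h2 : v * (v⁻¹ - 1) = 1 - v := by field_simp
    nlinarith [mul_le_mul_of_nonneg_left h1 hv.le, sq_nonneg v]

lemma abs_min_sub_min_le (K a b : ℝ) : |min K a - min K b| ≤ |a - b| := by
  have := abs_min_sub_min_le_max K a K b
  simpa using this

lemma kp_term_bound (K ε a n m : ℝ) (hε : 0 ≤ ε) (han : |a| ≤ n) (hm : 0 < m) :
    |a * min K (ε * Real.log (n / |a|)) - a * min K (ε * Real.log (1 / m))|
      ≤ ε * (n * m + a ^ 2 / n / m) := by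
  rw [← mul_sub, abs_mul]
  by_cases hx : a = 0
  · subst hx
    have hn : 0 ≤ n := le_trans (abs_nonneg _) han
    simp only [abs_zero, zero_mul]; positivity
  · have hxp : 0 < |a| := abs_pos.mpr hx
    have hnp : 0 < n := lt_of_lt_of_le hxp han
    have h1 := abs_min_sub_min_le K (ε * Real.log (n / |a|)) (ε * Real.log (1 / m))
    have h2 : ε * Real.log (n / |a|) - ε * Real.log (1 / m)
        = - (ε * Real.log (|a| / (n * m))) := by
      rw [Real.log_div hnp.ne' hxp.ne', Real.log_div one_ne_zero hm.ne',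
        Real.log_div hxp.ne' (mul_pos hnp hm).ne', Real.log_mul hnp.ne' hm.ne',
        Real.log_one]
      ring
    rw [h2, abs_neg, abs_mul, abs_of_nonneg hε] at h1
    have hv : 0 < |a| / (n * m) := by positivity
    have h3 := mul_abs_log_le hv
    have h5 : |a| * |Real.log (|a| / (n * m))|
        = (n * m) * (|a| / (n * m) * |Real.log (|a| / (n * m))|) := by
      field_simp
    have h6 : (n * m) * (1 + (|a| / (n * m)) ^ 2) = n * m + a ^ 2 / n / m := by
      rw [← sq_abs a]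
      field_simp
    have h7 : (n * m) * (|a| / (n * m) * |Real.log (|a| / (n * m))|)
        ≤ (n * m) * (1 + (|a| / (n * m)) ^ 2) :=
      mul_le_mul_of_nonneg_left h3 (mul_pos hnp hm).le
    have h4 : |a| * |Real.log (|a| / (n * m))| ≤ n * m + a ^ 2 / n / m := by
      rw [h5, ← h6]; exact h7
    calc |a| * |min K (ε * Real.log (n / |a|)) - min K (ε * Real.log (1 / m))|
        ≤ |a| * (ε * |Real.log (|a| / (n * m))|) :=
          mul_le_mul_of_nonneg_left h1 hxp.le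
      _ = ε * (|a| * |Real.log (|a| / (n * m))|) := by ring
      _ ≤ _ := mul_le_mul_of_nonneg_left h4 hε

variable {ι : Type*} [Fintype ι]

/-- The truncated Kalton-Peck map with slope `ε` and height `K`. -/
noncomputable def kp (K ε : ℝ) (x : EuclideanSpace ℝ ι) : EuclideanSpace ℝ ι :=
  WithLp.toLp 2 (fun i => x i * min K (ε * Real.log (‖x‖ / |x i|)))

lemma kp_apply (K ε : ℝ) (x : EuclideanSpace ℝ ι) (i : ι) :
    kp K ε x i = x i * min K (ε * Real.log (‖x‖ / |x i|)) := rfl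

lemma eu_abs_le_norm (x : EuclideanSpace ℝ ι) (i : ι) : |x i| ≤ ‖x‖ := by
  have := PiLp.norm_apply_le x i
  simpa using this

lemma eu_norm_sq (x : EuclideanSpace ℝ ι) : ‖x‖ ^ 2 = ∑ i, x i ^ 2 := by
  rw [EuclideanSpace.norm_sq_eq]
  simp

lemma kp_smul (K ε c : ℝ) (x : EuclideanSpace ℝ ι) : kp K ε (c • x) = c • kp K ε x := by
  ext i
  simp only [kp_apply, PiLp.smul_apply, smul_eq_mul]
  by_cases hc : c = 0
  · simp [hc]
  · rw [norm_smul, abs_mul, Real.norm_eq_abs, mul_div_mul_left _ _ (abs_ne_zero.mpr hc)]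
    ring

lemma kp_zero (K ε : ℝ) : kp K ε (0 : EuclideanSpace ℝ ι) = 0 := by
  have := kp_smul K ε 0 (0 : EuclideanSpace ℝ ι)
  simpa using this

lemma kp_coord_bound {κ : Type*} (K ε : ℝ) (hε : 0 ≤ ε) (s : Finset κ)
    (x : κ → EuclideanSpace ℝ ι) (i : ι) (h : ∑ k ∈ s, x k i = 0) :
    (∑ k ∈ s, kp K ε (x k) i) ^ 2
      ≤ 4 * ε ^ 2 * (∑ k ∈ s, ‖x k‖) * (∑ k ∈ s, x k i ^ 2 / ‖x k‖) := by
  set S := ∑ k ∈ s, ‖x k‖ with hS
  set Q := ∑ k ∈ s, x k i ^ 2 / ‖x k‖ with hQ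
  have hS0 : 0 ≤ S := Finset.sum_nonneg fun k _ => norm_nonneg _
  have hQterm : ∀ k ∈ s, 0 ≤ x k i ^ 2 / ‖x k‖ := fun k _ => by positivity
  have hQ0 : 0 ≤ Q := Finset.sum_nonneg hQterm
  rcases hQ0.eq_or_lt with hQz | hQpos
  · -- all coordinates vanish
    have hz : ∀ k ∈ s, x k i = 0 := by
      intro k hk
      have h1 := (Finset.sum_eq_zero_iff_of_nonneg hQterm).mp hQz.symm k hk
      rcases div_eq_zero_iff.mp h1 with h2 | h2
      · exact pow_eq_zero_iff (two_ne_zero) |>.mp h2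
      · have : x k = 0 := norm_eq_zero.mp h2
        simp [this]
    have : ∑ k ∈ s, kp K ε (x k) i = 0 := by
      apply Finset.sum_eq_zero
      intro k hk
      rw [kp_apply, hz k hk]; simp
    rw [this]
    have : 0 ≤ 4 * ε ^ 2 * S * Q := by positivity
    simpa using this
  · have hSpos : 0 < S := by
      rcases hS0.eq_or_lt with h0 | h0
      · exfalso
        have hz : ∀ k ∈ s, ‖x k‖ = 0 :=
          (Finset.sum_eq_zero_iff_of_nonneg (fun k _ => norm_nonneg _)).mp h0.symm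
        have : Q = 0 := by
          apply Finset.sum_eq_zero
          intro k hk
          rw [hz k hk]; simp
        linarith
      · exact h0
    set m := Real.sqrt (Q / S) with hm
    have hmpos : 0 < m := Real.sqrt_pos.mpr (by positivity)
    have hm2 : m ^ 2 = Q / S := Real.sq_sqrt (by positivity)
    have hterm : ∀ k ∈ s, |kp K ε (x k) i - x k i * min K (ε * Real.log (1 / m))|
        ≤ ε * (‖x k‖ * m + x k i ^ 2 / ‖x k‖ / m) := by
      intro k _
      rw [kp_apply]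
      exact kp_term_bound K ε (x k i) ‖x k‖ m hε (eu_abs_le_norm _ _) hmpos
    have hsum : ∑ k ∈ s, kp K ε (x k) i
        = ∑ k ∈ s, (kp K ε (x k) i - x k i * min K (ε * Real.log (1 / m))) := by
      rw [Finset.sum_sub_distrib, ← Finset.sum_mul, h]; ring
    have hb : |∑ k ∈ s, kp K ε (x k) i| ≤ 2 * ε * (S * m) := by
      rw [hsum]
      calc |∑ k ∈ s, (kp K ε (x k) i - x k i * min K (ε * Real.log (1 / m)))|
          ≤ ∑ k ∈ s, |kp K ε (x k) i - x k i * min K (ε * Real.log (1 / m))| :=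
            Finset.abs_sum_le_sum_abs _ _
        _ ≤ ∑ k ∈ s, ε * (‖x k‖ * m + x k i ^ 2 / ‖x k‖ / m) := Finset.sum_le_sum hterm
        _ = ε * (S * m + Q / m) := by
            rw [← Finset.mul_sum, Finset.sum_add_distrib, ← Finset.sum_mul, ← Finset.sum_div]
        _ = 2 * ε * (S * m) := by
            have : Q / m = S * m := by
              rw [div_eq_iff hmpos.ne']
              have : Q = S * m ^ 2 := by rw [hm2]; field_simp
              rw [this]; ring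
            rw [this]; ring
    calc (∑ k ∈ s, kp K ε (x k) i) ^ 2 = |∑ k ∈ s, kp K ε (x k) i| ^ 2 := (sq_abs _).symm
      _ ≤ (2 * ε * (S * m)) ^ 2 := by
          apply pow_le_pow_left₀ (abs_nonneg _) hb
      _ = 4 * ε ^ 2 * S * (S * m ^ 2) := by ring
      _ = 4 * ε ^ 2 * S * Q := by
          rw [hm2]; congr 1; field_simp

/-- zero-linearity of the Kalton-Peck map. -/
lemma kp_zero_lin {κ : Type*} (K ε : ℝ) (hε : 0 ≤ ε) (s : Finset κ)
    (x : κ → EuclideanSpace ℝ ι) (h : ∑ k ∈ s, x k = 0) :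
    ‖∑ k ∈ s, kp K ε (x k)‖ ≤ 2 * ε * ∑ k ∈ s, ‖x k‖ := by
  set S := ∑ k ∈ s, ‖x k‖ with hS
  have hS0 : 0 ≤ S := Finset.sum_nonneg fun k _ => norm_nonneg _
  have hcoord : ∀ i, ∑ k ∈ s, x k i = 0 := by
    intro i
    have := congrArg (fun v : EuclideanSpace ℝ ι => v i) h
    simpa using this
  apply le_of_sq_le_sq _ (by positivity)
  rw [eu_norm_sq]
  have h1 : ∀ i, (∑ k ∈ s, kp K ε (x k)) i = ∑ k ∈ s, kp K ε (x k) i := by
    intro i; simp
  simp only [h1]
  calc ∑ i, (∑ k ∈ s, kp K ε (x k) i) ^ 2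
      ≤ ∑ i, 4 * ε ^ 2 * S * (∑ k ∈ s, x k i ^ 2 / ‖x k‖) :=
        Finset.sum_le_sum fun i _ => kp_coord_bound K ε hε s x i (hcoord i)
    _ = 4 * ε ^ 2 * S * ∑ k ∈ s, ∑ i, x k i ^ 2 / ‖x k‖ := by
        rw [← Finset.mul_sum, Finset.sum_comm]
    _ = 4 * ε ^ 2 * S * S := by
        congr 1
        apply Finset.sum_congr rfl
        intro k _
        rw [← Finset.sum_div, ← eu_norm_sq]
        by_cases h0 : ‖x k‖ = 0
        · rw [h0]; simp
        · field_simp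
    _ = (2 * ε * S) ^ 2 := by ring

/-- peaky part: `x - kp x / K`. -/
noncomputable def pk (K ε : ℝ) (x : EuclideanSpace ℝ ι) : EuclideanSpace ℝ ι :=
  x - (1 / K) • kp K ε x

lemma kp_eq (K ε : ℝ) (hK : 0 < K) (x : EuclideanSpace ℝ ι) :
    kp K ε x = K • x - K • pk K ε x := by
  unfold pk
  rw [smul_sub, smul_smul, mul_one_div_cancel hK.ne', one_smul]
  abel

lemma pk_smul (K ε c : ℝ) (x : EuclideanSpace ℝ ι) : pk K ε (c • x) = c • pk K ε x := by
  unfold pk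
  rw [kp_smul, smul_sub, smul_comm]

lemma factor_bounds (K ε a n : ℝ) (hK : 0 < K) (hε : 0 ≤ ε) (han : |a| ≤ n) (ha : a ≠ 0) :
    0 ≤ min K (ε * Real.log (n / |a|)) ∧ min K (ε * Real.log (n / |a|)) ≤ K := by
  refine ⟨le_min hK.le ?_, min_le_left _ _⟩
  apply mul_nonneg hε
  apply Real.log_nonneg
  rw [le_div_iff₀ (abs_pos.mpr ha)]
  simpa using han

lemma pk_apply (K ε : ℝ) (x : EuclideanSpace ℝ ι) (i : ι) :
    pk K ε x i = x i * (1 - min K (ε * Real.log (‖x‖ / |x i|)) / K) := by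
  simp only [pk, PiLp.sub_apply, PiLp.smul_apply, smul_eq_mul, kp_apply]
  ring

lemma abs_pk_le (K ε : ℝ) (hK : 0 < K) (hε : 0 ≤ ε) (x : EuclideanSpace ℝ ι) (i : ι) :
    |pk K ε x i| ≤ |x i| := by
  rw [pk_apply]
  by_cases h : x i = 0
  · rw [h]; simp
  · obtain ⟨h1, h2⟩ := factor_bounds K ε (x i) ‖x‖ hK hε (eu_abs_le_norm x i) h
    rw [abs_mul]
    have h3 : |1 - min K (ε * Real.log (‖x‖ / |x i|)) / K| ≤ 1 := by
      have h4 : min K (ε * Real.log (‖x‖ / |x i|)) / K ≤ 1 := (div_le_one hK).mpr h2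
      have h5 : 0 ≤ min K (ε * Real.log (‖x‖ / |x i|)) / K := by positivity
      rw [abs_le]; constructor <;> linarith
    calc |x i| * |1 - min K (ε * Real.log (‖x‖ / |x i|)) / K| ≤ |x i| * 1 :=
          mul_le_mul_of_nonneg_left h3 (abs_nonneg _)
      _ = |x i| := mul_one _

lemma pk_eq_zero (K ε : ℝ) (hK : 0 < K) (hε : 0 < ε) (x : EuclideanSpace ℝ ι) (i : ι)
    (h : |x i| ≤ Real.exp (-(K / ε)) * ‖x‖) : pk K ε x i = 0 := by
  rw [pk_apply]
  by_cases hx : x i = 0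
  · rw [hx]; simp
  · have hxp : 0 < |x i| := abs_pos.mpr hx
    have hn : 0 < ‖x‖ := lt_of_lt_of_le hxp (eu_abs_le_norm x i)
    have h1 : K / ε ≤ Real.log (‖x‖ / |x i|) := by
      rw [Real.le_log_iff_exp_le (by positivity), le_div_iff₀ hxp]
      calc Real.exp (K / ε) * |x i| ≤ Real.exp (K / ε) * (Real.exp (-(K / ε)) * ‖x‖) :=
            mul_le_mul_of_nonneg_left h (Real.exp_pos _).le
        _ = ‖x‖ := by
            rw [← mul_assoc, ← Real.exp_add]; simp
    have h2 : K ≤ ε * Real.log (‖x‖ / |x i|) := by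
      calc K = ε * (K / ε) := by field_simp
        _ ≤ _ := mul_le_mul_of_nonneg_left h1 hε.le
    rw [min_eq_left h2, div_self hK.ne']; simp

lemma norm_pk_le (K ε : ℝ) (hK : 0 < K) (hε : 0 ≤ ε) (x : EuclideanSpace ℝ ι) :
    ‖pk K ε x‖ ≤ ‖x‖ := by
  apply le_of_sq_le_sq _ (norm_nonneg _)
  rw [eu_norm_sq, eu_norm_sq]
  apply Finset.sum_le_sum
  intro i _
  exact sq_le_sq.mpr (abs_pk_le K ε hK hε x i)

lemma norm_kp_le (K ε : ℝ) (hK : 0 < K) (hε : 0 ≤ ε) (x : EuclideanSpace ℝ ι) :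
    ‖kp K ε x‖ ≤ K * ‖x‖ := by
  apply le_of_sq_le_sq _ (by positivity)
  rw [mul_pow, eu_norm_sq, eu_norm_sq, Finset.mul_sum]
  apply Finset.sum_le_sum
  intro i _
  rw [kp_apply, mul_pow, mul_comm]
  by_cases h : x i = 0
  · rw [h]; simp
  · obtain ⟨h1, h2⟩ := factor_bounds K ε (x i) ‖x‖ hK hε (eu_abs_le_norm x i) h
    apply mul_le_mul_of_nonneg_right _ (sq_nonneg _)
    exact pow_le_pow_left₀ h1 h2 2

/-- pointwise bound for the peaky part through fourth powers. -/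
lemma norm_pk_sq_le (K ε η : ℝ) (hK : 0 < K) (hε : 0 < ε) (hη : 0 < η)
    (x : EuclideanSpace ℝ ι) :
    ‖pk K ε x‖ ^ 2 ≤ η ^ 2 + (1 / (Real.exp (-(K / ε)) * η) ^ 2) * ∑ j, x j ^ 4 := by
  set θ := Real.exp (-(K / ε)) with hθ
  have hθp : 0 < θ := Real.exp_pos _
  have hsum : 0 ≤ ∑ j, x j ^ 4 := Finset.sum_nonneg fun j _ => by positivity
  rcases le_or_gt ‖x‖ η with h | h
  · have h1 : ‖pk K ε x‖ ^ 2 ≤ η ^ 2 :=
      pow_le_pow_left₀ (norm_nonneg _) ((norm_pk_le K ε hK hε.le x).trans h) 2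
    have h2 : 0 ≤ (1 / (θ * η) ^ 2) * ∑ j, x j ^ 4 := by positivity
    linarith
  · have h1 : ‖pk K ε x‖ ^ 2 ≤ (1 / (θ * η) ^ 2) * ∑ j, x j ^ 4 := by
      rw [eu_norm_sq, Finset.mul_sum]
      apply Finset.sum_le_sum
      intro j _
      rcases le_or_gt |x j| (θ * ‖x‖) with hj | hj
      · rw [pk_eq_zero K ε hK hε x j hj]
        have : 0 ≤ (1 / (θ * η) ^ 2) * x j ^ 4 := by positivity
        simpa using this
      · have h3 : θ * η ≤ |x j| := by
          have : θ * η < θ * ‖x‖ := mul_lt_mul_of_pos_left h hθp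
          linarith
        have h4 : (pk K ε x j) ^ 2 ≤ x j ^ 2 := sq_le_sq.mpr (abs_pk_le K ε hK hε.le x j)
        have h5 : (θ * η) ^ 2 ≤ x j ^ 2 := by
          rw [← sq_abs (x j)]
          exact pow_le_pow_left₀ (by positivity) h3 2
        have h6 : x j ^ 2 ≤ (1 / (θ * η) ^ 2) * x j ^ 4 := by
          have h7 : 0 < (θ * η) ^ 2 := by positivity
          have h8 : x j ^ 2 * (θ * η) ^ 2 ≤ x j ^ 2 * x j ^ 2 :=
            mul_le_mul_of_nonneg_left h5 (sq_nonneg _)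
          rw [one_div, inv_mul_eq_div, le_div_iff₀ h7]
          calc x j ^ 2 * (θ * η) ^ 2 ≤ x j ^ 2 * x j ^ 2 := h8
            _ = x j ^ 4 := by ring
        exact h4.trans h6
    have h2 : 0 ≤ η ^ 2 := sq_nonneg _
    linarith

/-- the normalized random sign vector -/
noncomputable def rv {p : ℕ} (e : Fin p → Bool) : EuclideanSpace ℝ (Fin p) :=
  (1 / √(p : ℝ)) • WithLp.toLp 2 (fun i => sg (e i))

lemma rv_eq_sum {p : ℕ} (e : Fin p → Bool) :
    rv e = (1 / √(p : ℝ)) • ∑ i, sg (e i) • EuclideanSpace.single i (1 : ℝ) := by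
  unfold rv
  congr 1
  ext j
  simp [Finset.sum_apply, Pi.single_apply]

lemma rv_norm {p : ℕ} (hp : 0 < p) (e : Fin p → Bool) : ‖rv e‖ = 1 := by
  have h : ‖rv e‖ ^ 2 = 1 := by
    rw [eu_norm_sq]
    have h1 : ∀ i, (rv e) i ^ 2 = 1 / p := by
      intro i
      simp only [rv, PiLp.smul_apply, smul_eq_mul, mul_pow, sg_sq, mul_one, div_pow, one_pow]
      rw [Real.sq_sqrt (Nat.cast_nonneg p)]
    have hp' : (p : ℝ) ≠ 0 := by positivity
    simp [h1, hp']
  have h0 : 0 ≤ ‖rv e‖ := norm_nonneg _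
  nlinarith

/-- second moment for linear images of the random sign vector -/
lemma avg_lin_rv {p : ℕ} {H : Type*} [NormedAddCommGroup H] [InnerProductSpace ℝ H]
    (L : EuclideanSpace ℝ (Fin p) →ₗ[ℝ] H) :
    avg (fun e : Fin p → Bool => ‖L (rv e)‖ ^ 2)
      = (1 / p) * ∑ i, ‖L (EuclideanSpace.single i (1 : ℝ))‖ ^ 2 := by
  have h1 : ∀ e : Fin p → Bool, ‖L (rv e)‖ ^ 2
      = (1 / p) * ‖∑ i, sg (e i) • L (EuclideanSpace.single i (1 : ℝ))‖ ^ 2 := by
    intro e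
    rw [rv_eq_sum, map_smul, map_sum, norm_smul, mul_pow]
    simp only [map_smul]
    congr 1
    rw [Real.norm_eq_abs, sq_abs, div_pow, one_pow, Real.sq_sqrt (Nat.cast_nonneg p)]
  simp only [h1]
  rw [avg_mul_left, avg_norm_sq]

lemma lin_coord {p : ℕ} (L : EuclideanSpace ℝ (Fin p) →ₗ[ℝ] EuclideanSpace ℝ ι)
    (x : EuclideanSpace ℝ (Fin p)) (j : ι) :
    (L x) j = ∑ i, x i * (L (EuclideanSpace.single i (1 : ℝ))) j := by
  have h : x = ∑ i, x i • EuclideanSpace.single i (1 : ℝ) := by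
    ext j; simp [Finset.sum_apply, Pi.single_apply]
  conv_lhs => rw [h]
  rw [map_sum]
  simp [Finset.sum_apply]

lemma row_bound {p : ℕ} (R : ℝ) (hR : 0 ≤ R)
    (L : EuclideanSpace ℝ (Fin p) →ₗ[ℝ] EuclideanSpace ℝ ι)
    (hL : ∀ x, ‖L x‖ ≤ R * ‖x‖) (j : ι) :
    ∑ i, (L (EuclideanSpace.single i (1 : ℝ)) j) ^ 2 ≤ R ^ 2 := by
  set ρ : EuclideanSpace ℝ (Fin p) :=
    WithLp.toLp 2 (fun i => L (EuclideanSpace.single i (1 : ℝ)) j) with hρ
  have h1 : ‖ρ‖ ^ 2 = ∑ i, (L (EuclideanSpace.single i (1 : ℝ)) j) ^ 2 := by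
    rw [eu_norm_sq]
  have h2 : (L ρ) j = ‖ρ‖ ^ 2 := by
    rw [lin_coord, h1]
    apply Finset.sum_congr rfl
    intro i _
    simp only [hρ]; ring
  have h3 : ‖ρ‖ ^ 2 ≤ R * ‖ρ‖ := by
    calc ‖ρ‖ ^ 2 = (L ρ) j := h2.symm
      _ ≤ |(L ρ) j| := le_abs_self _
      _ ≤ ‖L ρ‖ := eu_abs_le_norm _ _
      _ ≤ R * ‖ρ‖ := hL ρ
  have h4 : ‖ρ‖ ≤ R := by
    rcases (norm_nonneg ρ).eq_or_lt with h | h
    · rw [← h]; exact hR
    · nlinarith
  rw [← h1]
  exact pow_le_pow_left₀ (norm_nonneg _) h4 2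

/-- The spread lemma: the peaky part of a bounded linear image of a random sign vector is small
in the second moment. -/
lemma avg_pk_le {p : ℕ} (hp : 0 < p) (K ε η R : ℝ) (hK : 0 < K) (hε : 0 < ε) (hη : 0 < η)
    (hR : 0 ≤ R) (L : EuclideanSpace ℝ (Fin p) →ₗ[ℝ] EuclideanSpace ℝ ι)
    (hL : ∀ x, ‖L x‖ ≤ R * ‖x‖) :
    avg (fun e : Fin p → Bool => ‖pk K ε (L (rv e))‖ ^ 2)
      ≤ η ^ 2 + (1 / (Real.exp (-(K / ε)) * η) ^ 2) * (3 * R ^ 4 / p) := by
  have hp' : (0 : ℝ) < p := by exact_mod_cast hp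
  have h1 := avg_mono (fun e : Fin p → Bool => norm_pk_sq_le K ε η hK hε hη (L (rv e)))
  refine h1.trans ?_
  rw [avg_add, avg_const, avg_mul_left, avg_sum]
  have hcoef : 0 ≤ (1 / (Real.exp (-(K / ε)) * η) ^ 2) := by positivity
  have h2 : ∀ j, avg (fun e : Fin p → Bool => (L (rv e)) j ^ 4)
      ≤ (3 * R ^ 2 / (p : ℝ) ^ 2) * ∑ i, (L (EuclideanSpace.single i (1 : ℝ)) j) ^ 2 := by
    intro j
    have h3 : ∀ e : Fin p → Bool, (L (rv e)) j ^ 4
        = (1 / (p : ℝ) ^ 2) * (∑ i, sg (e i) * (L (EuclideanSpace.single i (1 : ℝ)) j)) ^ 4 := by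
      intro e
      have h4 : (L (rv e)) j = (1 / √(p : ℝ)) * ∑ i, sg (e i) * (L (EuclideanSpace.single i (1 : ℝ)) j) := by
        rw [lin_coord, Finset.mul_sum]
        apply Finset.sum_congr rfl
        intro i _
        simp only [rv, PiLp.smul_apply, smul_eq_mul]; ring
      rw [h4, mul_pow]
      congr 1
      rw [div_pow, one_pow]
      have : √(p : ℝ) ^ 4 = (√(p : ℝ) ^ 2) ^ 2 := by ring
      rw [this, Real.sq_sqrt hp'.le]
    simp only [h3]
    rw [avg_mul_left]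
    have h5 := avg_pow_four (fun i => (L (EuclideanSpace.single i (1 : ℝ)) j))
    have h6 := row_bound R hR L hL j
    set r := ∑ i, (L (EuclideanSpace.single i (1 : ℝ)) j) ^ 2 with hr
    have hr0 : 0 ≤ r := Finset.sum_nonneg fun i _ => sq_nonneg _
    have h7 : r ^ 2 ≤ R ^ 2 * r := by nlinarith
    calc (1 / (p : ℝ) ^ 2) * avg (fun e : Fin p → Bool => (∑ i, sg (e i) * (L (EuclideanSpace.single i (1 : ℝ)) j)) ^ 4)
        ≤ (1 / (p : ℝ) ^ 2) * (3 * r ^ 2) := mul_le_mul_of_nonneg_left h5 (by positivity)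
      _ ≤ (1 / (p : ℝ) ^ 2) * (3 * (R ^ 2 * r)) := by
          apply mul_le_mul_of_nonneg_left _ (by positivity)
          linarith
      _ = (3 * R ^ 2 / (p : ℝ) ^ 2) * r := by ring
  have h8 : ∑ j, avg (fun e : Fin p → Bool => (L (rv e)) j ^ 4) ≤ 3 * R ^ 4 / p := by
    calc ∑ j, avg (fun e : Fin p → Bool => (L (rv e)) j ^ 4)
        ≤ ∑ j, (3 * R ^ 2 / (p : ℝ) ^ 2) * ∑ i, (L (EuclideanSpace.single i (1 : ℝ)) j) ^ 2 :=
          Finset.sum_le_sum fun j _ => h2 j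
      _ = (3 * R ^ 2 / (p : ℝ) ^ 2) * ∑ i : Fin p, ‖L (EuclideanSpace.single i (1 : ℝ))‖ ^ 2 := by
          rw [← Finset.mul_sum, Finset.sum_comm]
          simp only [eu_norm_sq]
      _ ≤ (3 * R ^ 2 / (p : ℝ) ^ 2) * ∑ i : Fin p, R ^ 2 := by
          apply mul_le_mul_of_nonneg_left _ (by positivity)
          apply Finset.sum_le_sum
          intro i _
          have := hL (EuclideanSpace.single i (1 : ℝ))
          rw [PiLp.norm_single, norm_one, mul_one] at this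
          exact pow_le_pow_left₀ (norm_nonneg _) this 2
      _ = 3 * R ^ 4 / p := by
          rw [Finset.sum_const, Finset.card_univ, Fintype.card_fin, nsmul_eq_mul]
          field_simp
  have h9 := mul_le_mul_of_nonneg_left h8 hcoef
  linarith

end Pool.Agent.Helper95
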