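import Mathlib

/-!
Matrix part of the twisted Hilbert space argument: a matrix which almost intertwines a rigid sign
matrix with column sparse matrices has almost nonnegative trace of its square.
-/

open Finset

namespace Pool.Agent.Helper95

/-- bilinear bound for a sign matrix -/
def BilBound (p : ℕ) (ω : Fin p → Fin p → ℝ) : Prop :=
  ∀ u v : Fin p → ℝ, (∑ i, ∑ j, u i * ω i j * v j) ^ 2
    ≤ 144 * p * (∑ i, u i ^ 2) * (∑ j, v j ^ 2)

/-- rigidity of a sign matrix with respect to column sparse triples -/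
def Rigid (p s L : ℕ) (M κ : ℝ) (ω : Fin p → Fin p → ℝ) : Prop :=
  ∀ S₁ S₂ S₃ : Fin p → Fin p → ℝ,
    (∀ i, (Finset.univ.filter (fun j => S₁ j i ≠ 0)).card ≤ s) →
    (∀ i, (Finset.univ.filter (fun j => S₂ j i ≠ 0)).card ≤ s) →
    (∀ i, (Finset.univ.filter (fun j => S₃ j i ≠ 0)).card ≤ s) →
    (∀ j i, |S₁ j i| ≤ M) → (∀ j i, |S₂ j i| ≤ M) → (∀ j i, |S₃ j i| ≤ M) →
    ∑ j ∈ Finset.univ.filter (fun j => (Finset.univ.filter (fun i => S₁ j i ≠ 0)).card ≤ L),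
        ∑ i ∈ Finset.univ.erase j, (S₁ j i) ^ 2
      ≤ 200 * (1 / p) * ∑ j, ∑ a,
          (∑ i, S₁ j i * ω i a - √(p : ℝ) * S₂ j a - ∑ b, ω j b * S₃ b a) ^ 2 + κ * p

lemma cs_double {α β : Type*} (s : Finset α) (t : α → Finset β) (f g : α → β → ℝ) (A B : ℝ)
    (hA0 : 0 ≤ A) (hB0 : 0 ≤ B)
    (hA : ∑ j ∈ s, ∑ i ∈ t j, f j i ^ 2 ≤ A ^ 2) (hB : ∑ j ∈ s, ∑ i ∈ t j, g j i ^ 2 ≤ B ^ 2) :
    |∑ j ∈ s, ∑ i ∈ t j, f j i * g j i| ≤ A * B := by
  rw [Finset.sum_sigma'] at hA hB ⊢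
  apply abs_le_of_sq_le_sq _ (by positivity)
  calc (∑ x ∈ s.sigma t, f x.fst x.snd * g x.fst x.snd) ^ 2
      ≤ (∑ x ∈ s.sigma t, f x.fst x.snd ^ 2) * (∑ x ∈ s.sigma t, g x.fst x.snd ^ 2) :=
        Finset.sum_mul_sq_le_sq_mul_sq _ _ _
    _ ≤ A ^ 2 * B ^ 2 := by
        apply mul_le_mul hA hB _ (sq_nonneg _)
        exact Finset.sum_nonneg fun _ _ => sq_nonneg _
    _ = (A * B) ^ 2 := by ring

lemma bil_row {p : ℕ} {ω : Fin p → Fin p → ℝ} (hω : BilBound p ω) (u : Fin p → ℝ) :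
    ∑ a, (∑ i, u i * ω i a) ^ 2 ≤ 144 * p * ∑ i, u i ^ 2 := by
  set v : Fin p → ℝ := fun a => ∑ i, u i * ω i a with hv
  have h := hω u v
  have h1 : ∑ i, ∑ j, u i * ω i j * v j = ∑ a, v a ^ 2 := by
    rw [Finset.sum_comm]
    apply Finset.sum_congr rfl
    intro a _
    rw [← Finset.sum_mul, pow_two]
  rw [h1] at h
  have h0 : 0 ≤ ∑ a, v a ^ 2 := Finset.sum_nonneg fun _ _ => sq_nonneg _
  have h2 : 0 ≤ 144 * (p : ℝ) * ∑ i, u i ^ 2 := by positivity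
  rcases h0.eq_or_lt with h3 | h3
  · rw [← h3]; exact h2
  · by_contra hcon
    push Not at hcon
    nlinarith

/-- vector form of the bilinear bound -/
lemma bil_col {p : ℕ} {ω : Fin p → Fin p → ℝ} (hω : BilBound p ω) (v : Fin p → ℝ) :
    ∑ j, (∑ a, ω j a * v a) ^ 2 ≤ 144 * p * ∑ a, v a ^ 2 := by
  set u : Fin p → ℝ := fun j => ∑ a, ω j a * v a with hu
  have h := hω u v
  have h1 : ∑ i, ∑ j, u i * ω i j * v j = ∑ j, u j ^ 2 := by
    apply Finset.sum_congr rfl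
    intro i _
    rw [pow_two]
    conv_rhs => rw [hu]
    simp only [Finset.mul_sum]
    apply Finset.sum_congr rfl
    intro j _
    ring
  rw [h1] at h
  have h0 : 0 ≤ ∑ a, u a ^ 2 := Finset.sum_nonneg fun _ _ => sq_nonneg _
  have h2 : 0 ≤ 144 * (p : ℝ) * ∑ i, v i ^ 2 := by positivity
  rcases h0.eq_or_lt with h3 | h3
  · rw [← h3]; exact h2
  · by_contra hcon
    push Not at hcon
    nlinarith

lemma heavy_count {p s L : ℕ} (S : Fin p → Fin p → ℝ)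
    (hcol : ∀ i, (Finset.univ.filter (fun j => S j i ≠ 0)).card ≤ s) :
    ((Finset.univ.filter (fun j => ¬ (Finset.univ.filter (fun i => S j i ≠ 0)).card ≤ L)).card : ℝ)
      * (L + 1) ≤ s * p := by
  classical
  set H := Finset.univ.filter (fun j => ¬ (Finset.univ.filter (fun i => S j i ≠ 0)).card ≤ L)
  have h1 : H.card * (L + 1) ≤ ∑ j ∈ H, (Finset.univ.filter (fun i => S j i ≠ 0)).card := by
    rw [Finset.card_eq_sum_ones, Finset.sum_mul, one_mul]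
    apply Finset.sum_le_sum
    intro j hj
    have := (Finset.mem_filter.mp hj).2
    omega
  have h2 : ∑ j ∈ H, (Finset.univ.filter (fun i => S j i ≠ 0)).card
      ≤ ∑ j, (Finset.univ.filter (fun i => S j i ≠ 0)).card :=
    Finset.sum_le_sum_of_subset (Finset.subset_univ _)
  have h3 : ∑ j, (Finset.univ.filter (fun i => S j i ≠ 0)).card
      = ∑ i, (Finset.univ.filter (fun j => S j i ≠ 0)).card := by
    simp only [Finset.card_filter]
    rw [Finset.sum_comm]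
  have h4 : ∑ i, (Finset.univ.filter (fun j => S j i ≠ 0)).card ≤ s * p := by
    calc ∑ i, (Finset.univ.filter (fun j => S j i ≠ 0)).card ≤ ∑ i : Fin p, s :=
          Finset.sum_le_sum fun i _ => hcol i
      _ = s * p := by simp [mul_comm]
  have h5 : H.card * (L + 1) ≤ s * p := by
    calc _ ≤ _ := h1
      _ ≤ _ := h2
      _ = _ := h3
      _ ≤ _ := h4
  exact_mod_cast h5

theorem trace_sq_lower {p s L : ℕ} {M M' κ δ : ℝ} (hp : 0 < p) (hM : 0 ≤ M) (hδ : 0 ≤ δ)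
    (hδ1 : δ ≤ 1) {ω : Fin p → Fin p → ℝ} (hω : BilBound p ω) (hR : Rigid p s L M' κ ω)
    (hκ : κ ≤ M ^ 2 * δ ^ 2) (hsL : (s : ℝ) ≤ δ ^ 2 * (L + 1))
    (Z S₁ S₂ S₃ : Fin p → Fin p → ℝ)
    (h1 : ∑ j, ∑ i, (Z j i - S₁ j i) ^ 2 ≤ 444 * M ^ 2 * δ ^ 2 * p)
    (h2 : ∑ j, ∑ a, ((∑ i, Z j i * ω i a) / √(p : ℝ) - S₂ j a
      - (∑ b, ω j b * S₃ b a) / √(p : ℝ)) ^ 2 ≤ 8 * M ^ 2 * δ ^ 2 * p)
    (h3 : ∀ i, ∑ j, S₁ j i ^ 2 ≤ M ^ 2)
    (hc1 : ∀ i, (Finset.univ.filter (fun j => S₁ j i ≠ 0)).card ≤ s)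
    (hc2 : ∀ i, (Finset.univ.filter (fun j => S₂ j i ≠ 0)).card ≤ s)
    (hc3 : ∀ i, (Finset.univ.filter (fun j => S₃ j i ≠ 0)).card ≤ s)
    (hb1 : ∀ j i, |S₁ j i| ≤ M') (hb2 : ∀ j i, |S₂ j i| ≤ M') (hb3 : ∀ j i, |S₃ j i| ≤ M') :
    -(5600 * M ^ 2 * δ * p) ≤ ∑ i, ∑ j, Z i j * Z j i := by
  classical
  have hp' : (0 : ℝ) < p := by exact_mod_cast hp
  have hsq : √(p : ℝ) ^ 2 = p := Real.sq_sqrt hp'.le
  have hsqpos : 0 < √(p : ℝ) := Real.sqrt_pos.mpr hp'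
  set Δ : Fin p → Fin p → ℝ := fun j i => Z j i - S₁ j i with hΔ
  -- Step 1
  have st1 : ∑ j, ∑ a, (∑ i, S₁ j i * ω i a - √(p : ℝ) * S₂ j a - ∑ b, ω j b * S₃ b a) ^ 2
      ≤ 127888 * M ^ 2 * δ ^ 2 * p ^ 2 := by
    have hterm : ∀ j a, (∑ i, S₁ j i * ω i a - √(p : ℝ) * S₂ j a - ∑ b, ω j b * S₃ b a) ^ 2
        ≤ 2 * p * ((∑ i, Z j i * ω i a) / √(p : ℝ) - S₂ j a
            - (∑ b, ω j b * S₃ b a) / √(p : ℝ)) ^ 2 + 2 * (∑ i, Δ j i * ω i a) ^ 2 := by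
      intro j a
      have e1 : ∑ i, S₁ j i * ω i a = ∑ i, Z j i * ω i a - ∑ i, Δ j i * ω i a := by
        rw [← Finset.sum_sub_distrib]
        apply Finset.sum_congr rfl
        intro i _
        simp only [hΔ]; ring
      have e2 : ∑ i, S₁ j i * ω i a - √(p : ℝ) * S₂ j a - ∑ b, ω j b * S₃ b a
          = √(p : ℝ) * ((∑ i, Z j i * ω i a) / √(p : ℝ) - S₂ j a
            - (∑ b, ω j b * S₃ b a) / √(p : ℝ)) - ∑ i, Δ j i * ω i a := by
        rw [e1]; field_simp; ring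
      rw [e2]
      set X := (∑ i, Z j i * ω i a) / √(p : ℝ) - S₂ j a - (∑ b, ω j b * S₃ b a) / √(p : ℝ)
      set Y := ∑ i, Δ j i * ω i a
      have : 2 * (p : ℝ) * X ^ 2 = 2 * (√(p : ℝ) * X) ^ 2 := by rw [mul_pow, hsq]; ring
      rw [this]
      nlinarith [sq_nonneg (√(p : ℝ) * X + Y)]
    calc ∑ j, ∑ a, (∑ i, S₁ j i * ω i a - √(p : ℝ) * S₂ j a - ∑ b, ω j b * S₃ b a) ^ 2
        ≤ ∑ j, ∑ a, (2 * p * ((∑ i, Z j i * ω i a) / √(p : ℝ) - S₂ j a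
            - (∑ b, ω j b * S₃ b a) / √(p : ℝ)) ^ 2 + 2 * (∑ i, Δ j i * ω i a) ^ 2) :=
          Finset.sum_le_sum fun j _ => Finset.sum_le_sum fun a _ => hterm j a
      _ = 2 * p * (∑ j, ∑ a, ((∑ i, Z j i * ω i a) / √(p : ℝ) - S₂ j a
            - (∑ b, ω j b * S₃ b a) / √(p : ℝ)) ^ 2)
            + 2 * ∑ j, ∑ a, (∑ i, Δ j i * ω i a) ^ 2 := by
          simp only [Finset.sum_add_distrib, Finset.mul_sum]
      _ ≤ 2 * p * (8 * M ^ 2 * δ ^ 2 * p) + 2 * (144 * p * (444 * M ^ 2 * δ ^ 2 * p)) := by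
          have g1 : ∑ j, ∑ a, (∑ i, Δ j i * ω i a) ^ 2 ≤ 144 * p * (444 * M ^ 2 * δ ^ 2 * p) := by
            calc ∑ j, ∑ a, (∑ i, Δ j i * ω i a) ^ 2 ≤ ∑ j, 144 * p * ∑ i, Δ j i ^ 2 :=
                  Finset.sum_le_sum fun j _ => bil_row hω (Δ j)
              _ = 144 * p * ∑ j, ∑ i, Δ j i ^ 2 := by rw [Finset.mul_sum]
              _ ≤ _ := mul_le_mul_of_nonneg_left h1 (by positivity)
          have g2 := mul_le_mul_of_nonneg_left h2 (show (0 : ℝ) ≤ 2 * p by positivity)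
          linarith
      _ = 127888 * M ^ 2 * δ ^ 2 * p ^ 2 := by ring
  -- Step 2
  set Li := Finset.univ.filter (fun j => (Finset.univ.filter (fun i => S₁ j i ≠ 0)).card ≤ L)
    with hLi
  set He := Finset.univ.filter (fun j => ¬ (Finset.univ.filter (fun i => S₁ j i ≠ 0)).card ≤ L)
    with hHe
  have st2 : ∑ j ∈ Li, ∑ i ∈ Finset.univ.erase j, (S₁ j i) ^ 2
      ≤ (5058 * M * δ * √(p : ℝ)) ^ 2 := by
    have g := hR S₁ S₂ S₃ hc1 hc2 hc3 hb1 hb2 hb3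
    have g1 : 200 * (1 / (p : ℝ)) * ∑ j, ∑ a,
        (∑ i, S₁ j i * ω i a - √(p : ℝ) * S₂ j a - ∑ b, ω j b * S₃ b a) ^ 2
        ≤ 200 * (1 / (p : ℝ)) * (127888 * M ^ 2 * δ ^ 2 * p ^ 2) :=
      mul_le_mul_of_nonneg_left st1 (by positivity)
    have g2 : 200 * (1 / (p : ℝ)) * (127888 * M ^ 2 * δ ^ 2 * p ^ 2)
        = 25577600 * (M ^ 2 * δ ^ 2 * p) := by field_simp; ring
    have g3 : κ * p ≤ M ^ 2 * δ ^ 2 * p := mul_le_mul_of_nonneg_right hκ hp'.le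
    have g4 : (5058 * M * δ * √(p : ℝ)) ^ 2 = 25583364 * (M ^ 2 * δ ^ 2 * p) := by
      rw [mul_pow, hsq]; ring
    have g5 : 0 ≤ M ^ 2 * δ ^ 2 * p := by positivity
    rw [g4]
    linarith
  -- total mass
  have hcomm : ∀ F : Fin p → Fin p → ℝ, ∑ j, ∑ i, F j i = ∑ i, ∑ j, F j i := fun F =>
    Finset.sum_comm
  have tot : ∑ i, ∑ j, S₁ j i ^ 2 ≤ (M * √(p : ℝ)) ^ 2 := by
    calc ∑ i, ∑ j, S₁ j i ^ 2 ≤ ∑ i : Fin p, M ^ 2 := Finset.sum_le_sum fun i _ => h3 i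
      _ = (M * √(p : ℝ)) ^ 2 := by
        rw [mul_pow, hsq]; simp; ring
  have tot' : ∑ j, ∑ i, S₁ j i ^ 2 ≤ (M * √(p : ℝ)) ^ 2 := by rw [hcomm]; exact tot
  have hΔtot : ∑ j, ∑ i, Δ j i ^ 2 ≤ (22 * M * δ * √(p : ℝ)) ^ 2 := by
    have : (22 * M * δ * √(p : ℝ)) ^ 2 = 484 * (M ^ 2 * δ ^ 2 * p) := by
      rw [mul_pow, hsq]; ring
    rw [this]
    have g5 : 0 ≤ M ^ 2 * δ ^ 2 * p := by positivity
    calc _ ≤ _ := h1
      _ ≤ _ := by nlinarith
  have hΔtot' : ∑ i, ∑ j, Δ j i ^ 2 ≤ (22 * M * δ * √(p : ℝ)) ^ 2 := by rw [← hcomm]; exact hΔtot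
  have nM : 0 ≤ M * √(p : ℝ) := by positivity
  have nD : 0 ≤ 22 * M * δ * √(p : ℝ) := by positivity
  -- expansion
  have expand : ∑ i, ∑ j, Z i j * Z j i
      = ∑ i, ∑ j, S₁ i j * S₁ j i + 2 * ∑ i, ∑ j, S₁ i j * Δ j i
        + ∑ i, ∑ j, Δ i j * Δ j i := by
    have e1 : ∑ i, ∑ j, Δ i j * S₁ j i = ∑ i, ∑ j, S₁ i j * Δ j i := by
      rw [Finset.sum_comm]
      apply Finset.sum_congr rfl; intro i _
      apply Finset.sum_congr rfl; intro j _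
      ring
    have e2 : ∑ i, ∑ j, Z i j * Z j i = ∑ i, ∑ j, S₁ i j * S₁ j i
        + ∑ i, ∑ j, S₁ i j * Δ j i + ∑ i, ∑ j, Δ i j * S₁ j i + ∑ i, ∑ j, Δ i j * Δ j i := by
      simp only [← Finset.sum_add_distrib]
      apply Finset.sum_congr rfl; intro i _
      apply Finset.sum_congr rfl; intro j _
      simp only [hΔ]; ring
    rw [e2, e1]; ring
  have b1 : |∑ i, ∑ j, S₁ i j * Δ j i| ≤ (M * √(p : ℝ)) * (22 * M * δ * √(p : ℝ)) :=
    cs_double Finset.univ (fun _ => Finset.univ) (fun i j => S₁ i j) (fun i j => Δ j i) _ _ nM nD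
      tot' hΔtot'
  have b2 : |∑ i, ∑ j, Δ i j * Δ j i| ≤ (22 * M * δ * √(p : ℝ)) * (22 * M * δ * √(p : ℝ)) :=
    cs_double Finset.univ (fun _ => Finset.univ) (fun i j => Δ i j) (fun i j => Δ j i) _ _ nD nD
      hΔtot hΔtot'
  -- the main term
  have main : -((5059 * M ^ 2 * δ) * p) ≤ ∑ i, ∑ j, S₁ i j * S₁ j i := by
    have e1 : ∑ i, ∑ j, S₁ i j * S₁ j i
        = ∑ j, S₁ j j * S₁ j j + (∑ j ∈ Li, ∑ i ∈ Finset.univ.erase j, S₁ j i * S₁ i j
          + ∑ j ∈ He, ∑ i ∈ Finset.univ.erase j, S₁ i j * S₁ j i) := by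
      have e2 : ∑ j ∈ Li, ∑ i ∈ Finset.univ.erase j, S₁ j i * S₁ i j
          = ∑ j ∈ Li, ∑ i ∈ Finset.univ.erase j, S₁ i j * S₁ j i := by
        apply Finset.sum_congr rfl; intro i _
        apply Finset.sum_congr rfl; intro j _
        ring
      rw [e2, hLi, hHe, Finset.sum_filter_add_sum_filter_not, ← Finset.sum_add_distrib]
      rw [Finset.sum_comm]
      apply Finset.sum_congr rfl
      intro j _
      exact (Finset.add_sum_erase _ (fun x => S₁ x j * S₁ j x) (Finset.mem_univ j)).symm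
    have c1 : |∑ j ∈ Li, ∑ i ∈ Finset.univ.erase j, S₁ j i * S₁ i j|
        ≤ (5058 * M * δ * √(p : ℝ)) * (M * √(p : ℝ)) := by
      apply cs_double Li (fun j => Finset.univ.erase j) (fun j i => S₁ j i) (fun j i => S₁ i j)
        _ _ (by positivity) nM st2
      calc ∑ j ∈ Li, ∑ i ∈ Finset.univ.erase j, S₁ i j ^ 2
          ≤ ∑ j ∈ Li, ∑ i, S₁ i j ^ 2 := by
            apply Finset.sum_le_sum
            intro j _
            exact Finset.sum_le_sum_of_subset_of_nonneg (Finset.erase_subset _ _)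
              (fun _ _ _ => sq_nonneg _)
        _ ≤ ∑ j, ∑ i, S₁ i j ^ 2 :=
            Finset.sum_le_sum_of_subset_of_nonneg (Finset.subset_univ _)
              (fun _ _ _ => Finset.sum_nonneg fun _ _ => sq_nonneg _)
        _ ≤ _ := tot
    have c2 : |∑ j ∈ He, ∑ i ∈ Finset.univ.erase j, S₁ i j * S₁ j i|
        ≤ (M * δ * √(p : ℝ)) * (M * √(p : ℝ)) := by
      apply cs_double He (fun j => Finset.univ.erase j) (fun j i => S₁ i j) (fun j i => S₁ j i)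
        _ _ (by positivity) nM
      · have hcnt := heavy_count (L := L) S₁ hc1
        rw [← hHe] at hcnt
        have hh : (He.card : ℝ) ≤ δ ^ 2 * p := by
          have hL1 : (0 : ℝ) < L + 1 := by positivity
          have : (He.card : ℝ) * (L + 1) ≤ (δ ^ 2 * p) * (L + 1) := by
            calc (He.card : ℝ) * (L + 1) ≤ s * p := hcnt
              _ ≤ (δ ^ 2 * (L + 1)) * p := mul_le_mul_of_nonneg_right hsL hp'.le
              _ = _ := by ring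
          exact le_of_mul_le_mul_right this hL1
        calc ∑ j ∈ He, ∑ i ∈ Finset.univ.erase j, S₁ i j ^ 2
            ≤ ∑ j ∈ He, ∑ i, S₁ i j ^ 2 := by
              apply Finset.sum_le_sum
              intro j _
              exact Finset.sum_le_sum_of_subset_of_nonneg (Finset.erase_subset _ _)
                (fun _ _ _ => sq_nonneg _)
          _ ≤ ∑ j ∈ He, M ^ 2 := Finset.sum_le_sum fun j _ => h3 j
          _ = He.card * M ^ 2 := by simp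
          _ ≤ (δ ^ 2 * p) * M ^ 2 := mul_le_mul_of_nonneg_right hh (sq_nonneg _)
          _ = (M * δ * √(p : ℝ)) ^ 2 := by rw [mul_pow, hsq]; ring
      · calc ∑ j ∈ He, ∑ i ∈ Finset.univ.erase j, S₁ j i ^ 2
            ≤ ∑ j ∈ He, ∑ i, S₁ j i ^ 2 := by
              apply Finset.sum_le_sum
              intro j _
              exact Finset.sum_le_sum_of_subset_of_nonneg (Finset.erase_subset _ _)
                (fun _ _ _ => sq_nonneg _)
          _ ≤ ∑ j, ∑ i, S₁ j i ^ 2 :=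
              Finset.sum_le_sum_of_subset_of_nonneg (Finset.subset_univ _)
                (fun _ _ _ => Finset.sum_nonneg fun _ _ => sq_nonneg _)
          _ ≤ _ := tot'
    have c0 : 0 ≤ ∑ j, S₁ j j * S₁ j j := Finset.sum_nonneg fun _ _ => mul_self_nonneg _
    have d1 := (abs_le.mp c1).1
    have d2 := (abs_le.mp c2).1
    have f1 : (5058 * M * δ * √(p : ℝ)) * (M * √(p : ℝ)) = 5058 * (M ^ 2 * δ * p) := by
      have : √(p : ℝ) * √(p : ℝ) = p := Real.mul_self_sqrt hp'.le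
      linear_combination (5058 * M ^ 2 * δ) * this
    have f2 : (M * δ * √(p : ℝ)) * (M * √(p : ℝ)) = M ^ 2 * δ * p := by
      have : √(p : ℝ) * √(p : ℝ) = p := Real.mul_self_sqrt hp'.le
      linear_combination (M ^ 2 * δ) * this
    rw [e1]
    rw [f1] at d1
    rw [f2] at d2
    linarith
  have d1 := (abs_le.mp b1).1
  have d2 := (abs_le.mp b2).1
  have hm : √(p : ℝ) * √(p : ℝ) = p := Real.mul_self_sqrt hp'.le
  have f1 : (M * √(p : ℝ)) * (22 * M * δ * √(p : ℝ)) = 22 * (M ^ 2 * δ * p) := by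
    linear_combination (22 * M ^ 2 * δ) * hm
  have f2 : (22 * M * δ * √(p : ℝ)) * (22 * M * δ * √(p : ℝ)) = 484 * (M ^ 2 * δ ^ 2 * p) := by
    linear_combination (484 * M ^ 2 * δ ^ 2) * hm
  have f3 : M ^ 2 * δ ^ 2 * p ≤ M ^ 2 * δ * p := by
    apply mul_le_mul_of_nonneg_right _ hp'.le
    apply mul_le_mul_of_nonneg_left _ (sq_nonneg _)
    nlinarith
  have f4 : 0 ≤ M ^ 2 * δ * p := by positivity
  rw [f1] at d1
  rw [f2] at d2
  rw [expand]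
  linarith

end Pool.Agent.Helper95
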