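import Mathlib
import Pool.Agent.Helper95.KP
import Pool.Agent.Helper95.Mat

/-!
The linear maps of a block and the quasi-norm `tn`.
-/

open Finset

namespace Pool.Agent.Helper95

abbrev EY (p : ℕ) := EuclideanSpace ℝ (Fin p)
abbrev EX (p : ℕ) := EuclideanSpace ℝ (Fin p ⊕ Fin p)

/-- left embedding -/
noncomputable def inlL (p : ℕ) : EY p →ₗ[ℝ] EX p where
  toFun v := WithLp.toLp 2 (Sum.elim v (fun _ => 0))
  map_add' u v := by
    ext i; cases i <;> simp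
  map_smul' c v := by
    ext i; cases i <;> simp

/-- right embedding -/
noncomputable def inrL (p : ℕ) : EY p →ₗ[ℝ] EX p where
  toFun v := WithLp.toLp 2 (Sum.elim (fun _ => 0) v)
  map_add' u v := by
    ext i; cases i <;> simp
  map_smul' c v := by
    ext i; cases i <;> simp

/-- left projection -/
noncomputable def prl (p : ℕ) : EX p →ₗ[ℝ] EY p where
  toFun v := WithLp.toLp 2 (fun i => v (Sum.inl i))
  map_add' u v := by ext i; simp
  map_smul' c v := by ext i; simp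

/-- right projection -/
noncomputable def prr (p : ℕ) : EX p →ₗ[ℝ] EY p where
  toFun v := WithLp.toLp 2 (fun i => v (Sum.inr i))
  map_add' u v := by ext i; simp
  map_smul' c v := by ext i; simp

@[simp] lemma inlL_inl {p : ℕ} (v : EY p) (i : Fin p) : (inlL p v) (Sum.inl i) = v i := rfl
@[simp] lemma inlL_inr {p : ℕ} (v : EY p) (i : Fin p) : (inlL p v) (Sum.inr i) = 0 := rfl
@[simp] lemma inrL_inl {p : ℕ} (v : EY p) (i : Fin p) : (inrL p v) (Sum.inl i) = 0 := rfl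
@[simp] lemma inrL_inr {p : ℕ} (v : EY p) (i : Fin p) : (inrL p v) (Sum.inr i) = v i := rfl
@[simp] lemma prl_apply {p : ℕ} (v : EX p) (i : Fin p) : (prl p v) i = v (Sum.inl i) := rfl
@[simp] lemma prr_apply {p : ℕ} (v : EX p) (i : Fin p) : (prr p v) i = v (Sum.inr i) := rfl

@[simp] lemma prl_inlL {p : ℕ} (v : EY p) : prl p (inlL p v) = v := by ext i; simp
@[simp] lemma prr_inlL {p : ℕ} (v : EY p) : prr p (inlL p v) = 0 := by ext i; simp
@[simp] lemma prl_inrL {p : ℕ} (v : EY p) : prl p (inrL p v) = 0 := by ext i; simp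
@[simp] lemma prr_inrL {p : ℕ} (v : EY p) : prr p (inrL p v) = v := by ext i; simp

lemma norm_sq_EX {p : ℕ} (x : EX p) : ‖x‖ ^ 2 = ‖prl p x‖ ^ 2 + ‖prr p x‖ ^ 2 := by
  rw [eu_norm_sq, eu_norm_sq, eu_norm_sq, Fintype.sum_sum_type]
  simp

lemma norm_inlL {p : ℕ} (v : EY p) : ‖inlL p v‖ = ‖v‖ := by
  have h := norm_sq_EX (inlL p v)
  simp only [prl_inlL, prr_inlL, norm_zero] at h
  have h1 : 0 ≤ ‖inlL p v‖ := norm_nonneg _
  have h2 : 0 ≤ ‖v‖ := norm_nonneg _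
  exact (sq_eq_sq₀ h1 h2).mp (by linarith)

lemma norm_inrL {p : ℕ} (v : EY p) : ‖inrL p v‖ = ‖v‖ := by
  have h := norm_sq_EX (inrL p v)
  simp only [prl_inrL, prr_inrL, norm_zero] at h
  have h1 : 0 ≤ ‖inrL p v‖ := norm_nonneg _
  have h2 : 0 ≤ ‖v‖ := norm_nonneg _
  exact (sq_eq_sq₀ h1 h2).mp (by linarith)

lemma norm_prl_le {p : ℕ} (x : EX p) : ‖prl p x‖ ≤ ‖x‖ := by
  apply le_of_sq_le_sq _ (norm_nonneg _)
  rw [norm_sq_EX x]; nlinarith [sq_nonneg ‖prr p x‖]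

lemma norm_prr_le {p : ℕ} (x : EX p) : ‖prr p x‖ ≤ ‖x‖ := by
  apply le_of_sq_le_sq _ (norm_nonneg _)
  rw [norm_sq_EX x]; nlinarith [sq_nonneg ‖prl p x‖]

lemma inlL_single {p : ℕ} (i : Fin p) :
    inlL p (EuclideanSpace.single i (1 : ℝ)) = EuclideanSpace.single (Sum.inl i) (1 : ℝ) := by
  ext j
  cases j <;> simp

lemma inrL_single {p : ℕ} (i : Fin p) :
    inrL p (EuclideanSpace.single i (1 : ℝ)) = EuclideanSpace.single (Sum.inr i) (1 : ℝ) := by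
  ext j
  cases j <;> simp

/-- the normalized sign matrix as a linear map -/
noncomputable def WL {p : ℕ} (ω : Fin p → Fin p → ℝ) : EY p →ₗ[ℝ] EY p where
  toFun v := WithLp.toLp 2 (fun j => (∑ a, ω j a * v a) / √(p : ℝ))
  map_add' u v := by
    ext j
    simp only [PiLp.add_apply, mul_add, Finset.sum_add_distrib, add_div]
  map_smul' c v := by
    ext j
    simp only [PiLp.smul_apply, smul_eq_mul, RingHom.id_apply]
    rw [← mul_div_assoc, Finset.mul_sum]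
    congr 1
    apply Finset.sum_congr rfl
    intro a _
    ring

lemma WL_apply {p : ℕ} (ω : Fin p → Fin p → ℝ) (v : EY p) (j : Fin p) :
    (WL ω v) j = (∑ a, ω j a * v a) / √(p : ℝ) := rfl

lemma norm_WL_le {p : ℕ} {ω : Fin p → Fin p → ℝ} (hω : BilBound p ω) (v : EY p) :
    ‖WL ω v‖ ≤ 12 * ‖v‖ := by
  rcases Nat.eq_zero_or_pos p with hp | hp
  · subst hp
    have : WL ω v = 0 := by ext j; exact j.elim0
    rw [this, norm_zero]; positivity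
  have hp' : (0 : ℝ) < p := by exact_mod_cast hp
  apply le_of_sq_le_sq _ (by positivity)
  rw [mul_pow, eu_norm_sq, eu_norm_sq]
  simp only [WL_apply, div_pow, Real.sq_sqrt hp'.le]
  rw [← Finset.sum_div, div_le_iff₀ hp']
  have := bil_col hω v
  calc _ ≤ _ := this
    _ = _ := by ring

/-- the pushing map `G = [I | γ W]` -/
noncomputable def Gm {p : ℕ} (ω : Fin p → Fin p → ℝ) (γ : ℝ) : EX p →ₗ[ℝ] EY p :=
  prl p + γ • (WL ω ∘ₗ prr p)

lemma Gm_apply {p : ℕ} (ω : Fin p → Fin p → ℝ) (γ : ℝ) (x : EX p) :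
    Gm ω γ x = prl p x + γ • WL ω (prr p x) := by
  simp [Gm]

lemma Gm_inlL {p : ℕ} (ω : Fin p → Fin p → ℝ) (γ : ℝ) (v : EY p) : Gm ω γ (inlL p v) = v := by
  simp [Gm_apply]

lemma Gm_inrL {p : ℕ} (ω : Fin p → Fin p → ℝ) (γ : ℝ) (v : EY p) :
    Gm ω γ (inrL p v) = γ • WL ω v := by
  simp [Gm_apply]

lemma norm_Gm_le {p : ℕ} {ω : Fin p → Fin p → ℝ} (hω : BilBound p ω) {γ : ℝ} (hγ : 0 ≤ γ)
    (hγ1 : 12 * γ ≤ 1) (x : EX p) : ‖Gm ω γ x‖ ≤ 2 * ‖x‖ := by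
  rw [Gm_apply]
  calc ‖prl p x + γ • WL ω (prr p x)‖ ≤ ‖prl p x‖ + ‖γ • WL ω (prr p x)‖ := norm_add_le _ _
    _ = ‖prl p x‖ + γ * ‖WL ω (prr p x)‖ := by rw [norm_smul, Real.norm_eq_abs, abs_of_nonneg hγ]
    _ ≤ ‖x‖ + γ * (12 * ‖x‖) := by
        have h1 := norm_prl_le x
        have h2 := norm_WL_le hω (prr p x)
        have h3 := norm_prr_le x
        have h4 : γ * ‖WL ω (prr p x)‖ ≤ γ * (12 * ‖x‖) :=
          mul_le_mul_of_nonneg_left (by linarith) hγ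
        linarith
    _ ≤ 2 * ‖x‖ := by
        have : 0 ≤ ‖x‖ := norm_nonneg _
        nlinarith

/-- the nonlinear map of a block -/
noncomputable def Om {p : ℕ} (ω : Fin p → Fin p → ℝ) (γ K ε : ℝ) (x : EX p) : EY p :=
  Gm ω γ (kp K ε x)

/-- the quasi-norm of a block -/
noncomputable def tn {p : ℕ} (ω : Fin p → Fin p → ℝ) (γ K ε : ℝ) (z : EY p × EX p) : ℝ :=
  ‖z.1 - Om ω γ K ε z.2‖ + ‖z.2‖

/-- `lam (y,x) = y - K G x` -/
noncomputable def lamL {p : ℕ} (ω : Fin p → Fin p → ℝ) (γ K : ℝ) : (EY p × EX p) →ₗ[ℝ] EY p :=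
  LinearMap.fst ℝ _ _ - K • (Gm ω γ ∘ₗ LinearMap.snd ℝ _ _)

/-- `Gam x = (K G x, x)` -/
noncomputable def GamL {p : ℕ} (ω : Fin p → Fin p → ℝ) (γ K : ℝ) : EX p →ₗ[ℝ] (EY p × EX p) :=
  LinearMap.prod (K • Gm ω γ) LinearMap.id

lemma lamL_apply {p : ℕ} (ω : Fin p → Fin p → ℝ) (γ K : ℝ) (z : EY p × EX p) :
    lamL ω γ K z = z.1 - K • Gm ω γ z.2 := by
  simp [lamL]

lemma GamL_apply {p : ℕ} (ω : Fin p → Fin p → ℝ) (γ K : ℝ) (x : EX p) :
    GamL ω γ K x = (K • Gm ω γ x, x) := by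
  simp [GamL]

lemma decomp {p : ℕ} (ω : Fin p → Fin p → ℝ) (γ K : ℝ) (z : EY p × EX p) :
    z = (lamL ω γ K z, 0) + GamL ω γ K z.2 := by
  rw [lamL_apply, GamL_apply]
  ext1 <;> simp

section Est

variable {p : ℕ} {ω : Fin p → Fin p → ℝ} {γ K ε : ℝ}

lemma Om_eq (hK : 0 < K) (x : EX p) :
    Om ω γ K ε x = K • Gm ω γ x - K • Gm ω γ (pk K ε x) := by
  unfold Om
  rw [kp_eq K ε hK x, map_sub, map_smul, map_smul]

lemma norm_lamL_le (hω : BilBound p ω) (hγ : 0 ≤ γ) (hγ1 : 12 * γ ≤ 1) (hK : 0 < K)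
    (z : EY p × EX p) :
    ‖lamL ω γ K z‖ ≤ tn ω γ K ε z + 2 * K * ‖pk K ε z.2‖ := by
  rw [lamL_apply]
  have h : z.1 - K • Gm ω γ z.2 = (z.1 - Om ω γ K ε z.2) - K • Gm ω γ (pk K ε z.2) := by
    rw [Om_eq hK]; abel
  rw [h]
  have h1 := norm_sub_le (z.1 - Om ω γ K ε z.2) (K • Gm ω γ (pk K ε z.2))
  have h2 := norm_Gm_le hω hγ hγ1 (pk K ε z.2)
  rw [norm_smul, Real.norm_eq_abs, abs_of_pos hK] at h1
  have h3 := mul_le_mul_of_nonneg_left h2 hK.le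
  have h4 : 0 ≤ ‖z.2‖ := norm_nonneg _
  unfold tn
  linarith

lemma tn_Gam_le (hω : BilBound p ω) (hγ : 0 ≤ γ) (hγ1 : 12 * γ ≤ 1) (hK : 0 < K) (x : EX p) :
    tn ω γ K ε (GamL ω γ K x) ≤ ‖x‖ + 2 * K * ‖pk K ε x‖ := by
  rw [GamL_apply]
  unfold tn
  simp only
  have h : K • Gm ω γ x - Om ω γ K ε x = K • Gm ω γ (pk K ε x) := by
    rw [Om_eq hK]; abel
  rw [h, norm_smul, Real.norm_eq_abs, abs_of_pos hK]
  have h2 := mul_le_mul_of_nonneg_left (norm_Gm_le hω hγ hγ1 (pk K ε x)) hK.le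
  linarith

lemma tn_Gam_le' (hω : BilBound p ω) (hγ : 0 ≤ γ) (hγ1 : 12 * γ ≤ 1) (hK : 0 < K) (hε : 0 ≤ ε)
    (x : EX p) : tn ω γ K ε (GamL ω γ K x) ≤ (1 + 2 * K) * ‖x‖ := by
  have h := tn_Gam_le (ε := ε) hω hγ hγ1 hK x
  have h1 := mul_le_mul_of_nonneg_left (norm_pk_le K ε hK hε x) (show 0 ≤ 2 * K by positivity)
  linarith

lemma norm_Om_le (hω : BilBound p ω) (hγ : 0 ≤ γ) (hγ1 : 12 * γ ≤ 1) (hK : 0 < K) (hε : 0 ≤ ε)
    (x : EX p) : ‖Om ω γ K ε x‖ ≤ 2 * K * ‖x‖ := by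
  unfold Om
  have h1 := norm_Gm_le hω hγ hγ1 (kp K ε x)
  have h2 := norm_kp_le K ε hK hε x
  linarith

lemma tn_inr_le (hω : BilBound p ω) (hγ : 0 ≤ γ) (hγ1 : 12 * γ ≤ 1) (hK : 0 < K) (hε : 0 ≤ ε)
    (x : EX p) : tn ω γ K ε (0, x) ≤ (1 + 2 * K) * ‖x‖ := by
  unfold tn
  simp only [zero_sub, norm_neg]
  have := norm_Om_le hω hγ hγ1 hK hε x
  linarith

lemma Om_zero : Om ω γ K ε (0 : EX p) = 0 := by
  unfold Om; rw [kp_zero, map_zero]

lemma tn_inl (y : EY p) : tn ω γ K ε (y, (0 : EX p)) = ‖y‖ := by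
  unfold tn
  simp [Om_zero]

lemma kp_single {ι : Type*} [Fintype ι] [DecidableEq ι] (hK : 0 ≤ K) (i : ι) :
    kp K ε (EuclideanSpace.single i (1 : ℝ)) = 0 := by
  ext j
  rw [kp_apply]
  by_cases h : j = i
  · subst h
    simp [hK]
  · simp [h]

lemma tn_single (hK : 0 ≤ K) (i : Fin p ⊕ Fin p) :
    tn ω γ K ε ((0 : EY p), EuclideanSpace.single i (1 : ℝ)) = 1 := by
  unfold tn Om
  simp [kp_single hK]

lemma norm_snd_le_tn (z : EY p × EX p) : ‖z.2‖ ≤ tn ω γ K ε z := by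
  unfold tn
  have : 0 ≤ ‖z.1 - Om ω γ K ε z.2‖ := norm_nonneg _
  linarith

lemma tn_nonneg (z : EY p × EX p) : 0 ≤ tn ω γ K ε z := by
  unfold tn; positivity

lemma Om_smul (c : ℝ) (x : EX p) : Om ω γ K ε (c • x) = c • Om ω γ K ε x := by
  unfold Om; rw [kp_smul, map_smul]

lemma tn_smul (c : ℝ) (z : EY p × EX p) : tn ω γ K ε (c • z) = |c| * tn ω γ K ε z := by
  unfold tn
  simp only [Prod.smul_fst, Prod.smul_snd]
  rw [Om_smul, ← smul_sub, norm_smul, norm_smul, Real.norm_eq_abs]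
  ring

/-- the number of peaky coordinates is bounded -/
lemma card_pk_le {ι : Type*} [Fintype ι] (hK : 0 < K) (hε : 0 < ε) (x : EuclideanSpace ℝ ι)
    {s : ℕ} (hs : Real.exp (2 * K / ε) ≤ s) :
    (Finset.univ.filter (fun j => pk K ε x j ≠ 0)).card ≤ s := by
  classical
  set A := Finset.univ.filter (fun j => pk K ε x j ≠ 0) with hA
  have h1 : ∀ j ∈ A, (Real.exp (-(K / ε)) * ‖x‖) ^ 2 ≤ x j ^ 2 := by
    intro j hj
    have hj' := (Finset.mem_filter.mp hj).2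
    have h2 : Real.exp (-(K / ε)) * ‖x‖ < |x j| := by
      by_contra hcon
      push Not at hcon
      exact hj' (pk_eq_zero K ε hK hε x j hcon)
    rw [← sq_abs (x j)]
    exact pow_le_pow_left₀ (by positivity) h2.le 2
  have h3 : (A.card : ℝ) * (Real.exp (-(K / ε)) * ‖x‖) ^ 2 ≤ ‖x‖ ^ 2 := by
    calc (A.card : ℝ) * (Real.exp (-(K / ε)) * ‖x‖) ^ 2
        = ∑ j ∈ A, (Real.exp (-(K / ε)) * ‖x‖) ^ 2 := by simp
      _ ≤ ∑ j ∈ A, x j ^ 2 := Finset.sum_le_sum h1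
      _ ≤ ∑ j, x j ^ 2 := Finset.sum_le_sum_of_subset_of_nonneg (Finset.subset_univ _)
          (fun _ _ _ => sq_nonneg _)
      _ = ‖x‖ ^ 2 := (eu_norm_sq x).symm
  by_cases hx : ‖x‖ = 0
  · have : A = ∅ := by
      rw [hA, Finset.filter_eq_empty_iff]
      intro j _
      push Not
      apply pk_eq_zero K ε hK hε x j
      have := eu_abs_le_norm x j
      rw [hx] at this ⊢
      simpa using this
    rw [this]; simp
  · have hxp : 0 < ‖x‖ ^ 2 := by positivity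
    have h4 : (A.card : ℝ) * Real.exp (-(K / ε)) ^ 2 ≤ 1 := by
      rw [mul_pow, ← mul_assoc] at h3
      have : (A.card : ℝ) * Real.exp (-(K / ε)) ^ 2 * ‖x‖ ^ 2 ≤ 1 * ‖x‖ ^ 2 := by
        rw [one_mul]; exact h3
      exact le_of_mul_le_mul_right this hxp
    have h5 : Real.exp (-(K / ε)) ^ 2 * Real.exp (2 * K / ε) = 1 := by
      rw [← Real.exp_nat_mul, ← Real.exp_add]
      have : ((2 : ℕ) : ℝ) * -(K / ε) + 2 * K / ε = 0 := by push_cast; ring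
      rw [this, Real.exp_zero]
    have h6 : (A.card : ℝ) ≤ Real.exp (2 * K / ε) := by
      have := mul_le_mul_of_nonneg_right h4 (Real.exp_pos (2 * K / ε)).le
      rw [mul_assoc, h5] at this
      linarith
    have h7 : (A.card : ℝ) ≤ s := h6.trans hs
    exact_mod_cast h7

end Est

end Pool.Agent.Helper95
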