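import Mathlib
import Pool.Agent.Helper95.Maps

/-!
The finite dimensional block theorem: on a good block there is no bounded operator whose square is
close to minus the identity, as seen through random sign vectors.
-/

open Finset

namespace Pool.Agent.Helper95

/-- parameters of a good block -/
structure GoodBlock (p : ℕ) (ω : Fin p → Fin p → ℝ) (K ε : ℝ) : Prop where
  hK : 1000 ≤ K
  hε : 0 < ε
  hω : BilBound p ω
  hrig : ∃ s L : ℕ, Rigid p s L K (1 / K) ω ∧ Real.exp (2 * K / ε) ≤ s ∧ (s : ℝ) ≤ (L + 1) / K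
  hp : 62208 * K ^ 20 * Real.exp (2 * K / ε) ≤ p

section

variable {p : ℕ} {ω : Fin p → Fin p → ℝ} {K ε : ℝ}

lemma GoodBlock.K_pos (h : GoodBlock p ω K ε) : 0 < K := by linarith [h.hK]

lemma GoodBlock.γ_nonneg (_h : GoodBlock p ω K ε) : 0 ≤ 1 / √K := by positivity

lemma GoodBlock.sqrtK_ge (h : GoodBlock p ω K ε) : 30 ≤ √K := by
  rw [show (30 : ℝ) = √(900) by
    rw [show (900 : ℝ) = 30 ^ 2 by norm_num, Real.sqrt_sq (by norm_num)]]
  exact Real.sqrt_le_sqrt (by linarith [h.hK])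

lemma GoodBlock.γ_small (h : GoodBlock p ω K ε) : 12 * (1 / √K) ≤ 1 := by
  have h1 := h.sqrtK_ge
  rw [mul_one_div, div_le_one (by linarith)]
  linarith

lemma GoodBlock.p_pos (h : GoodBlock p ω K ε) : 0 < p := by
  have h1 := h.hp
  have h2 : 0 < 62208 * K ^ 20 * Real.exp (2 * K / ε) := by
    have := h.K_pos; positivity
  have : (0 : ℝ) < p := lt_of_lt_of_le h2 h1
  exact_mod_cast this

/-- spread lemma with the constants of a good block -/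
lemma GoodBlock.spread (h : GoodBlock p ω K ε) {ι : Type*} [Fintype ι]
    (L : EY p →ₗ[ℝ] EuclideanSpace ℝ ι) (hL : ∀ x, ‖L x‖ ≤ 3 * K ^ 3 * ‖x‖) :
    avg (fun e : Fin p → Bool => ‖pk K ε (L (rv e))‖ ^ 2) ≤ 1 / (8 * K ^ 4) := by
  have hK := h.K_pos
  have hp := h.p_pos
  have hp' : (0 : ℝ) < p := by exact_mod_cast hp
  have hε := h.hε
  have h1 := avg_pk_le hp K ε (1 / (4 * K ^ 2)) (3 * K ^ 3) hK hε (by positivity) (by positivity)
    L hL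
  refine h1.trans ?_
  have h2 : Real.exp (-(K / ε)) ^ 2 = 1 / Real.exp (2 * K / ε) := by
    rw [eq_div_iff (Real.exp_pos _).ne', ← Real.exp_nat_mul, ← Real.exp_add]
    have : ((2 : ℕ) : ℝ) * -(K / ε) + 2 * K / ε = 0 := by push_cast; ring
    rw [this, Real.exp_zero]
  have h3 : (1 / (Real.exp (-(K / ε)) * (1 / (4 * K ^ 2))) ^ 2) * (3 * (3 * K ^ 3) ^ 4 / p)
      = (62208 * K ^ 20 * Real.exp (2 * K / ε)) / p * (1 / (16 * K ^ 4)) := by
    rw [mul_pow, h2]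
    have := Real.exp_pos (2 * K / ε)
    field_simp
    ring
  rw [h3]
  have h4 : (62208 * K ^ 20 * Real.exp (2 * K / ε)) / p ≤ 1 := (div_le_one hp').mpr h.hp
  have h5 : (62208 * K ^ 20 * Real.exp (2 * K / ε)) / p * (1 / (16 * K ^ 4))
      ≤ 1 * (1 / (16 * K ^ 4)) := mul_le_mul_of_nonneg_right h4 (by positivity)
  have h6 : (1 / (4 * K ^ 2)) ^ 2 = 1 / (16 * K ^ 4) := by
    field_simp; ring
  have h7 : 1 / (8 * K ^ 4) = 1 / (16 * K ^ 4) + 1 * (1 / (16 * K ^ 4)) := by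
    field_simp; ring
  rw [h6, h7]
  linarith

lemma GoodBlock.inv_sqrt_le (h : GoodBlock p ω K ε) :
    1 / √(p : ℝ) ≤ Real.exp (-(K / ε)) := by
  have hK := h.K_pos
  have hp' : (0 : ℝ) < p := by exact_mod_cast h.p_pos
  rw [Real.exp_neg, one_div]
  apply inv_anti₀ (Real.exp_pos _)
  apply Real.le_sqrt_of_sq_le
  rw [← Real.exp_nat_mul]
  have h1 : ((2 : ℕ) : ℝ) * (K / ε) = 2 * K / ε := by push_cast; ring
  rw [h1]
  have h2 : Real.exp (2 * K / ε) ≤ 62208 * K ^ 20 * Real.exp (2 * K / ε) := by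
    have h3 : (1 : ℝ) ≤ K ^ 20 := one_le_pow₀ (by linarith [h.hK])
    have h4 := Real.exp_pos (2 * K / ε)
    nlinarith
  linarith [h.hp]

lemma rv_apply_abs {p : ℕ} (e : Fin p → Bool) (i : Fin p) : |rv e i| = 1 / √(p : ℝ) := by
  simp only [rv, PiLp.smul_apply, smul_eq_mul, abs_mul, sg_abs, mul_one]
  rw [abs_of_nonneg (by positivity)]

lemma GoodBlock.pk_inl (h : GoodBlock p ω K ε) (e : Fin p → Bool) :
    pk K ε (inlL p (rv e)) = 0 := by
  ext i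
  apply pk_eq_zero K ε h.K_pos h.hε
  rw [norm_inlL, rv_norm h.p_pos, mul_one]
  cases i with
  | inl i => rw [inlL_inl, rv_apply_abs]; exact h.inv_sqrt_le
  | inr i => rw [inlL_inr, abs_zero]; exact (Real.exp_pos _).le

lemma GoodBlock.pk_inr (h : GoodBlock p ω K ε) (e : Fin p → Bool) :
    pk K ε (inrL p (rv e)) = 0 := by
  ext i
  apply pk_eq_zero K ε h.K_pos h.hε
  rw [norm_inrL, rv_norm h.p_pos, mul_one]
  cases i with
  | inr i => rw [inrL_inr, rv_apply_abs]; exact h.inv_sqrt_le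
  | inl i => rw [inrL_inl, abs_zero]; exact (Real.exp_pos _).le

end

/-- A bounded operator on the block. -/
structure BddOp {p : ℕ} (ω : Fin p → Fin p → ℝ) (K ε M : ℝ)
    (T : (EY p × EX p) →ₗ[ℝ] (EY p × EX p)) : Prop where
  hM : 1 ≤ M
  hMK : 10 ^ 8 * M ^ 4 ≤ K
  hT : ∀ z, tn ω (1 / √K) K ε (T z) ≤ M * tn ω (1 / √K) K ε z

section

variable {p : ℕ} {ω : Fin p → Fin p → ℝ} {K ε M : ℝ}
  {T : (EY p × EX p) →ₗ[ℝ] (EY p × EX p)}

lemma BddOp.M_le (b : BddOp ω K ε M T) : M ≤ K := by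
  have h1 := b.hM
  have h2 := b.hMK
  have h3 : M ≤ M ^ 4 := le_self_pow₀ h1 (by norm_num)
  have h4 : M ^ 4 ≤ 10 ^ 8 * M ^ 4 := by nlinarith [pow_pos (show (0 : ℝ) < M by linarith) 4]
  linarith

lemma BddOp.bound1 (h : GoodBlock p ω K ε) (b : BddOp ω K ε M T) (x : EX p) :
    ‖(T (GamL ω (1 / √K) K x)).2‖ ≤ 3 * K ^ 2 * ‖x‖ := by
  have hK := h.hK
  have h1 := norm_snd_le_tn (ω := ω) (γ := 1 / √K) (K := K) (ε := ε) (T (GamL ω (1 / √K) K x))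
  have h2 := b.hT (GamL ω (1 / √K) K x)
  have h3 := tn_Gam_le' h.hω h.γ_nonneg h.γ_small h.K_pos h.hε.le x
  have hM := b.hM
  have hM2 := b.M_le
  have h4 : M * tn ω (1 / √K) K ε (GamL ω (1 / √K) K x) ≤ K * ((1 + 2 * K) * ‖x‖) := by
    apply mul_le_mul hM2 h3 (tn_nonneg _) (by linarith)
  have h5 : K * ((1 + 2 * K) * ‖x‖) ≤ 3 * K ^ 2 * ‖x‖ := by
    have : K * (1 + 2 * K) ≤ 3 * K ^ 2 := by nlinarith
    have := mul_le_mul_of_nonneg_right this (norm_nonneg x)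
    linarith
  linarith

/-- Err is bounded on spread vectors, in the second moment. -/
lemma BddOp.err_avg (h : GoodBlock p ω K ε) (b : BddOp ω K ε M T)
    (emb : EY p →ₗ[ℝ] EX p) (hemb : ∀ v, ‖emb v‖ = ‖v‖)
    (hpk : ∀ e : Fin p → Bool, pk K ε (emb (rv e)) = 0) :
    ∑ i, ‖lamL ω (1 / √K) K (T (GamL ω (1 / √K) K (emb (EuclideanSpace.single i (1 : ℝ)))))‖ ^ 2
      ≤ 3 * M ^ 2 * p := by
  have hK := h.hK
  have hKp := h.K_pos
  have hM := b.hM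
  have hp' : (0 : ℝ) < p := by exact_mod_cast h.p_pos
  set L : EY p →ₗ[ℝ] EY p := lamL ω (1 / √K) K ∘ₗ T ∘ₗ GamL ω (1 / √K) K ∘ₗ emb with hL
  set L2 : EY p →ₗ[ℝ] EX p := LinearMap.snd ℝ _ _ ∘ₗ T ∘ₗ GamL ω (1 / √K) K ∘ₗ emb with hL2
  have h1 := avg_lin_rv L
  have hL2b : ∀ x, ‖L2 x‖ ≤ 3 * K ^ 3 * ‖x‖ := by
    intro x
    have g := b.bound1 h (emb x)
    rw [hemb] at g
    have g2 : L2 x = (T (GamL ω (1 / √K) K (emb x))).2 := rfl
    rw [g2]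
    have g3 : 3 * K ^ 2 * ‖x‖ ≤ 3 * K ^ 3 * ‖x‖ := by
      apply mul_le_mul_of_nonneg_right _ (norm_nonneg _)
      have : K ^ 2 ≤ K ^ 3 := pow_le_pow_right₀ (by linarith) (by norm_num)
      linarith
    linarith
  have h2 := h.spread L2 hL2b
  have h3 : ∀ e : Fin p → Bool, ‖L (rv e)‖ ^ 2 ≤ 2 * M ^ 2 + 8 * K ^ 2 * ‖pk K ε (L2 (rv e))‖ ^ 2 := by
    intro e
    have g1 := norm_lamL_le (ε := ε) h.hω h.γ_nonneg h.γ_small hKp
      (T (GamL ω (1 / √K) K (emb (rv e))))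
    have g2 := b.hT (GamL ω (1 / √K) K (emb (rv e)))
    have g3 := tn_Gam_le (ε := ε) h.hω h.γ_nonneg h.γ_small hKp (emb (rv e))
    rw [hpk e, hemb, rv_norm h.p_pos, norm_zero, mul_zero, add_zero] at g3
    have g4 : M * tn ω (1 / √K) K ε (GamL ω (1 / √K) K (emb (rv e))) ≤ M * 1 :=
      mul_le_mul_of_nonneg_left g3 (by linarith)
    have g5 : ‖L (rv e)‖ ≤ M + 2 * K * ‖pk K ε (L2 (rv e))‖ := by
      have e1 : L (rv e) = lamL ω (1 / √K) K (T (GamL ω (1 / √K) K (emb (rv e)))) := rfl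
      have e2 : L2 (rv e) = (T (GamL ω (1 / √K) K (emb (rv e)))).2 := rfl
      rw [e1, e2]
      linarith
    have g6 : ‖L (rv e)‖ ^ 2 ≤ (M + 2 * K * ‖pk K ε (L2 (rv e))‖) ^ 2 :=
      pow_le_pow_left₀ (norm_nonneg _) g5 2
    nlinarith [sq_nonneg (M - 2 * K * ‖pk K ε (L2 (rv e))‖)]
  have h4 := avg_mono h3
  rw [avg_add, avg_const, avg_mul_left, h1] at h4
  have h5 : 8 * K ^ 2 * avg (fun e : Fin p → Bool => ‖pk K ε (L2 (rv e))‖ ^ 2) ≤ 1 := by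
    have g1 : 8 * K ^ 2 * avg (fun e : Fin p → Bool => ‖pk K ε (L2 (rv e))‖ ^ 2)
        ≤ 8 * K ^ 2 * (1 / (8 * K ^ 4)) := mul_le_mul_of_nonneg_left h2 (by positivity)
    have g2 : 8 * K ^ 2 * (1 / (8 * K ^ 4)) = 1 / K ^ 2 := by field_simp
    have g3 : 1 / K ^ 2 ≤ 1 := by
      rw [div_le_one (by positivity)]
      nlinarith
    linarith
  have h6 : (1 / (p : ℝ)) * ∑ i, ‖L (EuclideanSpace.single i (1 : ℝ))‖ ^ 2 ≤ 3 * M ^ 2 := by
    nlinarith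
  have h7 : ∑ i, ‖L (EuclideanSpace.single i (1 : ℝ))‖ ^ 2 ≤ 3 * M ^ 2 * p := by
    rw [one_div, inv_mul_le_iff₀ hp'] at h6
    linarith
  exact h7

/-- the column relation -/
lemma BddOp.column (h : GoodBlock p ω K ε) (b : BddOp ω K ε M T) (i : Fin p ⊕ Fin p) :
    ‖lamL ω (1 / √K) K (T (Gm ω (1 / √K) (EuclideanSpace.single i (1 : ℝ)), 0))
      - Gm ω (1 / √K) (pk K ε (T (0, EuclideanSpace.single i (1 : ℝ))).2)‖
    ≤ (‖lamL ω (1 / √K) K (T (GamL ω (1 / √K) K (EuclideanSpace.single i (1 : ℝ))))‖ + M) / K := by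
  have hKp := h.K_pos
  set x : EX p := EuclideanSpace.single i (1 : ℝ) with hx
  set BD := T (0, x) with hBD
  have h1 : tn ω (1 / √K) K ε BD ≤ M := by
    have g := b.hT (0, x)
    rw [tn_single hKp.le, mul_one] at g
    exact g
  have h2 : lamL ω (1 / √K) K BD
      = (BD.1 - Om ω (1 / √K) K ε BD.2) - K • Gm ω (1 / √K) (pk K ε BD.2) := by
    rw [lamL_apply, Om_eq hKp]; abel
  have h3 : K • lamL ω (1 / √K) K (T (Gm ω (1 / √K) x, 0))
      = lamL ω (1 / √K) K (T (GamL ω (1 / √K) K x)) - lamL ω (1 / √K) K BD := by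
    rw [hBD, ← map_sub, ← map_sub, ← map_smul, ← map_smul]
    congr 2
    rw [GamL_apply]
    ext1 <;> simp
  have h4 : K • (lamL ω (1 / √K) K (T (Gm ω (1 / √K) x, 0)) - Gm ω (1 / √K) (pk K ε BD.2))
      = lamL ω (1 / √K) K (T (GamL ω (1 / √K) K x)) - (BD.1 - Om ω (1 / √K) K ε BD.2) := by
    rw [smul_sub, h3, h2]; abel
  have h5 : K * ‖lamL ω (1 / √K) K (T (Gm ω (1 / √K) x, 0)) - Gm ω (1 / √K) (pk K ε BD.2)‖
      ≤ ‖lamL ω (1 / √K) K (T (GamL ω (1 / √K) K x))‖ + M := by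
    have g1 : K * ‖lamL ω (1 / √K) K (T (Gm ω (1 / √K) x, 0)) - Gm ω (1 / √K) (pk K ε BD.2)‖
        = ‖K • (lamL ω (1 / √K) K (T (Gm ω (1 / √K) x, 0)) - Gm ω (1 / √K) (pk K ε BD.2))‖ := by
      rw [norm_smul, Real.norm_eq_abs, abs_of_pos hKp]
    rw [g1, h4]
    have g2 : ‖BD.1 - Om ω (1 / √K) K ε BD.2‖ ≤ M := by
      have : 0 ≤ ‖BD.2‖ := norm_nonneg _
      unfold tn at h1
      linarith
    have g3 := norm_sub_le (lamL ω (1 / √K) K (T (GamL ω (1 / √K) K x)))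
      (BD.1 - Om ω (1 / √K) K ε BD.2)
    linarith
  rw [le_div_iff₀ hKp]
  linarith

lemma BddOp.norm_D (h : GoodBlock p ω K ε) (b : BddOp ω K ε M T) (i : Fin p ⊕ Fin p) :
    ‖(T (0, EuclideanSpace.single i (1 : ℝ))).2‖ ≤ M := by
  have g := b.hT (0, EuclideanSpace.single i (1 : ℝ))
  rw [tn_single h.K_pos.le, mul_one] at g
  exact (norm_snd_le_tn _).trans g

end

end Pool.Agent.Helper95
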