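import Mathlib
import Pool.Agent.Helper95.Block

/-!
The finite dimensional block theorem, second part: the trace estimate and the contradiction.
-/

open Finset

namespace Pool.Agent.Helper95

section

variable {p : ℕ} {ω : Fin p → Fin p → ℝ} {K ε M : ℝ}
  {T : (EY p × EX p) →ₗ[ℝ] (EY p × EX p)}

/-- the symbol of an operator -/
noncomputable def ZL (ω : Fin p → Fin p → ℝ) (K : ℝ) (T : (EY p × EX p) →ₗ[ℝ] (EY p × EX p)) :
    EY p →ₗ[ℝ] EY p :=
  lamL ω (1 / √K) K ∘ₗ T ∘ₗ LinearMap.inl ℝ _ _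

lemma ZL_apply (y : EY p) : ZL ω K T y = lamL ω (1 / √K) K (T (y, 0)) := rfl

/-- peaky part of the image of a basis vector -/
noncomputable def sigm (K ε : ℝ) (T : (EY p × EX p) →ₗ[ℝ] (EY p × EX p)) (i : Fin p ⊕ Fin p) :
    EX p :=
  pk K ε (T (0, EuclideanSpace.single i (1 : ℝ))).2

lemma BddOp.norm_sigm (h : GoodBlock p ω K ε) (b : BddOp ω K ε M T) (i : Fin p ⊕ Fin p) :
    ‖sigm K ε T i‖ ≤ M :=
  (norm_pk_le K ε h.K_pos h.hε.le _).trans (b.norm_D h i)

lemma BddOp.col_inl (h : GoodBlock p ω K ε) (b : BddOp ω K ε M T) (i : Fin p) :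
    ‖ZL ω K T (EuclideanSpace.single i (1 : ℝ)) - prl p (sigm K ε T (Sum.inl i))‖ ^ 2
      ≤ 3 * (‖lamL ω (1 / √K) K (T (GamL ω (1 / √K) K (inlL p (EuclideanSpace.single i (1 : ℝ)))))‖ ^ 2
          / K ^ 2) + 3 * (M ^ 2 / K ^ 2) + 432 * (M ^ 2 / K) := by
  have hK := h.hK
  have hKp := h.K_pos
  have hM := b.hM
  have hcol := b.column h (Sum.inl i)
  rw [← inlL_single, Gm_inlL] at hcol
  rw [inlL_single] at hcol
  set E := ‖lamL ω (1 / √K) K (T (GamL ω (1 / √K) K (inlL p (EuclideanSpace.single i (1 : ℝ)))))‖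
    with hE
  have hE' : ‖lamL ω (1 / √K) K (T (GamL ω (1 / √K) K
      (EuclideanSpace.single (Sum.inl i) (1 : ℝ))))‖ = E := by rw [hE, inlL_single]
  rw [hE'] at hcol
  set σ := sigm K ε T (Sum.inl i) with hσ
  have hσ' : pk K ε (T (0, EuclideanSpace.single (Sum.inl i) (1 : ℝ))).2 = σ := rfl
  rw [hσ'] at hcol
  have e1 : ZL ω K T (EuclideanSpace.single i (1 : ℝ)) - prl p σ
      = (lamL ω (1 / √K) K (T (EuclideanSpace.single i (1 : ℝ), 0)) - Gm ω (1 / √K) σ)
        + (1 / √K) • WL ω (prr p σ) := by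
    rw [ZL_apply, Gm_apply]; abel
  have n1 : ‖(1 / √K) • WL ω (prr p σ)‖ ≤ 12 * M * (1 / √K) := by
    rw [norm_smul, Real.norm_eq_abs, abs_of_nonneg h.γ_nonneg]
    have g1 := norm_WL_le h.hω (prr p σ)
    have g2 := norm_prr_le σ
    have g3 := b.norm_sigm h (Sum.inl i)
    have g4 : ‖WL ω (prr p σ)‖ ≤ 12 * M := by
      rw [← hσ] at g3
      linarith
    have := mul_le_mul_of_nonneg_left g4 h.γ_nonneg
    linarith
  have n2 : ‖ZL ω K T (EuclideanSpace.single i (1 : ℝ)) - prl p σ‖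
      ≤ E / K + M / K + 12 * M * (1 / √K) := by
    rw [e1]
    have g := norm_add_le (lamL ω (1 / √K) K (T (EuclideanSpace.single i (1 : ℝ), 0))
      - Gm ω (1 / √K) σ) ((1 / √K) • WL ω (prr p σ))
    have g2 : (E + M) / K = E / K + M / K := add_div _ _ _
    linarith
  have n3 := pow_le_pow_left₀ (norm_nonneg _) n2 2
  have e2 : (12 * M * (1 / √K)) ^ 2 = 144 * (M ^ 2 / K) := by
    rw [mul_pow, mul_pow, div_pow, one_pow, Real.sq_sqrt hKp.le]; ring
  have e3 : (E / K) ^ 2 = E ^ 2 / K ^ 2 := div_pow _ _ _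
  have e4 : (M / K) ^ 2 = M ^ 2 / K ^ 2 := div_pow _ _ _
  set a := E / K
  set c := M / K
  set d := 12 * M * (1 / √K)
  rw [← e3, ← e4]
  have e5 : 432 * (M ^ 2 / K) = 3 * d ^ 2 := by rw [e2]; ring
  rw [e5]
  nlinarith [sq_nonneg (a - c), sq_nonneg (a - d), sq_nonneg (c - d)]

lemma BddOp.col_inr (h : GoodBlock p ω K ε) (b : BddOp ω K ε M T) (i : Fin p) :
    ‖ZL ω K T (WL ω (EuclideanSpace.single i (1 : ℝ))) - √K • prl p (sigm K ε T (Sum.inr i))
        - WL ω (prr p (sigm K ε T (Sum.inr i)))‖ ^ 2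
      ≤ 2 * (‖lamL ω (1 / √K) K (T (GamL ω (1 / √K) K (inrL p (EuclideanSpace.single i (1 : ℝ)))))‖ ^ 2
          / K) + 2 * (M ^ 2 / K) := by
  have hK := h.hK
  have hKp := h.K_pos
  have hM := b.hM
  have hcol := b.column h (Sum.inr i)
  set E := ‖lamL ω (1 / √K) K (T (GamL ω (1 / √K) K (inrL p (EuclideanSpace.single i (1 : ℝ)))))‖
    with hE
  have hE' : ‖lamL ω (1 / √K) K (T (GamL ω (1 / √K) K
      (EuclideanSpace.single (Sum.inr i) (1 : ℝ))))‖ = E := by rw [hE, inrL_single]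
  rw [hE'] at hcol
  set σ := sigm K ε T (Sum.inr i) with hσ
  have hσ' : pk K ε (T (0, EuclideanSpace.single (Sum.inr i) (1 : ℝ))).2 = σ := rfl
  rw [hσ', ← inrL_single, Gm_inrL] at hcol
  have hs : 0 < √K := Real.sqrt_pos.mpr hKp
  have hs2 : √K ^ 2 = K := Real.sq_sqrt hKp.le
  have e1 : ZL ω K T (WL ω (EuclideanSpace.single i (1 : ℝ))) - √K • prl p σ - WL ω (prr p σ)
      = √K • (lamL ω (1 / √K) K (T ((1 / √K) • WL ω (EuclideanSpace.single i (1 : ℝ)), 0))
          - Gm ω (1 / √K) σ) := by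
    have e2 : ((1 / √K) • WL ω (EuclideanSpace.single i (1 : ℝ)), (0 : EX p))
        = (1 / √K) • (WL ω (EuclideanSpace.single i (1 : ℝ)), (0 : EX p)) := by
      ext1 <;> simp
    rw [e2, map_smul, map_smul, smul_sub, smul_smul, mul_one_div_cancel hs.ne', one_smul,
      Gm_apply, smul_add, smul_smul, mul_one_div_cancel hs.ne', one_smul, ZL_apply]
    abel
  rw [e1, norm_smul, Real.norm_eq_abs, abs_of_pos hs, mul_pow, hs2]
  have n3 := pow_le_pow_left₀ (norm_nonneg _) hcol 2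
  have n4 : ((E + M) / K) ^ 2 ≤ (2 * E ^ 2 + 2 * M ^ 2) / K ^ 2 := by
    rw [div_pow]
    apply div_le_div_of_nonneg_right _ (by positivity)
    nlinarith [sq_nonneg (E - M)]
  have n5 := mul_le_mul_of_nonneg_left (n3.trans n4) hKp.le
  have e6 : K * ((2 * E ^ 2 + 2 * M ^ 2) / K ^ 2) = 2 * (E ^ 2 / K) + 2 * (M ^ 2 / K) := by
    field_simp
  rw [e6] at n5
  exact n5

lemma pk_coord_sq_le {ι : Type*} [Fintype ι] (x : EuclideanSpace ℝ ι) (j : ι) :
    |x j| ≤ ‖x‖ := eu_abs_le_norm x j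

theorem BddOp.trace_lower (h : GoodBlock p ω K ε) (b : BddOp ω K ε M T) :
    -(5600 * M ^ 2 * (1 / √K) * p) ≤ ∑ i, ∑ j, (ZL ω K T (EuclideanSpace.single j (1 : ℝ))) i
      * (ZL ω K T (EuclideanSpace.single i (1 : ℝ))) j := by
  have hK := h.hK
  have hKp := h.K_pos
  have hM := b.hM
  have hMK := b.hMK
  have hp := h.p_pos
  have hp' : (0 : ℝ) < p := by exact_mod_cast hp
  have hs : 0 < √K := Real.sqrt_pos.mpr hKp
  have hs2 : √K ^ 2 = K := Real.sq_sqrt hKp.le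
  have hsK : 30 ≤ √K := h.sqrtK_ge
  have hδ2 : (1 / √K) ^ 2 = 1 / K := by rw [div_pow, one_pow, hs2]
  obtain ⟨s, L, hR, hs1, hsL⟩ := h.hrig
  set Zm : Fin p → Fin p → ℝ := fun j i => (ZL ω K T (EuclideanSpace.single i (1 : ℝ))) j with hZm
  set S₁ : Fin p → Fin p → ℝ := fun j i => (sigm K ε T (Sum.inl i)) (Sum.inl j) with hS1
  set S₂ : Fin p → Fin p → ℝ := fun j a => √K * (sigm K ε T (Sum.inr a)) (Sum.inl j) with hS2
  set S₃ : Fin p → Fin p → ℝ := fun b' a => (sigm K ε T (Sum.inr a)) (Sum.inr b') with hS3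
  -- M * sqrt K ≤ K
  have hMs : M * √K ≤ K := by
    have : M ≤ √K := by
      apply Real.le_sqrt_of_sq_le
      have h1 : M ^ 2 ≤ M ^ 4 := pow_le_pow_right₀ hM (by norm_num)
      have h2 : 0 < M ^ 4 := by positivity
      nlinarith
    calc M * √K ≤ √K * √K := mul_le_mul_of_nonneg_right this hs.le
      _ = K := by rw [← pow_two, hs2]
  have hMK' : M ≤ K := b.M_le
  -- sparsity
  have hsp : ∀ i, (Finset.univ.filter (fun j => sigm K ε T i j ≠ 0)).card ≤ s := fun i =>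
    card_pk_le hKp h.hε _ hs1
  have hspl : ∀ i, (Finset.univ.filter (fun j : Fin p => sigm K ε T i (Sum.inl j) ≠ 0)).card ≤ s := by
    intro i
    refine le_trans ?_ (hsp i)
    apply Finset.card_le_card_of_injOn Sum.inl
    · intro j hj
      simpa using hj
    · intro a _ b _ hab
      exact Sum.inl_injective hab
  have hspr : ∀ i, (Finset.univ.filter (fun j : Fin p => sigm K ε T i (Sum.inr j) ≠ 0)).card ≤ s := by
    intro i
    refine le_trans ?_ (hsp i)
    apply Finset.card_le_card_of_injOn Sum.inr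
    · intro j hj
      simpa using hj
    · intro a _ b _ hab
      exact Sum.inr_injective hab
  have hc1 : ∀ i, (Finset.univ.filter (fun j => S₁ j i ≠ 0)).card ≤ s := fun i => hspl _
  have hc3 : ∀ i, (Finset.univ.filter (fun j => S₃ j i ≠ 0)).card ≤ s := fun i => hspr _
  have hc2 : ∀ i, (Finset.univ.filter (fun j => S₂ j i ≠ 0)).card ≤ s := by
    intro i
    refine le_trans (Finset.card_le_card ?_) (hspl (Sum.inr i))
    intro j hj
    rw [Finset.mem_filter] at hj ⊢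
    refine ⟨hj.1, fun hz => hj.2 ?_⟩
    simp only [hS2, hz, mul_zero]
  -- bounds
  have hbb : ∀ i j, |sigm K ε T i j| ≤ M := fun i j =>
    (eu_abs_le_norm _ _).trans (b.norm_sigm h i)
  have hb1 : ∀ j i, |S₁ j i| ≤ K := fun j i => (hbb _ _).trans hMK'
  have hb3 : ∀ j i, |S₃ j i| ≤ K := fun j i => (hbb _ _).trans hMK'
  have hb2 : ∀ j i, |S₂ j i| ≤ K := by
    intro j i
    simp only [hS2, abs_mul, abs_of_pos hs]
    have := mul_le_mul_of_nonneg_left (hbb (Sum.inr i) (Sum.inl j)) hs.le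
    linarith
  -- h3
  have h3 : ∀ i, ∑ j, S₁ j i ^ 2 ≤ M ^ 2 := by
    intro i
    have g1 : ∑ j, S₁ j i ^ 2 = ‖prl p (sigm K ε T (Sum.inl i))‖ ^ 2 := by
      rw [eu_norm_sq]; rfl
    rw [g1]
    exact pow_le_pow_left₀ (norm_nonneg _) ((norm_prl_le _).trans (b.norm_sigm h _)) 2
  -- h1
  have h1 : ∑ j, ∑ i, (Zm j i - S₁ j i) ^ 2 ≤ 444 * M ^ 2 * (1 / √K) ^ 2 * p := by
    rw [hδ2, Finset.sum_comm]
    have g1 : ∀ i, ∑ j, (Zm j i - S₁ j i) ^ 2
        = ‖ZL ω K T (EuclideanSpace.single i (1 : ℝ)) - prl p (sigm K ε T (Sum.inl i))‖ ^ 2 := by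
      intro i
      rw [eu_norm_sq]; rfl
    simp only [g1]
    have g2 := b.err_avg h (inlL p) norm_inlL h.pk_inl
    calc _ ≤ ∑ i : Fin p, (3 * (‖lamL ω (1 / √K) K (T (GamL ω (1 / √K) K
            (inlL p (EuclideanSpace.single i (1 : ℝ)))))‖ ^ 2
            / K ^ 2) + 3 * (M ^ 2 / K ^ 2) + 432 * (M ^ 2 / K)) :=
          Finset.sum_le_sum fun i _ => b.col_inl h i
      _ = 3 / K ^ 2 * (∑ i : Fin p, ‖lamL ω (1 / √K) K (T (GamL ω (1 / √K) K
            (inlL p (EuclideanSpace.single i (1 : ℝ)))))‖ ^ 2)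
            + (3 * (M ^ 2 / K ^ 2) + 432 * (M ^ 2 / K)) * p := by
          rw [Finset.sum_add_distrib, Finset.sum_add_distrib, Finset.mul_sum]
          simp only [Finset.sum_const, Finset.card_univ, Fintype.card_fin, nsmul_eq_mul]
          have : ∀ x : ℝ, 3 * (x / K ^ 2) = 3 / K ^ 2 * x := fun x => by ring
          simp only [this]
          ring
      _ ≤ 3 / K ^ 2 * (3 * M ^ 2 * p) + (3 * (M ^ 2 / K ^ 2) + 432 * (M ^ 2 / K)) * p := by
          have := mul_le_mul_of_nonneg_left g2 (show 0 ≤ 3 / K ^ 2 by positivity)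
          linarith
      _ = (12 * (1 / K ^ 2) + 432 * (1 / K)) * (M ^ 2 * p) := by ring
      _ ≤ (12 * (1 / K) + 432 * (1 / K)) * (M ^ 2 * p) := by
          apply mul_le_mul_of_nonneg_right _ (by positivity)
          have : 1 / K ^ 2 ≤ 1 / K := by
            apply one_div_le_one_div_of_le hKp
            nlinarith
          linarith
      _ = 444 * M ^ 2 * (1 / K) * p := by ring
  -- h2
  have h2 : ∑ j, ∑ a, ((∑ i, Zm j i * ω i a) / √(p : ℝ) - S₂ j a
      - (∑ b', ω j b' * S₃ b' a) / √(p : ℝ)) ^ 2 ≤ 8 * M ^ 2 * (1 / √K) ^ 2 * p := by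
    rw [hδ2, Finset.sum_comm]
    have g1 : ∀ a, ∑ j, ((∑ i, Zm j i * ω i a) / √(p : ℝ) - S₂ j a
        - (∑ b', ω j b' * S₃ b' a) / √(p : ℝ)) ^ 2
        = ‖ZL ω K T (WL ω (EuclideanSpace.single a (1 : ℝ))) - √K • prl p (sigm K ε T (Sum.inr a))
          - WL ω (prr p (sigm K ε T (Sum.inr a)))‖ ^ 2 := by
      intro a
      rw [eu_norm_sq]
      apply Finset.sum_congr rfl
      intro j _
      congr 1
      rw [PiLp.sub_apply, PiLp.sub_apply, PiLp.smul_apply, WL_apply, lin_coord]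
      simp only [smul_eq_mul, prl_apply, prr_apply, hS2, hS3, hZm]
      congr 2
      rw [Finset.sum_div]
      apply Finset.sum_congr rfl
      intro i _
      rw [WL_apply]
      have : ∑ a', ω i a' * (EuclideanSpace.single a (1 : ℝ)) a' = ω i a := by
        simp
      rw [this]; ring
    simp only [g1]
    have g2 := b.err_avg h (inrL p) norm_inrL h.pk_inr
    calc _ ≤ ∑ i : Fin p, (2 * (‖lamL ω (1 / √K) K (T (GamL ω (1 / √K) K
            (inrL p (EuclideanSpace.single i (1 : ℝ)))))‖ ^ 2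
            / K) + 2 * (M ^ 2 / K)) :=
          Finset.sum_le_sum fun i _ => b.col_inr h i
      _ = 2 / K * (∑ i : Fin p, ‖lamL ω (1 / √K) K (T (GamL ω (1 / √K) K
            (inrL p (EuclideanSpace.single i (1 : ℝ)))))‖ ^ 2)
            + (2 * (M ^ 2 / K)) * p := by
          rw [Finset.sum_add_distrib, Finset.mul_sum]
          simp only [Finset.sum_const, Finset.card_univ, Fintype.card_fin, nsmul_eq_mul]
          have : ∀ x : ℝ, 2 * (x / K) = 2 / K * x := fun x => by ring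
          simp only [this]
          ring
      _ ≤ 2 / K * (3 * M ^ 2 * p) + (2 * (M ^ 2 / K)) * p := by
          have := mul_le_mul_of_nonneg_left g2 (show 0 ≤ 2 / K by positivity)
          linarith
      _ = 8 * M ^ 2 * (1 / K) * p := by ring
  have hκ : 1 / K ≤ M ^ 2 * (1 / √K) ^ 2 := by
    rw [hδ2]
    have : 1 ≤ M ^ 2 := one_le_pow₀ hM
    have h0 : 0 < 1 / K := by positivity
    nlinarith
  have hsL' : (s : ℝ) ≤ (1 / √K) ^ 2 * (L + 1) := by
    rw [hδ2]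
    calc (s : ℝ) ≤ (L + 1) / K := hsL
      _ = _ := by ring
  have hδ1 : 1 / √K ≤ 1 := by
    rw [div_le_one hs]; linarith
  have := trace_sq_lower hp (by linarith : (0 : ℝ) ≤ M) (by positivity : 0 ≤ 1 / √K) hδ1 h.hω hR hκ
    hsL' Zm S₁ S₂ S₃ h1 h2 h3 hc1 hc2 hc3 hb1 hb2 hb3
  exact this

end

end Pool.Agent.Helper95
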