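import Mathlib
import Pool.Agent.Helper95.Block2

/-!
The finite dimensional block theorem, third part.
-/

open Finset

namespace Pool.Agent.Helper95

lemma avg_inner_lin {p : ℕ} (hp : 0 < p) (L : EY p →ₗ[ℝ] EY p) :
    avg (fun e : Fin p → Bool => inner ℝ (rv e) (L (rv e)))
      = (1 / p) * ∑ i, (L (EuclideanSpace.single i (1 : ℝ))) i := by
  have hp' : (0 : ℝ) < p := by exact_mod_cast hp
  have h1 : ∀ e : Fin p → Bool, inner ℝ (rv e) (L (rv e))
      = (1 / p) * ∑ i, ∑ j, sg (e i) * sg (e j) * (L (EuclideanSpace.single j (1 : ℝ))) i := by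
    intro e
    rw [PiLp.inner_apply, Finset.mul_sum]
    apply Finset.sum_congr rfl
    intro i _
    rw [lin_coord]
    simp only [rv, PiLp.smul_apply, smul_eq_mul, RCLike.inner_apply, conj_trivial]
    rw [Finset.sum_mul, Finset.mul_sum]
    apply Finset.sum_congr rfl
    intro j _
    have : (1 / √(p : ℝ)) * (1 / √(p : ℝ)) = 1 / p := by
      rw [div_mul_div_comm, one_mul, Real.mul_self_sqrt hp'.le]
    linear_combination (sg (e i) * sg (e j) * (L (EuclideanSpace.single j (1 : ℝ))) i) * this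
  simp only [h1]
  rw [avg_mul_left, avg_quad (fun i j => (L (EuclideanSpace.single j (1 : ℝ))) i)]

section

variable {p : ℕ} {ω : Fin p → Fin p → ℝ} {K ε M : ℝ}
  {T : (EY p × EX p) →ₗ[ℝ] (EY p × EX p)}

/-- second moment of the `C` part -/
lemma BddOp.C_avg (h : GoodBlock p ω K ε) (b : BddOp ω K ε M T) :
    avg (fun e : Fin p → Bool => ‖(T (rv e, 0)).2‖ ^ 2) ≤ 4 * M ^ 2 / K ^ 2 := by
  have hKp := h.K_pos
  have hM := b.hM
  have hp' : (0 : ℝ) < p := by exact_mod_cast h.p_pos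
  set D : EY p →ₗ[ℝ] EX p := LinearMap.snd ℝ _ _ ∘ₗ T ∘ₗ LinearMap.inr ℝ _ _ ∘ₗ inlL p with hD
  have h1 := avg_lin_rv D
  have h2 : ∀ i, ‖D (EuclideanSpace.single i (1 : ℝ))‖ ^ 2 ≤ M ^ 2 := by
    intro i
    have g : D (EuclideanSpace.single i (1 : ℝ))
        = (T (0, EuclideanSpace.single (Sum.inl i) (1 : ℝ))).2 := by
      rw [← inlL_single]; rfl
    rw [g]
    exact pow_le_pow_left₀ (norm_nonneg _) (b.norm_D h _) 2
  have h3 : avg (fun e : Fin p → Bool => ‖D (rv e)‖ ^ 2) ≤ M ^ 2 := by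
    rw [h1]
    calc (1 / (p : ℝ)) * ∑ i, ‖D (EuclideanSpace.single i (1 : ℝ))‖ ^ 2
        ≤ (1 / (p : ℝ)) * ∑ i : Fin p, M ^ 2 :=
          mul_le_mul_of_nonneg_left (Finset.sum_le_sum fun i _ => h2 i) (by positivity)
      _ = M ^ 2 := by simp; field_simp
  have h4 : ∀ e : Fin p → Bool, ‖(T (rv e, 0)).2‖ ^ 2
      ≤ (1 / K ^ 2) * (2 * M ^ 2 + 2 * ‖D (rv e)‖ ^ 2) := by
    intro e
    have g1 : K • (T (rv e, 0)).2 = (T (GamL ω (1 / √K) K (inlL p (rv e)))).2 - D (rv e) := by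
      have : D (rv e) = (T (0, inlL p (rv e))).2 := rfl
      rw [this, ← Prod.snd_sub, ← map_sub, ← Prod.smul_snd, ← map_smul]
      congr 2
      rw [GamL_apply, Gm_inlL]
      ext1 <;> simp
    have g2 : ‖(T (GamL ω (1 / √K) K (inlL p (rv e)))).2‖ ≤ M := by
      have k1 := norm_snd_le_tn (ω := ω) (γ := 1 / √K) (K := K) (ε := ε)
        (T (GamL ω (1 / √K) K (inlL p (rv e))))
      have k2 := b.hT (GamL ω (1 / √K) K (inlL p (rv e)))
      have k3 := tn_Gam_le (ε := ε) h.hω h.γ_nonneg h.γ_small hKp (inlL p (rv e))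
      rw [h.pk_inl e, norm_inlL, rv_norm h.p_pos, norm_zero, mul_zero, add_zero] at k3
      have k4 : M * tn ω (1 / √K) K ε (GamL ω (1 / √K) K (inlL p (rv e))) ≤ M * 1 :=
        mul_le_mul_of_nonneg_left k3 (by linarith)
      linarith
    have g3 : K ^ 2 * ‖(T (rv e, 0)).2‖ ^ 2 ≤ 2 * M ^ 2 + 2 * ‖D (rv e)‖ ^ 2 := by
      have k1 : K ^ 2 * ‖(T (rv e, 0)).2‖ ^ 2 = ‖K • (T (rv e, 0)).2‖ ^ 2 := by
        rw [norm_smul, mul_pow, Real.norm_eq_abs, sq_abs]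
      rw [k1, g1]
      have k2 := norm_sub_le (T (GamL ω (1 / √K) K (inlL p (rv e)))).2 (D (rv e))
      have k3 : ‖(T (GamL ω (1 / √K) K (inlL p (rv e)))).2 - D (rv e)‖ ≤ M + ‖D (rv e)‖ := by
        linarith
      have k4 := pow_le_pow_left₀ (norm_nonneg _) k3 2
      nlinarith [sq_nonneg (M - ‖D (rv e)‖)]
    rw [one_div, ← div_eq_inv_mul, le_div_iff₀ (by positivity)]
    linarith
  have h5 := avg_mono h4
  rw [avg_mul_left, avg_add, avg_const, avg_mul_left] at h5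
  have h6 : (1 / K ^ 2) * (2 * M ^ 2 + 2 * avg (fun e : Fin p → Bool => ‖D (rv e)‖ ^ 2))
      ≤ (1 / K ^ 2) * (4 * M ^ 2) := by
    apply mul_le_mul_of_nonneg_left _ (by positivity)
    linarith
  have h7 : (1 / K ^ 2) * (4 * M ^ 2) = 4 * M ^ 2 / K ^ 2 := by ring
  linarith

lemma BddOp.errC_avg (h : GoodBlock p ω K ε) (b : BddOp ω K ε M T) :
    avg (fun e : Fin p → Bool =>
      ‖lamL ω (1 / √K) K (T (GamL ω (1 / √K) K (T (rv e, 0)).2))‖ ^ 2) ≤ 15 * M ^ 4 / K ^ 2 := by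
  have hK := h.hK
  have hKp := h.K_pos
  have hM := b.hM
  have hMK := b.M_le
  have hp' : (0 : ℝ) < p := by exact_mod_cast h.p_pos
  set C : EY p →ₗ[ℝ] EX p := LinearMap.snd ℝ _ _ ∘ₗ T ∘ₗ LinearMap.inl ℝ _ _ with hC
  set D : EY p →ₗ[ℝ] EX p := LinearMap.snd ℝ _ _ ∘ₗ T ∘ₗ GamL ω (1 / √K) K ∘ₗ C with hD
  have hCb : ∀ x, ‖C x‖ ≤ M * ‖x‖ := by
    intro x
    have k1 := norm_snd_le_tn (ω := ω) (γ := 1 / √K) (K := K) (ε := ε) (T (x, 0))
    have k2 := b.hT (x, 0)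
    rw [tn_inl] at k2
    exact k1.trans k2
  have hK3 : K ≤ 3 * K ^ 3 := by
    have : K ≤ K ^ 3 := le_self_pow₀ (by linarith) (by norm_num)
    have : 0 < K ^ 3 := by positivity
    linarith
  have hCb' : ∀ x, ‖C x‖ ≤ 3 * K ^ 3 * ‖x‖ := by
    intro x
    refine (hCb x).trans ?_
    apply mul_le_mul_of_nonneg_right _ (norm_nonneg _)
    linarith
  have hDb : ∀ x, ‖D x‖ ≤ 3 * K ^ 3 * ‖x‖ := by
    intro x
    have k1 := b.bound1 h (C x)
    have k2 := hCb x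
    have k3 : D x = (T (GamL ω (1 / √K) K (C x))).2 := rfl
    rw [k3]
    have k4 : 3 * K ^ 2 * ‖C x‖ ≤ 3 * K ^ 2 * (K * ‖x‖) := by
      apply mul_le_mul_of_nonneg_left _ (by positivity)
      have := mul_le_mul_of_nonneg_right hMK (norm_nonneg x)
      linarith
    have k5 : 3 * K ^ 2 * (K * ‖x‖) = 3 * K ^ 3 * ‖x‖ := by ring
    linarith
  have s1 := h.spread C hCb'
  have s2 := h.spread D hDb
  have s3 : avg (fun e : Fin p → Bool => ‖C (rv e)‖ ^ 2) ≤ 4 * M ^ 2 / K ^ 2 := b.C_avg h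
  have h4 : ∀ e : Fin p → Bool,
      ‖lamL ω (1 / √K) K (T (GamL ω (1 / √K) K (T (rv e, 0)).2))‖ ^ 2
      ≤ (3 * M ^ 2) * ‖C (rv e)‖ ^ 2 + (12 * K ^ 2 * M ^ 2) * ‖pk K ε (C (rv e))‖ ^ 2
        + (12 * K ^ 2) * ‖pk K ε (D (rv e))‖ ^ 2 := by
    intro e
    have e1 : (T (rv e, 0)).2 = C (rv e) := rfl
    rw [e1]
    have g1 := norm_lamL_le (ε := ε) h.hω h.γ_nonneg h.γ_small hKp
      (T (GamL ω (1 / √K) K (C (rv e))))
    have g2 := b.hT (GamL ω (1 / √K) K (C (rv e)))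
    have g3 := tn_Gam_le (ε := ε) h.hω h.γ_nonneg h.γ_small hKp (C (rv e))
    have g4 := mul_le_mul_of_nonneg_left g3 (show 0 ≤ M by linarith)
    have e2 : (T (GamL ω (1 / √K) K (C (rv e)))).2 = D (rv e) := rfl
    rw [e2] at g1
    set a := ‖C (rv e)‖
    set c := ‖pk K ε (C (rv e))‖
    set d := ‖pk K ε (D (rv e))‖
    have g5 : ‖lamL ω (1 / √K) K (T (GamL ω (1 / √K) K (C (rv e))))‖
        ≤ M * a + 2 * K * M * c + 2 * K * d := by linarith
    have g6 := pow_le_pow_left₀ (norm_nonneg _) g5 2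
    nlinarith [sq_nonneg (M * a - 2 * K * M * c), sq_nonneg (M * a - 2 * K * d),
      sq_nonneg (2 * K * M * c - 2 * K * d)]
  have h5 := avg_mono h4
  rw [avg_add, avg_add, avg_mul_left, avg_mul_left, avg_mul_left] at h5
  have h6 := mul_le_mul_of_nonneg_left s3 (show 0 ≤ 3 * M ^ 2 by positivity)
  have h7 := mul_le_mul_of_nonneg_left s1 (show 0 ≤ 12 * K ^ 2 * M ^ 2 by positivity)
  have h8 := mul_le_mul_of_nonneg_left s2 (show 0 ≤ 12 * K ^ 2 by positivity)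
  have e6 : 3 * M ^ 2 * (4 * M ^ 2 / K ^ 2) = 12 * M ^ 4 / K ^ 2 := by ring
  have e7 : 12 * K ^ 2 * M ^ 2 * (1 / (8 * K ^ 4)) = (3 / 2) * M ^ 2 / K ^ 2 := by
    field_simp; ring
  have e8 : 12 * K ^ 2 * (1 / (8 * K ^ 4)) = (3 / 2) / K ^ 2 := by
    field_simp; ring
  rw [e6] at h6
  rw [e7] at h7
  rw [e8] at h8
  have e9 : 12 * M ^ 4 / K ^ 2 + (3 / 2) * M ^ 2 / K ^ 2 + (3 / 2) / K ^ 2 ≤ 15 * M ^ 4 / K ^ 2 := by
    rw [← add_div, ← add_div]
    apply div_le_div_of_nonneg_right _ (by positivity)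
    have m2 : 1 ≤ M ^ 2 := one_le_pow₀ hM
    nlinarith
  linarith

theorem BddOp.block_main (h : GoodBlock p ω K ε) (b : BddOp ω K ε M T) :
    1 / 16 < avg (fun e : Fin p → Bool =>
      ‖rv e + lamL ω (1 / √K) K (T (T (rv e, 0)))‖ ^ 2) := by
  by_contra hcon
  push Not at hcon
  have hK := h.hK
  have hKp := h.K_pos
  have hM := b.hM
  have hMK := b.hMK
  have hp := h.p_pos
  have hp' : (0 : ℝ) < p := by exact_mod_cast hp
  have hs : 0 < √K := Real.sqrt_pos.mpr hKp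
  have hs2 : √K ^ 2 = K := Real.sq_sqrt hKp.le
  -- the trace part
  have t1 := b.trace_lower h
  have t2 : avg (fun e : Fin p → Bool => inner ℝ (rv e) (ZL ω K T (ZL ω K T (rv e))))
      = (1 / p) * ∑ i, ∑ j, (ZL ω K T (EuclideanSpace.single j (1 : ℝ))) i
      * (ZL ω K T (EuclideanSpace.single i (1 : ℝ))) j := by
    have g := avg_inner_lin hp (ZL ω K T ∘ₗ ZL ω K T)
    have g2 : ∀ i, ((ZL ω K T ∘ₗ ZL ω K T) (EuclideanSpace.single i (1 : ℝ))) i
        = ∑ j, (ZL ω K T (EuclideanSpace.single j (1 : ℝ))) i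
          * (ZL ω K T (EuclideanSpace.single i (1 : ℝ))) j := by
      intro i
      rw [LinearMap.comp_apply, lin_coord]
      apply Finset.sum_congr rfl
      intro j _
      ring
    simp only [g2] at g
    exact g
  have t3 : -(5600 * M ^ 2 * (1 / √K))
      ≤ avg (fun e : Fin p → Bool => inner ℝ (rv e) (ZL ω K T (ZL ω K T (rv e)))) := by
    rw [t2]
    have := mul_le_mul_of_nonneg_left t1 (show 0 ≤ 1 / (p : ℝ) by positivity)
    calc -(5600 * M ^ 2 * (1 / √K)) = (1 / (p : ℝ)) * (-(5600 * M ^ 2 * (1 / √K) * p)) := by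
          field_simp
      _ ≤ _ := this
  -- pointwise identity
  have id1 : ∀ e : Fin p → Bool,
      lamL ω (1 / √K) K (T (T (rv e, 0))) = ZL ω K T (ZL ω K T (rv e))
        + lamL ω (1 / √K) K (T (GamL ω (1 / √K) K (T (rv e, 0)).2)) := by
    intro e
    have g := decomp ω (1 / √K) K (T (rv e, 0))
    conv_lhs => rw [g]
    rw [map_add, map_add]
    rfl
  -- pointwise inequality
  set F : (Fin p → Bool) → ℝ := fun e => ‖rv e + lamL ω (1 / √K) K (T (T (rv e, 0)))‖ with hF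
  set R : (Fin p → Bool) → ℝ := fun e =>
    ‖lamL ω (1 / √K) K (T (GamL ω (1 / √K) K (T (rv e, 0)).2))‖ with hRR
  have pt : ∀ e : Fin p → Bool,
      1 + inner ℝ (rv e) (ZL ω K T (ZL ω K T (rv e))) ≤ (1 / 8 + 2 * F e ^ 2)
        + (1 / 16 + 4 * R e ^ 2) := by
    intro e
    have g0 : ‖rv e‖ = 1 := rv_norm hp e
    have g1 : inner ℝ (rv e) (rv e + lamL ω (1 / √K) K (T (T (rv e, 0)))) ≤ F e := by
      have := real_inner_le_norm (rv e) (rv e + lamL ω (1 / √K) K (T (T (rv e, 0))))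
      rw [g0, one_mul] at this
      exact this
    have g2 : -R e ≤ inner ℝ (rv e)
        (lamL ω (1 / √K) K (T (GamL ω (1 / √K) K (T (rv e, 0)).2))) := by
      have := abs_real_inner_le_norm (rv e)
        (lamL ω (1 / √K) K (T (GamL ω (1 / √K) K (T (rv e, 0)).2)))
      rw [g0, one_mul] at this
      exact (abs_le.mp this).1
    have g3 : inner ℝ (rv e) (rv e + lamL ω (1 / √K) K (T (T (rv e, 0))))
        = 1 + inner ℝ (rv e) (ZL ω K T (ZL ω K T (rv e))) + inner ℝ (rv e)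
        (lamL ω (1 / √K) K (T (GamL ω (1 / √K) K (T (rv e, 0)).2))) := by
      rw [id1, inner_add_right, inner_add_right, real_inner_self_eq_norm_sq, g0]
      ring
    nlinarith [sq_nonneg (4 * F e - 1), sq_nonneg (8 * R e - 1)]
  have av := avg_mono pt
  rw [avg_add, avg_const, avg_add, avg_add, avg_add, avg_const, avg_const, avg_mul_left,
    avg_mul_left] at av
  have s1 : avg (fun e : Fin p → Bool => R e ^ 2) ≤ 15 * M ^ 4 / K ^ 2 := b.errC_avg h
  have s2 : avg (fun e : Fin p → Bool => F e ^ 2) ≤ 1 / 16 := hcon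
  -- numeric contradiction
  have m1 : M ^ 2 * (1 / √K) ≤ 1 / 10000 := by
    have q1 : 10 ^ 4 * M ^ 2 ≤ √K := by
      apply Real.le_sqrt_of_sq_le
      have : (10 ^ 4 * M ^ 2) ^ 2 = 10 ^ 8 * M ^ 4 := by ring
      rw [this]; exact hMK
    rw [mul_one_div, div_le_div_iff₀ hs (by norm_num)]
    linarith
  have m2 : 15 * M ^ 4 / K ^ 2 ≤ 1 / 1000 := by
    rw [div_le_div_iff₀ (by positivity) (by norm_num)]
    nlinarith [pow_pos (show (0 : ℝ) < M by linarith) 4]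
  linarith

end

end Pool.Agent.Helper95
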