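import Mathlib
import Pool.Agent.Helper95.Block3

/-!
The normed space of a block.
-/

open Finset

namespace Pool.Agent.Helper95

lemma kp_neg {ι : Type*} [Fintype ι] (K ε : ℝ) (x : EuclideanSpace ℝ ι) :
    kp K ε (-x) = - kp K ε x := by
  have := kp_smul K ε (-1) x
  simpa using this

lemma kp_quasi {ι κ : Type*} [Fintype ι] (K ε : ℝ) (hε : 0 ≤ ε) (s : Finset κ)
    (x : κ → EuclideanSpace ℝ ι) :
    ‖kp K ε (∑ k ∈ s, x k) - ∑ k ∈ s, kp K ε (x k)‖
      ≤ 2 * ε * (‖∑ k ∈ s, x k‖ + ∑ k ∈ s, ‖x k‖) := by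
  classical
  set S := ∑ k ∈ s, x k with hS
  let y : Option κ → EuclideanSpace ℝ ι := fun o => o.elim (-S) x
  have h0 : ∑ o ∈ Finset.insertNone s, y o = 0 := by
    rw [Finset.sum_insertNone]
    change -S + ∑ k ∈ s, x k = 0
    rw [← hS]; abel
  have h1 := kp_zero_lin K ε hε (Finset.insertNone s) y h0
  rw [Finset.sum_insertNone, Finset.sum_insertNone] at h1
  change ‖kp K ε (-S) + ∑ k ∈ s, kp K ε (x k)‖ ≤ 2 * ε * (‖-S‖ + ∑ k ∈ s, ‖x k‖) at h1
  rw [kp_neg, norm_neg] at h1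
  have h2 : ‖kp K ε S - ∑ k ∈ s, kp K ε (x k)‖ = ‖-kp K ε S + ∑ k ∈ s, kp K ε (x k)‖ := by
    rw [← norm_neg]; congr 1; abel
  rw [h2]; exact h1

section

variable {p : ℕ} {ω : Fin p → Fin p → ℝ} {γ K ε : ℝ}

lemma Om_quasi (hω : BilBound p ω) (hγ : 0 ≤ γ) (hγ1 : 12 * γ ≤ 1) (hε : 0 ≤ ε) {κ : Type*}
    (s : Finset κ) (x : κ → EX p) :
    ‖Om ω γ K ε (∑ k ∈ s, x k) - ∑ k ∈ s, Om ω γ K ε (x k)‖
      ≤ 4 * ε * (‖∑ k ∈ s, x k‖ + ∑ k ∈ s, ‖x k‖) := by
  unfold Om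
  rw [← map_sum, ← map_sub]
  have h1 := norm_Gm_le hω hγ hγ1 (kp K ε (∑ k ∈ s, x k) - ∑ k ∈ s, kp K ε (x k))
  have h2 := kp_quasi K ε hε s x
  linarith

lemma tn_convex (hω : BilBound p ω) (hγ : 0 ≤ γ) (hγ1 : 12 * γ ≤ 1) (hε : 0 ≤ ε)
    (hε8 : ε ≤ 1 / 8) {z : EY p × EX p}
    (hz : z ∈ convexHull ℝ {w : EY p × EX p | tn ω γ K ε w ≤ 1}) : tn ω γ K ε z ≤ 2 := by
  rw [mem_convexHull_iff_exists_fintype] at hz
  obtain ⟨ι, _, w, v, hw0, hw1, hv, rfl⟩ := hz
  have hfst : (∑ i, w i • v i).1 = ∑ i, w i • (v i).1 := by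
    rw [Prod.fst_sum]; rfl
  have hsnd : (∑ i, w i • v i).2 = ∑ i, w i • (v i).2 := by
    rw [Prod.snd_sum]; rfl
  unfold tn
  rw [hfst, hsnd]
  set X := ∑ i, w i • (v i).2 with hX
  have e1 : ∑ i, w i • (v i).1 - Om ω γ K ε X
      = ∑ i, w i • ((v i).1 - Om ω γ K ε (v i).2)
        - (Om ω γ K ε X - ∑ i, Om ω γ K ε (w i • (v i).2)) := by
    simp only [Om_smul, smul_sub, Finset.sum_sub_distrib]; abel
  have n1 : ‖∑ i, w i • ((v i).1 - Om ω γ K ε (v i).2)‖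
      ≤ ∑ i, w i * ‖(v i).1 - Om ω γ K ε (v i).2‖ := by
    refine (norm_sum_le _ _).trans (le_of_eq ?_)
    apply Finset.sum_congr rfl
    intro i _
    rw [norm_smul, Real.norm_eq_abs, abs_of_nonneg (hw0 i)]
  have n2 : ‖X‖ ≤ ∑ i, w i * ‖(v i).2‖ := by
    refine (norm_sum_le _ _).trans (le_of_eq ?_)
    apply Finset.sum_congr rfl
    intro i _
    rw [norm_smul, Real.norm_eq_abs, abs_of_nonneg (hw0 i)]
  have n3 := Om_quasi (K := K) hω hγ hγ1 hε Finset.univ (fun i => w i • (v i).2)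
  rw [← hX] at n3
  have n4 : ∑ i, ‖w i • (v i).2‖ = ∑ i, w i * ‖(v i).2‖ := by
    apply Finset.sum_congr rfl
    intro i _
    rw [norm_smul, Real.norm_eq_abs, abs_of_nonneg (hw0 i)]
  rw [n4] at n3
  have n5 : ∑ i, w i * ‖(v i).1 - Om ω γ K ε (v i).2‖ + ∑ i, w i * ‖(v i).2‖ ≤ 1 := by
    rw [← Finset.sum_add_distrib, ← hw1]
    apply Finset.sum_le_sum
    intro i _
    have := hv i
    simp only [Set.mem_ofPred_eq, tn] at this
    rw [← mul_add]
    nlinarith [hw0 i]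
  have n6 : 0 ≤ ∑ i, w i * ‖(v i).1 - Om ω γ K ε (v i).2‖ :=
    Finset.sum_nonneg fun i _ => mul_nonneg (hw0 i) (norm_nonneg _)
  have n7 : 0 ≤ ∑ i, w i * ‖(v i).2‖ :=
    Finset.sum_nonneg fun i _ => mul_nonneg (hw0 i) (norm_nonneg _)
  rw [e1]
  have n8 := norm_sub_le (∑ i, w i • ((v i).1 - Om ω γ K ε (v i).2))
    (Om ω γ K ε X - ∑ i, Om ω γ K ε (w i • (v i).2))
  have n9 : 4 * ε * (‖X‖ + ∑ i, w i * ‖(v i).2‖) ≤ (1 / 2) * (2 * ∑ i, w i * ‖(v i).2‖) := by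
    apply mul_le_mul _ _ _ (by norm_num)
    · linarith
    · linarith
    · positivity
  linarith

lemma absorbent_tn : Absorbent ℝ {w : EY p × EX p | tn ω γ K ε w ≤ 1} := by
  rw [absorbent_iff_eventually_nhdsNE_zero]
  intro z
  have h1 : Filter.Tendsto (fun c : ℝ => |c| * tn ω γ K ε z) (nhds 0) (nhds 0) := by
    have : Continuous (fun c : ℝ => |c| * tn ω γ K ε z) := by fun_prop
    have h2 := this.tendsto 0
    simpa using h2
  have h2 : ∀ᶠ c : ℝ in nhds 0, |c| * tn ω γ K ε z < 1 := h1.eventually_lt_const (by norm_num)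
  have h3 : ∀ᶠ c : ℝ in nhdsWithin 0 {0}ᶜ, |c| * tn ω γ K ε z < 1 :=
    h2.filter_mono nhdsWithin_le_nhds
  filter_upwards [h3] with c hc
  change tn ω γ K ε (c • z) ≤ 1
  rw [tn_smul]
  exact hc.le

lemma balanced_tn : Balanced ℝ {w : EY p × EX p | tn ω γ K ε w ≤ 1} := by
  rw [balanced_iff_smul_mem]
  intro a ha z hz
  simp only [Set.mem_ofPred_eq] at hz ⊢
  rw [tn_smul]
  rw [Real.norm_eq_abs] at ha
  have := tn_nonneg (ω := ω) (γ := γ) (K := K) (ε := ε) z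
  nlinarith [abs_nonneg a]

end

/-- the data of a block -/
structure Blk where
  p : ℕ
  ω : Fin p → Fin p → ℝ
  K : ℝ
  ε : ℝ
  good : GoodBlock p ω K ε
  hε8 : ε ≤ 1 / 8

namespace Blk

/-- quasi-norm of the block -/
noncomputable def t (b : Blk) (z : EY b.p × EX b.p) : ℝ := tn b.ω (1 / √b.K) b.K b.ε z

/-- the unit ball before closing -/
def ball (b : Blk) : Set (EY b.p × EX b.p) := convexHull ℝ {w | b.t w ≤ 1}

/-- the norm of the block -/
noncomputable def N (b : Blk) (z : EY b.p × EX b.p) : ℝ := gauge b.ball z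

variable (b : Blk)

lemma absorbent_ball : Absorbent ℝ b.ball :=
  absorbent_tn.mono (subset_convexHull ℝ _)

lemma convex_ball : Convex ℝ b.ball := convex_convexHull ℝ _

lemma balanced_ball : Balanced ℝ b.ball := Balanced.convexHull balanced_tn

lemma t_nonneg (z : EY b.p × EX b.p) : 0 ≤ b.t z := tn_nonneg z

lemma t_eq_zero {z : EY b.p × EX b.p} (h : b.t z = 0) : z = 0 := by
  unfold t tn at h
  have h1 : 0 ≤ ‖z.1 - Om b.ω (1 / √b.K) b.K b.ε z.2‖ := norm_nonneg _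
  have h2 : 0 ≤ ‖z.2‖ := norm_nonneg _
  have h3 : z.2 = 0 := norm_eq_zero.mp (by linarith)
  have h4 : z.1 - Om b.ω (1 / √b.K) b.K b.ε z.2 = 0 := norm_eq_zero.mp (by linarith)
  rw [h3, Om_zero, sub_zero] at h4
  ext1
  · exact h4
  · exact h3

lemma N_le_t (z : EY b.p × EX b.p) : b.N z ≤ b.t z := by
  rcases (b.t_nonneg z).eq_or_lt with h | h
  · have : z = 0 := b.t_eq_zero h.symm
    rw [← h, this, N, gauge_zero]
  · apply gauge_le_of_mem h.le
    refine ⟨(b.t z)⁻¹ • z, ?_, ?_⟩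
    · apply subset_convexHull ℝ _
      simp only [Set.mem_ofPred_eq, t]
      rw [tn_smul]
      change |(b.t z)⁻¹| * b.t z ≤ 1
      rw [abs_of_pos (inv_pos.mpr h), inv_mul_cancel₀ h.ne']
    · simp only
      rw [smul_smul, mul_inv_cancel₀ h.ne', one_smul]

lemma t_le_N (z : EY b.p × EX b.p) : b.t z ≤ 2 * b.N z := by
  apply le_of_forall_pos_lt_add
  intro δ hδ
  obtain ⟨r, hr0, hr1, c, hc, hcz⟩ := exists_lt_of_gauge_lt b.absorbent_ball
    (show gauge b.ball z < b.N z + δ / 2 by unfold N; linarith)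
  have h1 : b.t c ≤ 2 :=
    tn_convex b.good.hω b.good.γ_nonneg b.good.γ_small b.good.hε.le b.hε8 hc
  have h2 : b.t z = r * b.t c := by
    rw [← hcz]
    change tn _ _ _ _ (r • c) = _
    rw [tn_smul, abs_of_pos hr0]; rfl
  rw [h2]
  nlinarith

/-- the block as a type -/
def Sp (b : Blk) : Type := EY b.p × EX b.p

noncomputable instance : AddCommGroup b.Sp := inferInstanceAs (AddCommGroup (EY b.p × EX b.p))
noncomputable instance : Module ℝ b.Sp := inferInstanceAs (Module ℝ (EY b.p × EX b.p))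
noncomputable instance : Norm b.Sp := ⟨fun z => b.N z⟩

lemma norm_def (z : b.Sp) : ‖z‖ = b.N z := rfl

lemma core : NormedSpace.Core ℝ b.Sp where
  norm_nonneg z := gauge_nonneg z
  norm_smul c z := gauge_smul b.balanced_ball c z
  norm_triangle x y := gauge_add_le b.convex_ball b.absorbent_ball x y
  norm_eq_zero_iff z := by
    constructor
    · intro h
      have h1 := b.t_le_N z
      have h2 := b.t_nonneg z
      rw [norm_def] at h
      exact b.t_eq_zero (by linarith)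
    · intro h
      rw [h, norm_def]
      exact gauge_zero

noncomputable instance : NormedAddCommGroup b.Sp := NormedAddCommGroup.ofCore b.core
noncomputable instance : NormedSpace ℝ b.Sp := NormedSpace.ofCore b.core

instance : FiniteDimensional ℝ b.Sp :=
  inferInstanceAs (FiniteDimensional ℝ (EY b.p × EX b.p))

instance : CompleteSpace b.Sp := FiniteDimensional.complete ℝ b.Sp

end Blk

end Pool.Agent.Helper95
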