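import Mathlib
import Pool.Agent.Helper95.NormSp

/-!
Averaging estimates in a block: type two for few vectors, and smallness of a fixed block.
-/

open Finset

namespace Pool.Agent.Helper95

namespace Blk

variable (b : Blk)

lemma K_pos : 0 < b.K := b.good.K_pos

/-- quasi-type two for few vectors -/
lemma type2 {p : ℕ} (hp : 64 * b.ε ^ 2 * p ≤ 1) (v : Fin p → EY b.p × EX b.p) :
    avg (fun e : Fin p → Bool => b.t (∑ i, sg (e i) • v i) ^ 2) ≤ 8 * ∑ i, b.t (v i) ^ 2 := by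
  have hε := b.good.hε
  have hε8 := b.hε8
  set s := √(∑ i, ‖(v i).2‖ ^ 2) with hs
  have hs0 : 0 ≤ ∑ i, ‖(v i).2‖ ^ 2 := Finset.sum_nonneg fun _ _ => sq_nonneg _
  have hs2 : s ^ 2 = ∑ i, ‖(v i).2‖ ^ 2 := Real.sq_sqrt hs0
  have hsn : 0 ≤ s := Real.sqrt_nonneg _
  have h1 : 4 * b.ε * ∑ i, ‖(v i).2‖ ≤ s / 2 := by
    apply le_of_sq_le_sq _ (by positivity)
    have g1 : (∑ i, ‖(v i).2‖) ^ 2 ≤ p * ∑ i, ‖(v i).2‖ ^ 2 := by
      have := sq_sum_le_card_mul_sum_sq (s := (Finset.univ : Finset (Fin p)))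
        (f := fun i => ‖(v i).2‖)
      simpa using this
    have g2 : (4 * b.ε * ∑ i, ‖(v i).2‖) ^ 2 = 16 * b.ε ^ 2 * (∑ i, ‖(v i).2‖) ^ 2 := by ring
    rw [g2, div_pow, hs2]
    have g3 : 16 * b.ε ^ 2 * (∑ i, ‖(v i).2‖) ^ 2 ≤ 16 * b.ε ^ 2 * (p * ∑ i, ‖(v i).2‖ ^ 2) :=
      mul_le_mul_of_nonneg_left g1 (by positivity)
    have g4 : 16 * b.ε ^ 2 * (p * ∑ i, ‖(v i).2‖ ^ 2)
        = (64 * b.ε ^ 2 * p) * (∑ i, ‖(v i).2‖ ^ 2) / 4 := by ring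
    have g5 : (64 * b.ε ^ 2 * p) * (∑ i, ‖(v i).2‖ ^ 2) ≤ 1 * (∑ i, ‖(v i).2‖ ^ 2) :=
      mul_le_mul_of_nonneg_right hp hs0
    rw [g4] at g3
    linarith
  have key : ∀ e : Fin p → Bool, b.t (∑ i, sg (e i) • v i) ^ 2
      ≤ 3 * ‖∑ i, sg (e i) • ((v i).1 - Om b.ω (1 / √b.K) b.K b.ε (v i).2)‖ ^ 2
        + (27 / 4 * ‖∑ i, sg (e i) • (v i).2‖ ^ 2 + 3 / 4 * s ^ 2) := by
    intro e
    have hfst : (∑ i, sg (e i) • v i).1 = ∑ i, sg (e i) • (v i).1 := by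
      rw [Prod.fst_sum]; rfl
    have hsnd : (∑ i, sg (e i) • v i).2 = ∑ i, sg (e i) • (v i).2 := by
      rw [Prod.snd_sum]; rfl
    have e1 : (∑ i, sg (e i) • (v i).1) - Om b.ω (1 / √b.K) b.K b.ε (∑ i, sg (e i) • (v i).2)
        = ∑ i, sg (e i) • ((v i).1 - Om b.ω (1 / √b.K) b.K b.ε (v i).2)
          - (Om b.ω (1 / √b.K) b.K b.ε (∑ i, sg (e i) • (v i).2)
            - ∑ i, Om b.ω (1 / √b.K) b.K b.ε (sg (e i) • (v i).2)) := by
      simp only [Om_smul, smul_sub, Finset.sum_sub_distrib]; abel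
    have n3 := Om_quasi (K := b.K) b.good.hω b.good.γ_nonneg b.good.γ_small hε.le
      Finset.univ (fun i => sg (e i) • (v i).2)
    have n4 : ∑ i, ‖sg (e i) • (v i).2‖ = ∑ i, ‖(v i).2‖ := by
      apply Finset.sum_congr rfl
      intro i _
      rw [norm_smul, Real.norm_eq_abs, sg_abs, one_mul]
    rw [n4] at n3
    set A := ‖∑ i, sg (e i) • ((v i).1 - Om b.ω (1 / √b.K) b.K b.ε (v i).2)‖ with hA
    set C := ‖∑ i, sg (e i) • (v i).2‖ with hC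
    have hA0 : 0 ≤ A := norm_nonneg _
    have hC0 : 0 ≤ C := norm_nonneg _
    have n5 : b.t (∑ i, sg (e i) • v i) ≤ A + 3 / 2 * C + s / 2 := by
      unfold t tn
      rw [hfst, hsnd, e1]
      have n6 := norm_sub_le (∑ i, sg (e i) • ((v i).1 - Om b.ω (1 / √b.K) b.K b.ε (v i).2))
        (Om b.ω (1 / √b.K) b.K b.ε (∑ i, sg (e i) • (v i).2)
            - ∑ i, Om b.ω (1 / √b.K) b.K b.ε (sg (e i) • (v i).2))
      have n7 : 4 * b.ε * C ≤ 1 / 2 * C := mul_le_mul_of_nonneg_right (by linarith) hC0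
      linarith
    have n8 : b.t (∑ i, sg (e i) • v i) ^ 2 ≤ (A + 3 / 2 * C + s / 2) ^ 2 :=
      pow_le_pow_left₀ (b.t_nonneg _) n5 2
    nlinarith [sq_nonneg (A - 3 / 2 * C), sq_nonneg (A - s / 2), sq_nonneg (3 / 2 * C - s / 2)]
  have h2 := avg_mono key
  rw [avg_add, avg_add, avg_const, avg_mul_left, avg_mul_left, avg_norm_sq, avg_norm_sq, hs2] at h2
  refine h2.trans ?_
  rw [Finset.mul_sum, Finset.mul_sum, Finset.mul_sum, Finset.mul_sum, ← Finset.sum_add_distrib,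
    ← Finset.sum_add_distrib]
  apply Finset.sum_le_sum
  intro i _
  unfold t tn
  have q1 : 0 ≤ ‖(v i).1 - Om b.ω (1 / √b.K) b.K b.ε (v i).2‖ := norm_nonneg _
  have q2 : 0 ≤ ‖(v i).2‖ := norm_nonneg _
  nlinarith [mul_nonneg q1 q2, sq_nonneg ‖(v i).1 - Om b.ω (1 / √b.K) b.K b.ε (v i).2‖,
    sq_nonneg ‖(v i).2‖]

lemma type2_N {p : ℕ} (hp : 64 * b.ε ^ 2 * p ≤ 1) (v : Fin p → EY b.p × EX b.p) :
    avg (fun e : Fin p → Bool => b.N (∑ i, sg (e i) • v i) ^ 2) ≤ 32 * ∑ i, b.N (v i) ^ 2 := by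
  have h1 : avg (fun e : Fin p → Bool => b.N (∑ i, sg (e i) • v i) ^ 2)
      ≤ avg (fun e : Fin p → Bool => b.t (∑ i, sg (e i) • v i) ^ 2) := by
    apply avg_mono
    intro e
    exact pow_le_pow_left₀ (gauge_nonneg _) (b.N_le_t _) 2
  refine (h1.trans (b.type2 hp v)).trans ?_
  rw [Finset.mul_sum, Finset.mul_sum]
  apply Finset.sum_le_sum
  intro i _
  have h2 := b.t_le_N (v i)
  have h3 := b.t_nonneg (v i)
  have h4 : b.t (v i) ^ 2 ≤ (2 * b.N (v i)) ^ 2 := pow_le_pow_left₀ h3 h2 2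
  nlinarith

lemma t_le_sum (z : EY b.p × EX b.p) : b.t z ≤ ‖z.1‖ + (1 + 2 * b.K) * ‖z.2‖ := by
  unfold t tn
  have h1 := norm_sub_le z.1 (Om b.ω (1 / √b.K) b.K b.ε z.2)
  have h2 := norm_Om_le b.good.hω b.good.γ_nonneg b.good.γ_small b.K_pos b.good.hε.le z.2
  linarith

lemma norm_fst_le (z : EY b.p × EX b.p) : ‖z.1‖ ≤ (1 + 2 * b.K) * b.t z := by
  have h2 := norm_Om_le b.good.hω b.good.γ_nonneg b.good.γ_small b.K_pos b.good.hε.le z.2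
  have h3 : z.1 = (z.1 - Om b.ω (1 / √b.K) b.K b.ε z.2) + Om b.ω (1 / √b.K) b.K b.ε z.2 := by
    abel
  have h4 : ‖z.1‖ ≤ ‖z.1 - Om b.ω (1 / √b.K) b.K b.ε z.2‖ + ‖Om b.ω (1 / √b.K) b.K b.ε z.2‖ := by
    conv_lhs => rw [h3]
    exact norm_add_le _ _
  have h5 : 0 ≤ ‖z.1 - Om b.ω (1 / √b.K) b.K b.ε z.2‖ := norm_nonneg _
  have h6 : 0 ≤ ‖z.2‖ := norm_nonneg _
  have hK := b.K_pos
  have h7 := mul_nonneg hK.le h5
  unfold t tn
  nlinarith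

/-- a fixed block is small, in the second moment, when seen from a large block -/
lemma avg_small {p : ℕ} (C : ℝ) (hC : 0 ≤ C) (R : EY p →ₗ[ℝ] (EY b.p × EX b.p))
    (hR : ∀ y, b.t (R y) ≤ C * ‖y‖) :
    avg (fun e : Fin p → Bool => b.t (R (rv e)) ^ 2)
      ≤ 6 * b.p * (1 + 2 * b.K) ^ 2 * C ^ 2 / p := by
  have hK := b.K_pos
  set L1 : EY p →ₗ[ℝ] EY b.p := LinearMap.fst ℝ _ _ ∘ₗ R with hL1
  set L2 : EY p →ₗ[ℝ] EX b.p := LinearMap.snd ℝ _ _ ∘ₗ R with hL2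
  have e1 : ∀ y, L1 y = (R y).1 := fun _ => rfl
  have e2 : ∀ y, L2 y = (R y).2 := fun _ => rfl
  have b1 : ∀ y, ‖L1 y‖ ≤ ((1 + 2 * b.K) * C) * ‖y‖ := by
    intro y
    rw [e1]
    have g1 := b.norm_fst_le (R y)
    have g2 := mul_le_mul_of_nonneg_left (hR y) (show 0 ≤ 1 + 2 * b.K by positivity)
    calc _ ≤ _ := g1
      _ ≤ _ := g2
      _ = _ := by ring
  have b2 : ∀ y, ‖L2 y‖ ≤ C * ‖y‖ := by
    intro y
    rw [e2]
    exact (norm_snd_le_tn (R y)).trans (hR y)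
  have r1 := fun j => row_bound ((1 + 2 * b.K) * C) (by positivity) L1 b1 j
  have r2 := fun j => row_bound C hC L2 b2 j
  have a1 : avg (fun e : Fin p → Bool => ‖L1 (rv e)‖ ^ 2)
      ≤ (1 / p) * (b.p * ((1 + 2 * b.K) * C) ^ 2) := by
    rw [avg_lin_rv]
    apply mul_le_mul_of_nonneg_left _ (by positivity)
    simp only [eu_norm_sq]
    rw [Finset.sum_comm]
    calc ∑ j, ∑ i, (L1 (EuclideanSpace.single i (1 : ℝ)) j) ^ 2
        ≤ ∑ j : Fin b.p, ((1 + 2 * b.K) * C) ^ 2 := Finset.sum_le_sum fun j _ => r1 j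
      _ = b.p * ((1 + 2 * b.K) * C) ^ 2 := by
        rw [Finset.sum_const, Finset.card_univ, Fintype.card_fin, nsmul_eq_mul]
  have a2 : avg (fun e : Fin p → Bool => ‖L2 (rv e)‖ ^ 2)
      ≤ (1 / p) * (2 * b.p * C ^ 2) := by
    rw [avg_lin_rv]
    apply mul_le_mul_of_nonneg_left _ (by positivity)
    simp only [eu_norm_sq]
    rw [Finset.sum_comm]
    calc ∑ j, ∑ i, (L2 (EuclideanSpace.single i (1 : ℝ)) j) ^ 2
        ≤ ∑ j : Fin b.p ⊕ Fin b.p, C ^ 2 := Finset.sum_le_sum fun j _ => r2 j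
      _ = 2 * b.p * C ^ 2 := by
        rw [Finset.sum_const, Finset.card_univ, Fintype.card_sum, Fintype.card_fin, nsmul_eq_mul]
        push_cast; ring
  have key : ∀ e : Fin p → Bool, b.t (R (rv e)) ^ 2
      ≤ 2 * ‖L1 (rv e)‖ ^ 2 + 2 * (1 + 2 * b.K) ^ 2 * ‖L2 (rv e)‖ ^ 2 := by
    intro e
    have g1 := b.t_le_sum (R (rv e))
    rw [← e1, ← e2] at g1
    have g2 := pow_le_pow_left₀ (b.t_nonneg _) g1 2
    nlinarith [sq_nonneg (‖L1 (rv e)‖ - (1 + 2 * b.K) * ‖L2 (rv e)‖)]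
  have h1 := avg_mono key
  rw [avg_add, avg_mul_left, avg_mul_left] at h1
  refine h1.trans ?_
  have c1 := mul_le_mul_of_nonneg_left a1 (show (0 : ℝ) ≤ 2 by norm_num)
  have c2 := mul_le_mul_of_nonneg_left a2 (show (0 : ℝ) ≤ 2 * (1 + 2 * b.K) ^ 2 by positivity)
  calc _ ≤ _ := add_le_add c1 c2
    _ = _ := by ring

end Blk

end Pool.Agent.Helper95
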