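import Mathlib
import Pool.Agent.Helper95.Type2

/-!
The Hilbert sum of the blocks: it is a twisted Hilbert space.
-/

open Finset

namespace Pool.Agent.Helper95

open scoped ENNReal

/-- the Hilbert sum of a sequence of blocks -/
abbrev XX (b : ℕ → Blk) : Type := lp (fun n => (b n).Sp) 2

lemma lp_hasSum {E : ℕ → Type*} [∀ n, NormedAddCommGroup (E n)] (f : lp E 2) :
    HasSum (fun n => ‖f n‖ ^ 2) (‖f‖ ^ 2) := by
  have h := lp.hasSum_norm (p := 2) (by norm_num) f
  simpa using h

lemma memlp_two {E : ℕ → Type*} [∀ n, NormedAddCommGroup (E n)] {f : ∀ n, E n} :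
    Memℓp f 2 ↔ Summable (fun n => ‖f n‖ ^ 2) := by
  rw [memℓp_gen_iff (by norm_num)]
  simp

section Compare

variable {E F : ℕ → Type*} [∀ n, NormedAddCommGroup (E n)] [∀ n, NormedAddCommGroup (F n)]

lemma memlp_of_le {f : ∀ n, E n} (hf : Memℓp f 2) {g : ∀ n, F n} {C : ℝ} 
    (h : ∀ n, ‖g n‖ ≤ C * ‖f n‖) : Memℓp g 2 := by
  rw [memlp_two] at hf ⊢
  apply Summable.of_nonneg_of_le (fun n => sq_nonneg _) _ (hf.mul_left (C ^ 2))
  intro n
  rw [← mul_pow]
  exact pow_le_pow_left₀ (norm_nonneg _) (h n) 2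

lemma lp_norm_le_of_le {f : lp E 2} {g : lp F 2} {C : ℝ} (hC : 0 ≤ C)
    (h : ∀ n, ‖g n‖ ≤ C * ‖f n‖) : ‖g‖ ≤ C * ‖f‖ := by
  apply le_of_sq_le_sq _ (by positivity)
  rw [mul_pow]
  apply hasSum_le _ (lp_hasSum g) ((lp_hasSum f).mul_left (C ^ 2))
  intro n
  rw [← mul_pow]
  exact pow_le_pow_left₀ (norm_nonneg _) (h n) 2

end Compare

namespace Blk

variable (b : Blk)

/-- constructor of points of a block -/
def mkP (z : EY b.p × EX b.p) : b.Sp := z

/-- underlying pair of a point of a block -/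
def un (z : b.Sp) : EY b.p × EX b.p := z

lemma norm_eq (z : b.Sp) : ‖z‖ = b.N (b.un z) := rfl

lemma norm_snd_un_le (z : b.Sp) : ‖(b.un z).2‖ ≤ 2 * ‖z‖ :=
  (norm_snd_le_tn _).trans (b.t_le_N _)

lemma norm_mk_inl_le (y : EY b.p) : ‖b.mkP (y, 0)‖ ≤ 1 * ‖y‖ := by
  have h := b.N_le_t (y, 0)
  have h2 : b.t (y, 0) = ‖y‖ := tn_inl y
  rw [h2] at h
  rw [one_mul]; exact h

lemma norm_le_mk_inl (y : EY b.p) : ‖y‖ ≤ 2 * ‖b.mkP (y, 0)‖ := by
  have h := b.t_le_N (y, 0)
  have h2 : b.t (y, 0) = ‖y‖ := tn_inl y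
  rw [h2] at h
  exact h

/-- the section of the quotient map -/
noncomputable def sec (x : EX b.p) : b.Sp := b.mkP (Om b.ω (1 / √b.K) b.K b.ε x, x)

lemma norm_sec_le (x : EX b.p) : ‖b.sec x‖ ≤ 1 * ‖x‖ := by
  have h := b.N_le_t (Om b.ω (1 / √b.K) b.K b.ε x, x)
  have h2 : b.t (Om b.ω (1 / √b.K) b.K b.ε x, x) = ‖x‖ := by
    unfold t tn; simp
  rw [h2] at h
  rw [one_mul]; exact h

end Blk

variable (b : ℕ → Blk)

/-- second components -/
noncomputable def qL : XX b →L[ℝ] lp (fun n => EX (b n).p) 2 :=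
  LinearMap.mkContinuous
    { toFun := fun f => ⟨fun n => ((b n).un (f n)).2,
        memlp_of_le (C := 2) (lp.memℓp f) (fun n => (b n).norm_snd_un_le _)⟩
      map_add' := fun f g => by ext n; rfl
      map_smul' := fun c f => by ext n; rfl }
    2 (fun f => lp_norm_le_of_le (by norm_num) (fun n => (b n).norm_snd_un_le _))

lemma qL_apply (f : XX b) (n : ℕ) : qL b f n = ((b n).un (f n)).2 := rfl

lemma qL_surj : Function.Surjective (qL b) := by
  intro g
  refine ⟨⟨fun n => (b n).sec (g n),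
    memlp_of_le (C := 1) (lp.memℓp g) (fun n => (b n).norm_sec_le _)⟩, ?_⟩
  ext n
  rfl

/-- embedding of the first components -/
noncomputable def jL : lp (fun n => EY (b n).p) 2 →L[ℝ] XX b :=
  LinearMap.mkContinuous
    { toFun := fun f => ⟨fun n => (b n).mkP (f n, 0),
        memlp_of_le (C := 1) (lp.memℓp f) (fun n => (b n).norm_mk_inl_le _)⟩
      map_add' := fun f g => by
        ext n
        change (b n).mkP ((f + g : lp (fun n => EY (b n).p) 2) n, 0)
          = (b n).mkP (f n, 0) + (b n).mkP (g n, 0)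
        change ((f + g : lp (fun n => EY (b n).p) 2) n, (0 : EX (b n).p))
          = (f n, (0 : EX (b n).p)) + (g n, (0 : EX (b n).p))
        simp
      map_smul' := fun c f => by
        ext n
        change ((c • f : lp (fun n => EY (b n).p) 2) n, (0 : EX (b n).p))
          = c • (f n, (0 : EX (b n).p))
        simp }
    1 (fun f => lp_norm_le_of_le (by norm_num) (fun n => (b n).norm_mk_inl_le _))

lemma jL_apply (f : lp (fun n => EY (b n).p) 2) (n : ℕ) : jL b f n = (b n).mkP (f n, 0) := rfl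

lemma norm_jL_le (f : lp (fun n => EY (b n).p) 2) : ‖jL b f‖ ≤ 1 * ‖f‖ :=
  lp_norm_le_of_le (by norm_num) (fun n => (b n).norm_mk_inl_le _)

lemma norm_le_jL (f : lp (fun n => EY (b n).p) 2) : ‖f‖ ≤ 2 * ‖jL b f‖ :=
  lp_norm_le_of_le (by norm_num) (fun n => (b n).norm_le_mk_inl _)

lemma qL_jL (f : lp (fun n => EY (b n).p) 2) : qL b (jL b f) = 0 := by
  ext n
  rfl

lemma exists_jL (f : XX b) (hf : qL b f = 0) : ∃ g, jL b g = f := by
  have h0 : ∀ n, ((b n).un (f n)).2 = 0 := by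
    intro n
    rw [← qL_apply, hf]; rfl
  have h1 : ∀ n, (b n).mkP (((b n).un (f n)).1, 0) = f n := by
    intro n
    change (((b n).un (f n)).1, 0) = (b n).un (f n)
    rw [← h0 n]
  have h2 : ∀ n, ‖((b n).un (f n)).1‖ ≤ 2 * ‖f n‖ := by
    intro n
    have := (b n).norm_le_mk_inl ((b n).un (f n)).1
    rw [h1 n] at this
    exact this
  refine ⟨⟨fun n => ((b n).un (f n)).1, memlp_of_le (C := 2) (lp.memℓp f) h2⟩, ?_⟩
  ext n
  exact h1 n

/-- the subspace -/
noncomputable def YY : Submodule ℝ (XX b) := LinearMap.ker (qL b).toLinearMap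

lemma mem_YY (f : XX b) : f ∈ YY b ↔ qL b f = 0 := by
  unfold YY
  rw [LinearMap.mem_ker]
  rfl

lemma isClosed_YY : IsClosed (YY b : Set (XX b)) := by
  have : (YY b : Set (XX b)) = (qL b) ⁻¹' {0} := by
    ext f
    rw [SetLike.mem_coe, mem_YY]
    rfl
  rw [this]
  exact isClosed_singleton.preimage (qL b).continuous

/-- the linear equivalence -/
noncomputable def eY : lp (fun n => EY (b n).p) 2 ≃ₗ[ℝ] YY b :=
  LinearEquiv.ofBijective
    ((jL b).toLinearMap.codRestrict (YY b) (fun f => by rw [mem_YY]; exact qL_jL b f))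
    ⟨by
      intro f g hfg
      have h1 : jL b f = jL b g := congrArg Subtype.val hfg
      have h2 : jL b (f - g) = 0 := by rw [map_sub, h1, sub_self]
      have h3 := norm_le_jL b (f - g)
      rw [h2, norm_zero, mul_zero] at h3
      exact sub_eq_zero.mp (norm_le_zero_iff.mp h3),
    by
      intro y
      obtain ⟨g, hg⟩ := exists_jL b y.1 ((mem_YY b _).mp y.2)
      exact ⟨g, Subtype.ext hg⟩⟩

lemma eY_coe (f : lp (fun n => EY (b n).p) 2) : ((eY b f : YY b) : XX b) = jL b f := rfl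

theorem Y_iso : Nonempty (YY b ≃L[ℝ] lp (fun n => EY (b n).p) 2) := by
  refine ⟨(LinearEquiv.toContinuousLinearEquivOfBounds (eY b) 1 2 ?_ ?_).symm⟩
  · intro f
    exact norm_jL_le b f
  · intro y
    have h := norm_le_jL b ((eY b).symm y)
    rw [← eY_coe, LinearEquiv.apply_symm_apply] at h
    exact h

theorem quot_iso : Nonempty ((XX b ⧸ YY b) ≃L[ℝ] lp (fun n => EX (b n).p) 2) := by
  let e : (XX b ⧸ YY b) ≃ₗ[ℝ] lp (fun n => EX (b n).p) 2 :=
    (qL b).toLinearMap.quotKerEquivOfSurjective (qL_surj b)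
  have he : ∀ f : XX b, e (Submodule.Quotient.mk f) = qL b f := fun f => rfl
  have hq : Topology.IsQuotientMap (qL b) := by
    apply IsOpenMap.isQuotientMap _ (qL b).continuous (qL_surj b)
    exact (qL b).isOpenMap (qL_surj b)
  refine ⟨{ e with 
    continuous_toFun := ?_
    continuous_invFun := ?_ }⟩
  · change Continuous (fun x => e x)
    have h1 : Continuous (fun f : XX b => e (Submodule.Quotient.mk f)) := by
      simp only [he]
      exact (qL b).continuous
    exact h1.quotient_lift _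
  · change Continuous (fun x => e.symm x)
    rw [hq.continuous_iff]
    have h2 : ((fun x => e.symm x) ∘ (qL b)) = fun f => (Submodule.Quotient.mk f : XX b ⧸ YY b) := by
      ext f
      change e.symm (qL b f) = _
      rw [← he, LinearEquiv.symm_apply_apply]
    rw [h2]
    exact continuous_quotient_mk'

end Pool.Agent.Helper95
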