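import Mathlib
import Pool.Agent.Helper95.Glue

/-!
The Hilbert sum of a good sequence of blocks has no complex structure.
-/

open Finset

namespace Pool.Agent.Helper95

open scoped ENNReal

/-- conditions on the sequence of blocks -/
structure GoodSeq (b : ℕ → Blk) : Prop where
  hK : ∀ n, (b n).K = 1000 + n
  hε : ∀ n m, n < m → 64 * (b m).ε ^ 2 * (b n).p ≤ 1
  hp : ∀ n, (∑ m ∈ range n, 24 * (b m).p * (1 + 2 * (b m).K) ^ 2) * (b n).K ≤ (b n).p

variable (b : ℕ → Blk)

theorem not_finiteDimensional_XX : ¬ FiniteDimensional ℝ (XX b) := by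
  intro hfin
  let z : ∀ n, (b n).Sp := fun n => (b n).mkP (rv (fun _ => true), 0)
  have hz : ∀ n, z n ≠ 0 := by
    intro n h0
    have h1 := (b n).norm_le_mk_inl (rv (fun _ => true))
    rw [rv_norm (b n).good.p_pos] at h1
    change 1 ≤ 2 * ‖z n‖ at h1
    rw [h0, norm_zero] at h1
    linarith
  have hli : LinearIndependent ℝ (fun n => (lp.single 2 n (z n) : XX b)) := by
    rw [linearIndependent_iff']
    intro s g hg i hi
    have h1 : (∑ j ∈ s, g j • (lp.single 2 j (z j) : XX b)) i = 0 := by rw [hg]; rfl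
    have h2 : (∑ j ∈ s, g j • (lp.single 2 j (z j) : XX b)) i = g i • z i := by
      rw [lp.coeFn_sum, Finset.sum_apply, Finset.sum_eq_single i]
      · rw [lp.coeFn_smul, Pi.smul_apply, lp.single_apply_self]
      · intro j _ hj
        rw [lp.coeFn_smul, Pi.smul_apply, lp.single_apply_ne _ _ _ (Ne.symm hj), smul_zero]
      · intro h; exact absurd hi h
    rw [h2] at h1
    rcases smul_eq_zero.mp h1 with h3 | h3
    · exact h3
    · exact absurd h3 (hz i)
  have := hli.finite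
  exact not_finite ℕ

section Tail

variable {b}

/-- squared norm of the tail -/
noncomputable def tl (n : ℕ) (f : XX b) : ℝ := ∑' m, ‖f (m + (n + 1))‖ ^ 2

lemma tl_hasSum (n : ℕ) (f : XX b) : HasSum (fun m => ‖f (m + (n + 1))‖ ^ 2) (tl n f) := by
  have h := (lp_hasSum f).summable
  exact ((summable_nat_add_iff (n + 1)).mpr h).hasSum

lemma tl_nonneg (n : ℕ) (f : XX b) : 0 ≤ tl n f := tsum_nonneg fun _ => sq_nonneg _

lemma sum_add_tl (n : ℕ) (f : XX b) : ∑ m ∈ range (n + 1), ‖f m‖ ^ 2 + tl n f = ‖f‖ ^ 2 := by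
  rw [← (lp_hasSum f).tsum_eq]
  exact (lp_hasSum f).summable.sum_add_tsum_nat_add (n + 1)

lemma tl_le (n : ℕ) (f : XX b) : tl n f ≤ ‖f‖ ^ 2 := by
  rw [← sum_add_tl n f]
  have : 0 ≤ ∑ m ∈ range (n + 1), ‖f m‖ ^ 2 := Finset.sum_nonneg fun _ _ => sq_nonneg _
  linarith

lemma tl_sub_le (n : ℕ) (f g : XX b) : tl n (f - g) ≤ 2 * tl n f + 2 * tl n g := by
  apply hasSum_le _ (tl_hasSum n (f - g)) (((tl_hasSum n f).mul_left 2).add
    ((tl_hasSum n g).mul_left 2))
  intro m
  have h1 : (f - g) (m + (n + 1)) = f (m + (n + 1)) - g (m + (n + 1)) := rfl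
  have h2 := norm_sub_le (f (m + (n + 1))) (g (m + (n + 1)))
  rw [h1]
  have h3 := pow_le_pow_left₀ (norm_nonneg _) h2 2
  nlinarith [sq_nonneg (‖f (m + (n + 1))‖ - ‖g (m + (n + 1))‖)]

lemma tl_smul (n : ℕ) (c : ℝ) (f : XX b) : tl n (c • f) = c ^ 2 * tl n f := by
  apply (tl_hasSum n (c • f)).unique
  have h := (tl_hasSum n f).mul_left (c ^ 2)
  refine h.congr_fun ?_
  intro m
  have h1 : (c • f) (m + (n + 1)) = c • f (m + (n + 1)) := rfl
  rw [h1, norm_smul, mul_pow, Real.norm_eq_abs, sq_abs]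

lemma norm_compl_single (n : ℕ) (f : XX b) :
    ‖f - lp.single 2 n (f n)‖ ^ 2 = ∑ m ∈ range n, ‖f m‖ ^ 2 + tl n f := by
  have h := lp.norm_compl_sum_single (p := 2) (E := fun n => (b n).Sp) (by norm_num) f {n}
  simp only [Finset.sum_singleton] at h
  have h2 : (2 : ℝ≥0∞).toReal = 2 := by norm_num
  rw [h2, Real.rpow_two, Real.rpow_two, Real.rpow_two] at h
  rw [h, ← sum_add_tl n f, Finset.sum_range_succ]
  ring

lemma tl_type2 (hb : GoodSeq b) (n : ℕ) (h : Fin (b n).p → XX b) :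
    avg (fun e : Fin (b n).p → Bool => tl n (∑ i, sg (e i) • h i)) ≤ 32 * ∑ i, ‖h i‖ ^ 2 := by
  have h1 : HasSum (fun m => avg (fun e : Fin (b n).p → Bool =>
      ‖(∑ i, sg (e i) • h i) (m + (n + 1))‖ ^ 2))
      (avg (fun e : Fin (b n).p → Bool => tl n (∑ i, sg (e i) • h i))) := by
    unfold avg
    apply HasSum.div_const
    exact hasSum_sum fun e _ => tl_hasSum n _
  have h2 : HasSum (fun m => 32 * ∑ i, ‖h i (m + (n + 1))‖ ^ 2) (32 * ∑ i, tl n (h i)) := by
    apply HasSum.mul_left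
    exact hasSum_sum fun i _ => tl_hasSum n _
  have h3 : avg (fun e : Fin (b n).p → Bool => tl n (∑ i, sg (e i) • h i))
      ≤ 32 * ∑ i, tl n (h i) := by
    apply hasSum_le _ h1 h2
    intro m
    have g1 := (b (m + (n + 1))).type2_N (hb.hε n (m + (n + 1)) (by omega))
      (fun i => (b (m + (n + 1))).un (h i (m + (n + 1))))
    have g2 : ∀ e : Fin (b n).p → Bool, ‖(∑ i, sg (e i) • h i) (m + (n + 1))‖
        = (b (m + (n + 1))).N (∑ i, sg (e i) • (b (m + (n + 1))).un (h i (m + (n + 1)))) := by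
      intro e
      have g3 : (∑ i, sg (e i) • h i) (m + (n + 1)) = ∑ i, sg (e i) • h i (m + (n + 1)) := by
        rw [lp.coeFn_sum, Finset.sum_apply]
        rfl
      rw [g3]
      rfl
    simp only [g2]
    exact g1
  refine h3.trans ?_
  apply mul_le_mul_of_nonneg_left _ (by norm_num)
  exact Finset.sum_le_sum fun i _ => tl_le n _

end Tail


section Core

variable {b} (J : XX b →L[ℝ] XX b) (n : ℕ)

/-- the image of a point of block `n` -/
noncomputable def im (z : EY (b n).p × EX (b n).p) : XX b := J (lp.single 2 n ((b n).mkP z))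

lemma im_add (z w : EY (b n).p × EX (b n).p) : im J n (z + w) = im J n z + im J n w := by
  unfold im
  rw [← map_add, ← lp.single_add]
  rfl

lemma im_smul (c : ℝ) (z : EY (b n).p × EX (b n).p) : im J n (c • z) = c • im J n z := by
  unfold im
  rw [← map_smul, ← lp.single_smul]
  rfl

lemma im_sub (z w : EY (b n).p × EX (b n).p) : im J n (z - w) = im J n z - im J n w := by
  unfold im
  rw [← map_sub, ← lp.single_sub]
  rfl

lemma norm_im_le {c : ℝ} (hc : ∀ f, ‖J f‖ ≤ c * ‖f‖) (hc0 : 0 ≤ c)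
    (z : EY (b n).p × EX (b n).p) : ‖im J n z‖ ≤ c * (b n).t z := by
  have h1 := hc (lp.single 2 n ((b n).mkP z))
  have h2 : ‖(lp.single 2 n ((b n).mkP z) : XX b)‖ = (b n).N z :=
    lp.norm_single (by norm_num) n _
  rw [h2] at h1
  exact h1.trans (mul_le_mul_of_nonneg_left ((b n).N_le_t z) hc0)

/-- linear version of the image -/
noncomputable def imL : (EY (b n).p × EX (b n).p) →ₗ[ℝ] XX b where
  toFun := im J n
  map_add' := im_add J n
  map_smul' := im_smul J n

lemma imL_apply (z : EY (b n).p × EX (b n).p) : imL J n z = im J n z := rfl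

/-- component -/
noncomputable def cp (m : ℕ) : XX b →ₗ[ℝ] (EY (b m).p × EX (b m).p) where
  toFun f := (b m).un (f m)
  map_add' _ _ := rfl
  map_smul' _ _ := rfl

lemma cp_apply (m : ℕ) (f : XX b) : cp m f = (b m).un (f m) := rfl

lemma t_cp_le (m : ℕ) (f : XX b) : (b m).t (cp m f) ≤ 2 * ‖f‖ := by
  have h1 := (b m).t_le_N (cp m f)
  have h2 : (b m).N (cp m f) = ‖f m‖ := rfl
  have h3 : ‖f m‖ ≤ ‖f‖ := lp.norm_apply_le_norm (by norm_num) f m
  linarith

lemma norm_apply_le_t (m : ℕ) (f : XX b) : ‖f m‖ ≤ (b m).t (cp m f) :=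
  (b m).N_le_t (cp m f)

/-- remove a component -/
noncomputable def rm : XX b →ₗ[ℝ] XX b where
  toFun f := f - lp.single 2 n (f n)
  map_add' f g := by
    have : (f + g) n = f n + g n := rfl
    rw [this, lp.single_add]; abel
  map_smul' c f := by
    have : (c • f) n = c • f n := rfl
    rw [this, lp.single_smul, RingHom.id_apply, smul_sub]

lemma rm_apply (f : XX b) : rm n f = f - lp.single 2 n (f n) := rfl

lemma norm_rm_sq (f : XX b) : ‖rm n f‖ ^ 2 = ∑ m ∈ range n, ‖f m‖ ^ 2 + tl n f :=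
  norm_compl_single n f

lemma norm_rm_le (f : XX b) : ‖rm n f‖ ≤ ‖f‖ := by
  apply le_of_sq_le_sq _ (norm_nonneg _)
  rw [norm_rm_sq, ← sum_add_tl n f, Finset.sum_range_succ]
  have : 0 ≤ ‖f n‖ ^ 2 := sq_nonneg _
  linarith

lemma avg_lower (hb : GoodSeq b) {c : ℝ} (hc : ∀ f, ‖J f‖ ≤ c * ‖f‖) (hc0 : 0 ≤ c) :
    avg (fun e : Fin (b n).p → Bool => ∑ m ∈ range n, ‖(im J n (rv e, 0)) m‖ ^ 2)
      ≤ c ^ 2 / (b n).K := by
  have hp : 0 < (b n).p := (b n).good.p_pos
  have hp' : (0 : ℝ) < (b n).p := by exact_mod_cast hp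
  have hK := (b n).K_pos
  rw [avg_sum]
  have h1 : ∀ m ∈ range n, avg (fun e : Fin (b n).p → Bool => ‖(im J n (rv e, 0)) m‖ ^ 2)
      ≤ (24 * (b m).p * (1 + 2 * (b m).K) ^ 2) * (c ^ 2 / (b n).p) := by
    intro m _
    let R : EY (b n).p →ₗ[ℝ] (EY (b m).p × EX (b m).p) :=
      cp m ∘ₗ imL J n ∘ₗ LinearMap.inl ℝ _ _
    have hR : ∀ y, R y = cp m (im J n (y, 0)) := fun _ => rfl
    have hRb : ∀ y, (b m).t (R y) ≤ (2 * c) * ‖y‖ := by
      intro y
      rw [hR]
      have g1 := t_cp_le m (im J n (y, 0))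
      have g2 := norm_im_le J n hc hc0 (y, 0)
      have g3 : (b n).t (y, 0) = ‖y‖ := tn_inl y
      rw [g3] at g2
      linarith
    have g4 := (b m).avg_small (2 * c) (by linarith) R hRb
    have g5 : avg (fun e : Fin (b n).p → Bool => ‖(im J n (rv e, 0)) m‖ ^ 2)
        ≤ avg (fun e : Fin (b n).p → Bool => (b m).t (R (rv e)) ^ 2) := by
      apply avg_mono
      intro e
      apply pow_le_pow_left₀ (norm_nonneg _)
      rw [hR]
      exact norm_apply_le_t m _
    refine (g5.trans g4).trans (le_of_eq ?_)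
    ring
  refine (Finset.sum_le_sum h1).trans ?_
  rw [← Finset.sum_mul]
  have h2 := hb.hp n
  have h3 : (∑ m ∈ range n, 24 * ((b m).p : ℝ) * (1 + 2 * (b m).K) ^ 2) ≤ (b n).p / (b n).K := by
    rw [le_div_iff₀ hK]; exact h2
  calc _ ≤ ((b n).p / (b n).K) * (c ^ 2 / (b n).p) :=
        mul_le_mul_of_nonneg_right h3 (by positivity)
    _ = c ^ 2 / (b n).K := by field_simp

lemma avg_tail (hb : GoodSeq b) {c : ℝ} (hc : ∀ f, ‖J f‖ ≤ c * ‖f‖) (hc0 : 0 ≤ c) :
    avg (fun e : Fin (b n).p → Bool => tl n (im J n (rv e, 0))) ≤ 66 * c ^ 2 / (b n).K ^ 2 := by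
  have hp : 0 < (b n).p := (b n).good.p_pos
  have hp' : (0 : ℝ) < (b n).p := by exact_mod_cast hp
  have hK := (b n).K_pos
  have good := (b n).good
  -- decomposition
  have h1 : ∀ e : Fin (b n).p → Bool, (b n).K • im J n (rv e, 0)
      = im J n (GamL (b n).ω (1 / √(b n).K) (b n).K (inlL _ (rv e)))
        - im J n (0, inlL _ (rv e)) := by
    intro e
    rw [← im_smul, ← im_sub]
    congr 1
    rw [GamL_apply, Gm_inlL]
    ext1 <;> simp
  have h2 : ∀ e : Fin (b n).p → Bool, (b n).K ^ 2 * tl n (im J n (rv e, 0))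
      ≤ 2 * c ^ 2 + 2 * tl n (im J n (0, inlL _ (rv e))) := by
    intro e
    rw [← tl_smul, h1]
    refine (tl_sub_le n _ _).trans ?_
    have g1 := tl_le n (im J n (GamL (b n).ω (1 / √(b n).K) (b n).K (inlL _ (rv e))))
    have g2 := norm_im_le J n hc hc0 (GamL (b n).ω (1 / √(b n).K) (b n).K (inlL _ (rv e)))
    have g3 := tn_Gam_le (ε := (b n).ε) good.hω good.γ_nonneg good.γ_small hK
      (inlL (b n).p (rv e))
    rw [good.pk_inl e, norm_zero, mul_zero, add_zero, norm_inlL, rv_norm hp] at g3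
    have g4 : ‖im J n (GamL (b n).ω (1 / √(b n).K) (b n).K (inlL _ (rv e)))‖ ≤ c := by
      refine g2.trans ?_
      calc c * _ ≤ c * 1 := mul_le_mul_of_nonneg_left g3 hc0
        _ = c := mul_one c
    have g5 := pow_le_pow_left₀ (norm_nonneg _) g4 2
    linarith
  have h3 : ∀ e : Fin (b n).p → Bool, im J n (0, inlL _ (rv e))
      = (1 / √((b n).p : ℝ)) • ∑ i, sg (e i) •
        im J n (0, EuclideanSpace.single (Sum.inl i) (1 : ℝ)) := by
    intro e
    have g1 : ((0 : EY (b n).p), inlL _ (rv e)) = (LinearMap.inr ℝ _ _ ∘ₗ inlL _) (rv e) := rfl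
    rw [g1, rv_eq_sum, map_smul, map_sum, ← imL_apply, map_smul, map_sum]
    congr 1
    apply Finset.sum_congr rfl
    intro i _
    rw [map_smul, map_smul]
    congr 1
    rw [imL_apply]
    congr 1
    change ((0 : EY (b n).p), inlL _ (EuclideanSpace.single i (1 : ℝ))) = _
    rw [inlL_single]
  have h4 : avg (fun e : Fin (b n).p → Bool => tl n (im J n (0, inlL _ (rv e)))) ≤ 32 * c ^ 2 := by
    have g1 : ∀ e : Fin (b n).p → Bool, tl n (im J n (0, inlL _ (rv e)))
        = (1 / (b n).p) * tl n (∑ i, sg (e i) •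
          im J n (0, EuclideanSpace.single (Sum.inl i) (1 : ℝ))) := by
      intro e
      rw [h3, tl_smul, div_pow, one_pow, Real.sq_sqrt hp'.le]
    simp only [g1]
    rw [avg_mul_left]
    have g2 := tl_type2 hb n
      (fun i => im J n (0, EuclideanSpace.single (Sum.inl i) (1 : ℝ)))
    have g3 : ∑ i : Fin (b n).p, ‖im J n (0, EuclideanSpace.single (Sum.inl i) (1 : ℝ))‖ ^ 2
        ≤ (b n).p * c ^ 2 := by
      calc _ ≤ ∑ i : Fin (b n).p, c ^ 2 := by
            apply Finset.sum_le_sum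
            intro i _
            have q1 := norm_im_le J n hc hc0 (0, EuclideanSpace.single (Sum.inl i) (1 : ℝ))
            have q2 : (b n).t (0, EuclideanSpace.single (Sum.inl i) (1 : ℝ)) = 1 :=
              tn_single hK.le _
            rw [q2, mul_one] at q1
            exact pow_le_pow_left₀ (norm_nonneg _) q1 2
        _ = (b n).p * c ^ 2 := by
            rw [Finset.sum_const, Finset.card_univ, Fintype.card_fin, nsmul_eq_mul]
    calc _ ≤ (1 / ((b n).p : ℝ)) * (32 * ((b n).p * c ^ 2)) := by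
          apply mul_le_mul_of_nonneg_left _ (by positivity)
          linarith
      _ = 32 * c ^ 2 := by field_simp
  have h5 := avg_mono h2
  rw [avg_mul_left, avg_add, avg_const, avg_mul_left] at h5
  rw [le_div_iff₀ (by positivity)]
  linarith

theorem no_complex (hb : GoodSeq b) : ¬ ∃ J : XX b →L[ℝ] XX b,
    J.comp J = -(ContinuousLinearMap.id ℝ (XX b)) := by
  rintro ⟨J, hJ⟩
  set c : ℝ := max 1 ‖J‖ with hcdef
  have hc1 : 1 ≤ c := le_max_left _ _
  have hc0 : 0 ≤ c := by linarith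
  have hc : ∀ f, ‖J f‖ ≤ c * ‖f‖ := fun f =>
    (J.le_opNorm f).trans (mul_le_mul_of_nonneg_right (le_max_right _ _) (norm_nonneg _))
  obtain ⟨n, hn⟩ := exists_nat_ge (10 ^ 8 * (2 * c) ^ 4)
  have good := (b n).good
  have hKn : 10 ^ 8 * (2 * c) ^ 4 ≤ (b n).K := by
    rw [hb.hK n]; linarith
  have hp : 0 < (b n).p := good.p_pos
  have hK := (b n).K_pos
  have hK1 := good.hK
  let T : (EY (b n).p × EX (b n).p) →ₗ[ℝ] (EY (b n).p × EX (b n).p) := cp n ∘ₗ imL J n
  have hTdef : ∀ z, T z = cp n (im J n z) := fun _ => rfl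
  have hT : BddOp (b n).ω (b n).K (b n).ε (2 * c) T := by
    refine ⟨by linarith, hKn, ?_⟩
    intro z
    rw [hTdef]
    have g1 := t_cp_le n (im J n z)
    have g2 := norm_im_le J n hc hc0 z
    change (b n).t _ ≤ 2 * c * (b n).t z
    linarith
  have hmain := hT.block_main good
  -- identity
  have id1 : ∀ e : Fin (b n).p → Bool, T (T (rv e, 0))
      = -(rv e, 0) - cp n (J (rm n (im J n (rv e, 0)))) := by
    intro e
    have g1 : im J n (cp n (im J n (rv e, 0)))
        = J (im J n (rv e, 0)) - J (rm n (im J n (rv e, 0))) := by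
      rw [rm_apply, ← map_sub, sub_sub_cancel]
      rfl
    have g2 : J (im J n (rv e, 0)) = - lp.single 2 n ((b n).mkP (rv e, 0)) := by
      have := congrArg (fun A : XX b →L[ℝ] XX b => A (lp.single 2 n ((b n).mkP (rv e, 0)))) hJ
      simp only [ContinuousLinearMap.comp_apply, neg_apply,
        ContinuousLinearMap.id_apply] at this
      exact this
    rw [hTdef, hTdef, g1, g2, map_sub, map_neg]
    congr 2
    rw [cp_apply, lp.single_apply_self]
    rfl
  let L : EY (b n).p →ₗ[ℝ] EX (b n).p :=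
    LinearMap.snd ℝ _ _ ∘ₗ cp n ∘ₗ J.toLinearMap ∘ₗ rm n ∘ₗ imL J n ∘ₗ LinearMap.inl ℝ _ _
  have hLdef : ∀ x, L x = (cp n (J (rm n (im J n (x, 0))))).2 := fun _ => rfl
  have hcK : 2 * c ≤ (b n).K := by
    have h3 : 2 * c ≤ (2 * c) ^ 4 := le_self_pow₀ (by linarith) (by norm_num)
    have h4 : (0 : ℝ) ≤ (2 * c) ^ 4 := by positivity
    linarith
  have hLb : ∀ x, ‖L x‖ ≤ 3 * (b n).K ^ 3 * ‖x‖ := by
    intro x
    rw [hLdef]
    have g1 : ‖(cp n (J (rm n (im J n (x, 0))))).2‖ ≤ (b n).t (cp n (J (rm n (im J n (x, 0))))) :=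
      norm_snd_le_tn _
    have g2 := t_cp_le n (J (rm n (im J n (x, 0))))
    have g3 := hc (rm n (im J n (x, 0)))
    have g4 := norm_rm_le n (im J n (x, 0))
    have g5 := norm_im_le J n hc hc0 (x, 0)
    have g6 : (b n).t (x, 0) = ‖x‖ := tn_inl x
    rw [g6] at g5
    have g7 : c * ‖rm n (im J n (x, 0))‖ ≤ c * (c * ‖x‖) :=
      mul_le_mul_of_nonneg_left (g4.trans g5) hc0
    have g8 : 2 * (c * (c * ‖x‖)) ≤ 3 * (b n).K ^ 3 * ‖x‖ := by
      have q1 : c ≤ (b n).K := by linarith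
      have q2 : c * c ≤ (b n).K * (b n).K := mul_le_mul q1 q1 hc0 hK.le
      have q3 : (b n).K * (b n).K ≤ (b n).K ^ 3 := by
        have : (b n).K ^ 3 = (b n).K * ((b n).K * (b n).K) := by ring
        rw [this]
        have q4 : 0 ≤ (b n).K * (b n).K := by positivity
        nlinarith
      have q5 : 2 * (c * c) ≤ 3 * (b n).K ^ 3 := by nlinarith
      have := mul_le_mul_of_nonneg_right q5 (norm_nonneg x)
      linarith
    linarith
  have hspread := good.spread L hLb
  have key : ∀ e : Fin (b n).p → Bool,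
      ‖rv e + lamL (b n).ω (1 / √(b n).K) (b n).K (T (T (rv e, 0)))‖ ^ 2
      ≤ (8 * c ^ 2) * (∑ m ∈ range n, ‖(im J n (rv e, 0)) m‖ ^ 2 + tl n (im J n (rv e, 0)))
        + (8 * (b n).K ^ 2) * ‖pk (b n).K (b n).ε (L (rv e))‖ ^ 2 := by
    intro e
    rw [id1, map_sub, map_neg]
    have g0 : lamL (b n).ω (1 / √(b n).K) (b n).K (rv e, (0 : EX (b n).p)) = rv e := by
      rw [lamL_apply]; simp
    rw [g0]
    have g1 : rv e + (-rv e - lamL (b n).ω (1 / √(b n).K) (b n).K
        (cp n (J (rm n (im J n (rv e, 0)))))) = - lamL (b n).ω (1 / √(b n).K) (b n).K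
        (cp n (J (rm n (im J n (rv e, 0))))) := by abel
    rw [g1, norm_neg]
    have g2 := norm_lamL_le (ε := (b n).ε) good.hω good.γ_nonneg good.γ_small hK
      (cp n (J (rm n (im J n (rv e, 0)))))
    have g3 : tn (b n).ω (1 / √(b n).K) (b n).K (b n).ε (cp n (J (rm n (im J n (rv e, 0)))))
        ≤ 2 * ‖J (rm n (im J n (rv e, 0)))‖ := t_cp_le n _
    have g4 := hc (rm n (im J n (rv e, 0)))
    have g5 : ‖lamL (b n).ω (1 / √(b n).K) (b n).K (cp n (J (rm n (im J n (rv e, 0)))))‖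
        ≤ 2 * (c * ‖rm n (im J n (rv e, 0))‖)
          + 2 * (b n).K * ‖pk (b n).K (b n).ε (L (rv e))‖ := by
      rw [hLdef]
      linarith
    rw [← norm_rm_sq]
    have g6 := pow_le_pow_left₀ (norm_nonneg _) g5 2
    nlinarith [sq_nonneg (2 * (c * ‖rm n (im J n (rv e, 0))‖)
      - 2 * (b n).K * ‖pk (b n).K (b n).ε (L (rv e))‖)]
  have h1 := avg_mono key
  rw [avg_add, avg_mul_left, avg_mul_left, avg_add] at h1
  have h2 := avg_lower J n hb hc hc0
  have h3 := avg_tail J n hb hc hc0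
  have h4 : (8 * (b n).K ^ 2) * avg (fun e : Fin (b n).p → Bool =>
      ‖pk (b n).K (b n).ε (L (rv e))‖ ^ 2) ≤ (8 * (b n).K ^ 2) * (1 / (8 * (b n).K ^ 4)) :=
    mul_le_mul_of_nonneg_left hspread (by positivity)
  have h5 : (8 * (b n).K ^ 2) * (1 / (8 * (b n).K ^ 4)) = 1 / (b n).K ^ 2 := by field_simp
  have h6 : (8 * c ^ 2) * (avg (fun e : Fin (b n).p → Bool =>
        ∑ m ∈ range n, ‖(im J n (rv e, 0)) m‖ ^ 2)
      + avg (fun e : Fin (b n).p → Bool => tl n (im J n (rv e, 0))))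
      ≤ (8 * c ^ 2) * (c ^ 2 / (b n).K + 66 * c ^ 2 / (b n).K ^ 2) :=
    mul_le_mul_of_nonneg_left (add_le_add h2 h3) (by positivity)
  have h7 : (8 * c ^ 2) * (c ^ 2 / (b n).K + 66 * c ^ 2 / (b n).K ^ 2) + 1 / (b n).K ^ 2
      ≤ 1 / 16 := by
    have q0 : (b n).K * 1 ≤ (b n).K * (b n).K := mul_le_mul_of_nonneg_left (by linarith) hK.le
    have q1 : c ^ 4 ≤ (b n).K / (16 * 10 ^ 8) := by
      rw [le_div_iff₀ (by norm_num)]
      have : (2 * c) ^ 4 = 16 * c ^ 4 := by ring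
      rw [this] at hKn
      linarith
    have q2 : 66 * c ^ 2 / (b n).K ^ 2 ≤ 66 * c ^ 2 / (b n).K := by
      apply div_le_div_of_nonneg_left (by positivity) hK
      nlinarith
    have q3 : 1 / (b n).K ^ 2 ≤ 1 / 1000 := by
      apply div_le_div_of_nonneg_left (by norm_num) (by norm_num)
      nlinarith
    have q4 : (8 * c ^ 2) * (c ^ 2 / (b n).K + 66 * c ^ 2 / (b n).K)
        = 536 * c ^ 4 / (b n).K := by
      field_simp; ring
    have q5 : 536 * c ^ 4 / (b n).K ≤ 1 / 1000 := by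
      rw [div_le_iff₀ hK]
      linarith
    have q6 : (8 * c ^ 2) * (c ^ 2 / (b n).K + 66 * c ^ 2 / (b n).K ^ 2)
        ≤ (8 * c ^ 2) * (c ^ 2 / (b n).K + 66 * c ^ 2 / (b n).K) := by
      apply mul_le_mul_of_nonneg_left _ (by positivity)
      linarith
    linarith
  linarith

end Core

end Pool.Agent.Helper95
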