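import Mathlib
import Pool.Agent.Helper95.Main
import Pool.Agent.Helper14.GoodSigns

/-!
Existence of a good sequence of blocks.
-/

open Finset

namespace Pool.Agent.Helper95

theorem exists_blk (K : ℝ) (hK : 1000 ≤ K) (c : ℝ) (hc : 0 ≤ c) :
    ∃ b : Blk, b.K = K ∧ 64 * b.ε ^ 2 * c ≤ 1 ∧ c * K ≤ b.p := by
  have hK0 : 0 < K := by linarith
  set ε : ℝ := 1 / (8 * (1 + c)) with hε
  have hε0 : 0 < ε := by positivity
  have hε8 : ε ≤ 1 / 8 := by
    rw [hε]
    apply div_le_div_of_nonneg_left (by norm_num) (by norm_num)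
    linarith
  have hεc : 64 * ε ^ 2 * c ≤ 1 := by
    have h1 : 64 * ε ^ 2 * c = c / (1 + c) ^ 2 := by
      rw [hε]; field_simp; ring
    rw [h1, div_le_one (by positivity)]
    nlinarith
  set s : ℕ := ⌈Real.exp (2 * K / ε)⌉₊ with hs
  set L : ℕ := ⌈K * s⌉₊ with hL
  obtain ⟨p₀, hp₀⟩ := Pool.Agent.Helper14.SignRigidity.exists_good_signs s L K (1 / K) hK0
    (by positivity)
  set p : ℕ := max p₀ (max ⌈62208 * K ^ 20 * Real.exp (2 * K / ε)⌉₊ ⌈c * K⌉₊) with hp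
  obtain ⟨ω, _, hbil, hrig⟩ := hp₀ p (le_max_left _ _)
  have hp1 : 62208 * K ^ 20 * Real.exp (2 * K / ε) ≤ p := by
    refine (Nat.le_ceil _).trans ?_
    exact_mod_cast (le_max_left _ _).trans (le_max_right _ _)
  have hp2 : c * K ≤ p := by
    refine (Nat.le_ceil _).trans ?_
    exact_mod_cast (le_max_right _ _).trans (le_max_right _ _)
  have hsL : (s : ℝ) ≤ (L + 1) / K := by
    rw [le_div_iff₀ hK0]
    have := Nat.le_ceil (K * s)
    rw [← hL] at this
    linarith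
  refine ⟨⟨p, ω, K, ε, ⟨hK, hε0, hbil, ⟨s, L, hrig, Nat.le_ceil _, hsL⟩, hp1⟩, hε8⟩, rfl, hεc, hp2⟩

/-- the chosen block -/
noncomputable def nxt (n : ℕ) (c : ℝ) : Blk :=
  (exists_blk (1000 + n) (by linarith [Nat.cast_nonneg (α := ℝ) n]) (max 0 c)
    (le_max_left _ _)).choose

lemma nxt_K (n : ℕ) (c : ℝ) : (nxt n c).K = 1000 + n :=
  (exists_blk (1000 + n) (by linarith [Nat.cast_nonneg (α := ℝ) n]) (max 0 c)
    (le_max_left _ _)).choose_spec.1

lemma nxt_ε (n : ℕ) (c : ℝ) : 64 * (nxt n c).ε ^ 2 * (max 0 c) ≤ 1 :=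
  (exists_blk (1000 + n) (by linarith [Nat.cast_nonneg (α := ℝ) n]) (max 0 c)
    (le_max_left _ _)).choose_spec.2.1

lemma nxt_p (n : ℕ) (c : ℝ) : (max 0 c) * (1000 + n) ≤ (nxt n c).p :=
  (exists_blk (1000 + n) (by linarith [Nat.cast_nonneg (α := ℝ) n]) (max 0 c)
    (le_max_left _ _)).choose_spec.2.2

/-- accumulated cost -/
noncomputable def cost : ℕ → ℝ
  | 0 => 0
  | n + 1 => cost n + 24 * (nxt n (cost n)).p * (1 + 2 * (nxt n (cost n)).K) ^ 2

/-- the sequence of blocks -/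
noncomputable def bb (n : ℕ) : Blk := nxt n (cost n)

lemma cost_succ (n : ℕ) : cost (n + 1) = cost n + 24 * (bb n).p * (1 + 2 * (bb n).K) ^ 2 := rfl

lemma cost_eq (n : ℕ) : cost n = ∑ m ∈ range n, 24 * ((bb m).p : ℝ) * (1 + 2 * (bb m).K) ^ 2 := by
  induction n with
  | zero => rfl
  | succ n ih => rw [cost_succ, Finset.sum_range_succ, ih]

lemma cost_nonneg (n : ℕ) : 0 ≤ cost n := by
  rw [cost_eq]
  exact Finset.sum_nonneg fun _ _ => by positivity

theorem goodSeq_bb : GoodSeq bb where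
  hK n := nxt_K n _
  hε n m hnm := by
    have h1 := nxt_ε m (cost m)
    rw [max_eq_right (cost_nonneg m)] at h1
    have h2 : ((bb n).p : ℝ) ≤ cost m := by
      rw [cost_eq]
      have h3 : 24 * ((bb n).p : ℝ) * (1 + 2 * (bb n).K) ^ 2
          ≤ ∑ m ∈ range m, 24 * ((bb m).p : ℝ) * (1 + 2 * (bb m).K) ^ 2 := by
        apply Finset.single_le_sum (f := fun m => 24 * ((bb m).p : ℝ) * (1 + 2 * (bb m).K) ^ 2)
        · intro _ _; positivity
        · exact Finset.mem_range.mpr hnm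
      have h4 : ((bb n).p : ℝ) ≤ 24 * ((bb n).p : ℝ) * (1 + 2 * (bb n).K) ^ 2 := by
        have hK := (bb n).K_pos
        have h5 : (1 : ℝ) ≤ (1 + 2 * (bb n).K) ^ 2 := by nlinarith
        have h6 : (0 : ℝ) ≤ (bb n).p := Nat.cast_nonneg _
        nlinarith
      linarith
    refine le_trans ?_ h1
    change 64 * (bb m).ε ^ 2 * _ ≤ 64 * (bb m).ε ^ 2 * _
    exact mul_le_mul_of_nonneg_left h2 (by positivity)
  hp n := by
    have h1 := nxt_p n (cost n)
    rw [max_eq_right (cost_nonneg n)] at h1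
    rw [← cost_eq]
    have h2 : (bb n).K = 1000 + n := nxt_K n _
    rw [h2]
    exact h1

end Pool.Agent.Helper95
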